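import Mathlib
import Pool.Agent.SHA.Defs

set_option autoImplicit false

/-!
Elementary amenable groups.
-/

namespace Pool.Agent.SHAI

open Pool.Agent.SHA

/-- Every finite group of odd order that is an epimorphic image of a subgroup is soluble. (By the
theorem of Feit and Thompson every group has this property; it is not used here.) -/
def OddSol (G : Type) [Group G] : Prop :=
  ∀ (H : Subgroup G) (Q : Type) [Group Q] [Finite Q] (f : H →* Q), Function.Surjective f →
    Odd (Nat.card Q) → Group.IsSolvable Q

/-- The class of elementary amenable groups: the smallest class of groups that contains the finite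
groups and the abelian groups and is closed under subgroups, epimorphic images, extensions and
directed unions. -/
def ElemAmenable (G : Type) [Group G] : Prop :=
  ∀ X : (G : Type) → [Group G] → Prop,
    (∀ (A : Type) [Group A], Finite A → X A) →
    (∀ (A : Type) [Group A], (∀ a b : A, a * b = b * a) → X A) →
    (∀ (A B : Type) [Group A] [Group B] (f : B →* A), Function.Injective f → X A → X B) →
    (∀ (A B : Type) [Group A] [Group B] (f : A →* B), Function.Surjective f → X A → X B) →
    (∀ (A : Type) [Group A] (N : Subgroup A) [N.Normal], X N → X (A ⧸ N) → X A) →
    (∀ (A : Type) [Group A] (ι : Type) [Nonempty ι] (S : ι → Subgroup A),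
      Directed (· ≤ ·) S → (⨆ i, S i) = ⊤ → (∀ i, X (S i)) → X A) → X G

end Pool.Agent.SHAI
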