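import Mathlib
import Pool.Agent.SHAI.EADefs
import Pool.Agent.SHAF.ListDefs

set_option autoImplicit false

/-!
Definitions for the classification of the admissible classes of elementary amenable groups.
-/

namespace Pool.Agent.SHAI

open Pool.Agent.SHA Pool.Agent.SHAF

/-- The groups that are hyper-(locally soluble or finite), and the elementary amenable groups all of
whose finite sections of odd order are soluble. (By the theorem of Feit and Thompson these are
just the elementary amenable groups.) -/
def Tame (G : Type) [Group G] : Prop := HyperLSF G ∨ (ElemAmenable G ∧ OddSol G)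

/-- The list of finite groups. -/
def ListL (G : Type) [Group G] : Prop :=
  Finite G ∧
    ((IsCyclic G ∧ Good (Nat.card G)) ∨
      Nonempty (G ≃* Multiplicative (ZMod 2 × ZMod 4)) ∨
      Nonempty (G ≃* Multiplicative (ZMod 2 × ZMod 6)) ∨
      (∃ f : G →* Equiv.Perm (Fin 4), Function.Injective f) ∨
      Nonempty (G ≃* QuaternionGroup 2) ∨
      Nonempty (G ≃* Matrix.SpecialLinearGroup (Fin 2) (ZMod 3)) ∨
      MetaList G ∨
      Nonempty (G ≃* alternatingGroup (Fin 5)) ∨
      Nonempty (G ≃* Equiv.Perm (Fin 5)) ∨
      Nonempty (G ≃* Matrix.SpecialLinearGroup (Fin 2) (ZMod 5)))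

end Pool.Agent.SHAI
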