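import Mathlib

set_option autoImplicit false

/-!
Finite-by-(infinite cyclic) groups.
-/

namespace Pool.Agent.SHAI

/-- The group `G` is finite-by-(infinite cyclic): it has a homomorphism onto the infinite cyclic
group with finite kernel. -/
def FinByZ (G : Type) [Group G] : Prop :=
  ∃ f : G →* Multiplicative ℤ, Function.Surjective f ∧ Finite f.ker

/-- `G` is finite or finite-by-(infinite cyclic) or infinite dihedral (`DihedralGroup 0` is the
infinite dihedral group). -/
def BigClass (G : Type) [Group G] : Prop :=
  Finite G ∨ FinByZ G ∨ Nonempty (G ≃* DihedralGroup 0)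

end Pool.Agent.SHAI
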