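import Mathlib
import Pool.Agent.SHA.Final
import Pool.Agent.SHAI.FBZ

set_option autoImplicit false

/-!
Definitions and basic lemmas on the infinite members of classes of groups closed under subgroups,
images and automorphism groups. `DihedralGroup 0` is the infinite dihedral group.
-/

namespace Pool.Agent.SHAI

open Pool.Agent.SHA

/-- finite-by-(infinite dihedral) -/
def FinByD (G : Type) [Group G] : Prop :=
  ∃ f : G →* DihedralGroup 0, Function.Surjective f ∧ Finite f.ker

/-- the group `D_inf x C_2` -/
abbrev D2 : Type := DihedralGroup 0 × Multiplicative (ZMod 2)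

section

variable {A : Type} [Group A] (c a : A)

lemma conj_zpow_inv {c a : A} (hc : a * c * a⁻¹ = c⁻¹) (i : ℤ) : a * c ^ i = c ^ (-i) * a := by
  have h1 : a * c ^ i * a⁻¹ = c ^ (-i) := by
    rw [← conj_zpow, hc, inv_zpow, zpow_neg]
  rw [← h1]
  group

/-- the homomorphism from the infinite dihedral group given by two elements -/
def dihHom (ha : a * a = 1) (hc : a * c * a⁻¹ = c⁻¹) : DihedralGroup 0 →* A where
  toFun x := match x with
    | DihedralGroup.r i => c ^ (show ℤ from i)
    | DihedralGroup.sr i => a * c ^ (show ℤ from i)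
  map_one' := by
    show c ^ (0 : ℤ) = 1
    simp
  map_mul' := by
    have key := fun i : ℤ => conj_zpow_inv hc i
    rintro (i | i) (j | j)
    · show c ^ ((show ℤ from i) + (show ℤ from j)) = c ^ (show ℤ from i) * c ^ (show ℤ from j)
      rw [zpow_add]
    · show a * c ^ ((show ℤ from j) - (show ℤ from i)) =
        c ^ (show ℤ from i) * (a * c ^ (show ℤ from j))
      generalize (show ℤ from i) = i
      generalize (show ℤ from j) = j
      have h1 : c ^ i * a = a * c ^ (-i) := by
        have := key (-i)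
        rw [neg_neg] at this
        exact this.symm
      rw [← mul_assoc, h1, mul_assoc, ← zpow_add]
      congr 2
      omega
    · show a * c ^ ((show ℤ from i) + (show ℤ from j)) =
        a * c ^ (show ℤ from i) * c ^ (show ℤ from j)
      rw [zpow_add, mul_assoc]
    · show c ^ ((show ℤ from j) - (show ℤ from i)) =
        a * c ^ (show ℤ from i) * (a * c ^ (show ℤ from j))
      generalize (show ℤ from i) = i
      generalize (show ℤ from j) = j
      rw [key i, mul_assoc, ← mul_assoc a a, ha, one_mul, ← zpow_add]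
      congr 1
      omega

@[simp] lemma dihHom_r (ha : a * a = 1) (hc : a * c * a⁻¹ = c⁻¹) (i : ℤ) :
    dihHom c a ha hc (DihedralGroup.r (n := 0) i) = c ^ i := rfl

@[simp] lemma dihHom_sr (ha : a * a = 1) (hc : a * c * a⁻¹ = c⁻¹) (i : ℤ) :
    dihHom c a ha hc (DihedralGroup.sr (n := 0) i) = a * c ^ i := rfl

/-- an element inverting an element of infinite order is not a power of it -/
lemma not_zpow {c a : A} (hc : a * c * a⁻¹ = c⁻¹) (hinf : ∀ i : ℤ, c ^ i = 1 → i = 0) (i : ℤ) :
    a ≠ c ^ i := by
  rintro rfl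
  have h1 : c = c⁻¹ := by
    rw [← hc, ← zpow_add_one, ← zpow_neg, ← zpow_add]
    conv_lhs => rw [← zpow_one c]
    congr 1
    omega
  have h2 : c ^ (2 : ℤ) = 1 := by
    rw [zpow_two]
    nth_rewrite 1 [h1]
    exact inv_mul_cancel c
  have := hinf 2 h2
  omega

lemma dihHom_injective (ha : a * a = 1) (hc : a * c * a⁻¹ = c⁻¹)
    (hinf : ∀ i : ℤ, c ^ i = 1 → i = 0) : Function.Injective (dihHom c a ha hc) := by
  rw [injective_iff_map_eq_one]
  rintro (i | i) h
  · have h1 : c ^ (show ℤ from i) = 1 := h
    have h2 := hinf _ h1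
    show DihedralGroup.r i = DihedralGroup.r 0
    exact congrArg DihedralGroup.r h2
  · exfalso
    have h1 : a * c ^ (show ℤ from i) = 1 := h
    have h2 : a = c ^ (-(show ℤ from i)) := by
      rw [zpow_neg]
      exact eq_inv_of_mul_eq_one_left h1
    exact not_zpow hc hinf _ h2

lemma dihHom_surjective (ha : a * a = 1) (hc : a * c * a⁻¹ = c⁻¹)
    (h : ∀ x : A, (∃ i : ℤ, x = c ^ i) ∨ ∃ i : ℤ, x = a * c ^ i) :
    Function.Surjective (dihHom c a ha hc) := by
  intro x
  rcases h x with ⟨i, rfl⟩ | ⟨i, rfl⟩
  · exact ⟨DihedralGroup.r (n := 0) i, rfl⟩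
  · exact ⟨DihedralGroup.sr (n := 0) i, rfl⟩

end

end Pool.Agent.SHAI
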