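import Mathlib
import Pool.Agent.SHAI.Defs
import Pool.Agent.SHAI.EADefs

set_option autoImplicit false

/-!
Local properties.
-/

namespace Pool.Agent.SHAI

open Pool.Agent.SHA

/-- every finitely generated subgroup is finite -/
def LocFin (G : Type) [Group G] : Prop := ∀ H : Subgroup G, H.FG → Finite H

/-- every finitely generated subgroup is almost cyclic -/
def LocAC (G : Type) [Group G] : Prop := ∀ H : Subgroup G, H.FG → AlmostCyclic H

end Pool.Agent.SHAI
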