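import Mathlib
import Pool.Agent.SHAI.EADefs
import Pool.Agent.SHAI.Loc

set_option autoImplicit false

/-!
Hyper-(locally soluble or finite) groups are elementary amenable (module HYPEA).
-/

namespace Pool.Agent.SHAI

open Pool.Agent.SHA
open scoped commutatorElement

namespace HypEAAux

variable {X : (G : Type) → [Group G] → Prop}

private lemma hypea_equiv
    (hsub : ∀ (A B : Type) [Group A] [Group B] (f : B →* A), Function.Injective f → X A → X B)
    {A B : Type} [Group A] [Group B] (e : A ≃* B) (h : X A) : X B :=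
  hsub A B e.symm.toMonoidHom e.symm.injective h

private lemma hypea_derived
    (hfin : ∀ (A : Type) [Group A], Finite A → X A)
    (hab : ∀ (A : Type) [Group A], (∀ a b : A, a * b = b * a) → X A)
    (hext : ∀ (A : Type) [Group A] (N : Subgroup A) [N.Normal], X N → X (A ⧸ N) → X A)
    (n : ℕ) : ∀ (G : Type) [Group G], derivedSeries G n = ⊥ → X G := by
  induction n with
  | zero =>
    intro G _ h
    apply hfin
    rw [derivedSeries_zero] at h
    have h1 : Subsingleton G := by
      constructor
      intro a b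
      have ha : a ∈ (⊥ : Subgroup G) := h ▸ Subgroup.mem_top a
      have hb : b ∈ (⊥ : Subgroup G) := h ▸ Subgroup.mem_top b
      rw [Subgroup.mem_bot] at ha hb
      rw [ha, hb]
    exact inferInstance
  | succ n ih =>
    intro G _ h
    apply hext G (derivedSeries G n)
    · apply hab
      intro a b
      apply Subtype.ext
      have h1 : ⁅a.1, b.1⁆ ∈ derivedSeries G (n + 1) := by
        rw [derivedSeries_succ]
        exact Subgroup.commutator_mem_commutator a.2 b.2
      rw [h, Subgroup.mem_bot] at h1
      exact commutatorElement_eq_one_iff_mul_comm.1 h1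
    · apply ih
      rw [← map_derivedSeries_eq (f := QuotientGroup.mk' (derivedSeries G n))
        (QuotientGroup.mk'_surjective _) n]
      exact QuotientGroup.map_mk'_self (derivedSeries G n)

private lemma hypea_locSol
    (hfin : ∀ (A : Type) [Group A], Finite A → X A)
    (hab : ∀ (A : Type) [Group A], (∀ a b : A, a * b = b * a) → X A)
    (hext : ∀ (A : Type) [Group A] (N : Subgroup A) [N.Normal], X N → X (A ⧸ N) → X A)
    (hdir : ∀ (A : Type) [Group A] (ι : Type) [Nonempty ι] (S : ι → Subgroup A),
      Directed (· ≤ ·) S → (⨆ i, S i) = ⊤ → (∀ i, X (S i)) → X A)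
    (G : Type) [Group G] (h : LocallySoluble G) : X G := by
  apply hdir G (Finset G) (fun s => Subgroup.closure (s : Set G))
  · classical
    intro s t
    refine ⟨s ∪ t, Subgroup.closure_mono ?_, Subgroup.closure_mono ?_⟩
    · rw [Finset.coe_union]
      exact Set.subset_union_left
    · rw [Finset.coe_union]
      exact Set.subset_union_right
  · rw [eq_top_iff]
    intro x _
    have h1 : x ∈ Subgroup.closure (({x} : Finset G) : Set G) :=
      Subgroup.subset_closure (by simp)
    exact (le_iSup (fun s : Finset G => Subgroup.closure (s : Set G)) {x}) h1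
  · intro s
    have h1 : (Subgroup.closure (s : Set G)).FG := ⟨s, rfl⟩
    obtain ⟨n, hn⟩ := (h _ h1).solvable
    exact hypea_derived hfin hab hext n _ hn

end HypEAAux

open HypEAAux in
theorem hyperLSF_elemAmenable {G : Type} [Group G] (h : HyperLSF G) : ElemAmenable G := by
  intro X hfin hab hsub _hquo hext hdir
  obtain ⟨N, -, hN⟩ := zorn_le_nonempty₀ {N : Subgroup G | N.Normal ∧ X N} (by
    intro c hc hchain y hy
    have hdo : DirectedOn (· ≤ ·) c := hchain.directedOn
    refine ⟨sSup c, ⟨Subgroup.sSup_normal c fun H hH => (hc hH).1, ?_⟩, fun z hz => le_sSup hz⟩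
    have : Nonempty c := ⟨⟨y, hy⟩⟩
    apply hdir (sSup c : Subgroup G) c (fun N => N.1.subgroupOf (sSup c))
    · intro a b
      obtain ⟨d, hd, had, hbd⟩ := hdo a.1 a.2 b.1 b.2
      exact ⟨⟨d, hd⟩, fun x hx => had hx, fun x hx => hbd hx⟩
    · rw [eq_top_iff]
      intro x _
      obtain ⟨N, hN, hxN⟩ := (Subgroup.mem_sSup_of_directedOn ⟨y, hy⟩ hdo).1 x.2
      have h1 : x ∈ N.subgroupOf (sSup c) := hxN
      exact (le_iSup (fun N : c => N.1.subgroupOf (sSup c)) ⟨N, hN⟩) h1
    · intro N
      exact hypea_equiv hsub (Subgroup.subgroupOfEquivOfLe (le_sSup N.2)).symm (hc N.2).2)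
    ⊥ ⟨inferInstance, hfin _ inferInstance⟩
  obtain ⟨hNn, hXN⟩ := hN.prop
  have := hNn
  by_cases htop : N = ⊤
  · subst htop
    exact hypea_equiv hsub Subgroup.topEquiv hXN
  exfalso
  have hnt : Nontrivial (G ⧸ N) := by
    by_contra hcon
    rw [not_nontrivial_iff_subsingleton] at hcon
    exact htop (QuotientGroup.subgroup_eq_top_of_subsingleton N hcon)
  obtain ⟨M, hM, hMb, hMf⟩ := h (G ⧸ N) (QuotientGroup.mk' N) (QuotientGroup.mk'_surjective N) hnt
  have hXM : X M := by
    rcases hMf with hf | hl
    · exact hfin _ hf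
    · exact hypea_locSol hfin hab hext hdir M hl
  set M' : Subgroup G := M.comap (QuotientGroup.mk' N) with hM'
  let φ : M' →* M := (QuotientGroup.mk' N).subgroupComap M
  have hφ : ∀ x : M', x ∈ φ.ker → x.1 ∈ N := by
    intro x hx
    have h1 : φ x = 1 := hx
    have h2 := congrArg Subtype.val h1
    have h3 : (QuotientGroup.mk' N) x.1 = 1 := h2
    rwa [← MonoidHom.mem_ker, QuotientGroup.ker_mk'] at h3
  have hXK : X φ.ker := by
    apply hsub N φ.ker ((M'.subtype.comp φ.ker.subtype).codRestrict N (fun x => hφ x.1 x.2)) ?_ hXN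
    intro a b hab'
    have h1 := congrArg Subtype.val hab'
    exact Subtype.ext (Subtype.ext h1)
  have hXQ : X (M' ⧸ φ.ker) := hsub M _ (QuotientGroup.kerLift φ) (QuotientGroup.kerLift_injective φ) hXM
  have hXM' : X M' := hext M' φ.ker hXK hXQ
  have hle : N ≤ M' := by
    intro x hx
    have h1 : (QuotientGroup.mk' N) x = 1 := (QuotientGroup.eq_one_iff x).2 hx
    show (QuotientGroup.mk' N) x ∈ M
    rw [h1]
    exact one_mem M
  have hge : M' ≤ N := hN.le_of_ge ⟨inferInstance, hXM'⟩ hle
  apply hMb
  rw [eq_bot_iff]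
  intro q hq
  obtain ⟨g, rfl⟩ := QuotientGroup.mk'_surjective N q
  exact (QuotientGroup.eq_one_iff g).2 (hge hq)

end Pool.Agent.SHAI
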