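import Mathlib
import Pool.Agent.SHAN.SLA
import Pool.Agent.SHAN.SLB
import Pool.Agent.SHA.Defs
import Pool.Agent.SHAF.ListSol

set_option autoImplicit false

/-!
Groups whose finitely generated subgroups are in the list of finite groups (module LISTFIN).
-/

namespace Pool.Agent.SHAI

open Pool.Agent.SHA Pool.Agent.SHAF

/-- the members of the list are finite; the insoluble ones have order at most `120` -/
private theorem listfin_aux {G : Type} [Group G] (h : FinList G) :
    Finite G ∧ (120 < Nat.card G → Group.IsSolvable G) := by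
  rcases h with h | ⟨⟨e⟩⟩ | ⟨⟨e⟩⟩ | h
  · exact ⟨h.1, fun _ => list_sol h⟩
  · refine ⟨Finite.of_equiv _ e.toEquiv.symm, fun hc => ?_⟩
    exfalso
    rw [Nat.card_congr e.toEquiv, nat_card_alternatingGroup, Nat.card_eq_fintype_card, Fintype.card_fin] at hc
    norm_num [Nat.factorial] at hc
  · refine ⟨Finite.of_equiv _ e.toEquiv.symm, fun hc => ?_⟩
    exfalso
    rw [Nat.card_congr e.toEquiv, Nat.card_eq_fintype_card, Fintype.card_perm, Fintype.card_fin] at hc
    norm_num [Nat.factorial] at hc
  · obtain ⟨π, hπ, hk, -⟩ := h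
    have hA : Nat.card (alternatingGroup (Fin 5)) = 60 := by
      rw [nat_card_alternatingGroup, Nat.card_eq_fintype_card, Fintype.card_fin]
      norm_num [Nat.factorial]
    have hc : Nat.card G = 120 := by
      rw [← π.ker.card_mul_index, hk, Subgroup.index_ker]
      have h1 : Nat.card π.range = 60 := by
        rw [MonoidHom.range_eq_top.2 hπ, Subgroup.card_top, hA]
      rw [h1]
    refine ⟨Nat.finite_of_card_ne_zero (by rw [hc]; norm_num), fun h => ?_⟩
    omega

theorem locally_finList {G : Type} [Group G] (h : ∀ H : Subgroup G, H.FG → FinList H) :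
    Finite G ∨ LocallySoluble G := by
  by_cases hG : Finite G
  · exact Or.inl hG
  · right
    intro H hH
    have hinf : Infinite G := not_finite_iff_infinite.1 hG
    obtain ⟨s, hs⟩ := Infinite.exists_subset_card_eq G 121
    have hK : (H ⊔ Subgroup.closure (s : Set G)).FG := hH.sup ⟨s, rfl⟩
    obtain ⟨hf, hsol⟩ := listfin_aux (h _ hK)
    have hc : 120 < Nat.card (H ⊔ Subgroup.closure (s : Set G) : Subgroup G) := by
      have h1 : (s : Set G) ⊆ ((H ⊔ Subgroup.closure (s : Set G) : Subgroup G) : Set G) := by
        intro x hx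
        exact (le_sup_right : Subgroup.closure (s : Set G) ≤ _) (Subgroup.subset_closure hx)
      have h2 : Set.ncard (s : Set G) ≤ Set.ncard ((H ⊔ Subgroup.closure (s : Set G) : Subgroup G) : Set G) :=
        Set.ncard_le_ncard h1 (Set.toFinite _)
      rw [Set.ncard_coe_finset, hs] at h2
      have h3 : Set.ncard ((H ⊔ Subgroup.closure (s : Set G) : Subgroup G) : Set G) =
          Nat.card (H ⊔ Subgroup.closure (s : Set G) : Subgroup G) := rfl
      omega
    have hs' := hsol hc
    exact Group.isSolvable_of_isSolvable_injective (Subgroup.inclusion_injective (le_sup_left : H ≤ H ⊔ Subgroup.closure (s : Set G)))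

end Pool.Agent.SHAI
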