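import Mathlib
import Pool.Agent.SHAI.EADefs
import Pool.Agent.SHAI.Loc

set_option autoImplicit false

/-!
Locally almost cyclic groups with an element of infinite order (module LAA).
-/

namespace Pool.Agent.SHAI

open Pool.Agent.SHA

theorem laa_ac {H : Type} [Group H] (h : AlmostCyclic H) (t g : H)
    (ht : ∀ i : ℤ, t ^ i = 1 → i = 0) :
    ∃ m : ℕ, m ≠ 0 ∧ (g * t ^ m * g⁻¹ = t ^ m ∨ g * t ^ m * g⁻¹ = (t ^ m)⁻¹) := by
  have hfi : (Subgroup.zpowers t).FiniteIndex := by
    apply h.zpowers_fi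
    intro n hn hc
    have := ht n (by rw [zpow_natCast]; exact hc)
    omega
  set N := (Subgroup.zpowers t).normalCore with hN
  have hNfi : N.FiniteIndex := by
    rw [hN]
    infer_instance
  have hNn : N.Normal := Subgroup.normalCore_normal _
  have hNle : N ≤ Subgroup.zpowers t := Subgroup.normalCore_le _
  obtain ⟨n, hn0, -, hn⟩ := Subgroup.exists_pow_mem_of_index_ne_zero hNfi.index_ne_zero t
  -- the exponents
  obtain ⟨a, ha⟩ := Int.subgroup_cyclic (AddSubgroup.comap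
    (zmultiplesHom (Additive H) (Additive.ofMul t)) N.toAddSubgroup)
  have hmem : ∀ k : ℤ, t ^ k ∈ N ↔ a ∣ k := by
    intro k
    have h1 : k ∈ AddSubgroup.comap (zmultiplesHom (Additive H) (Additive.ofMul t))
      N.toAddSubgroup ↔ t ^ k ∈ N := Iff.rfl
    rw [← h1, ha, AddSubgroup.mem_closure_singleton]
    constructor
    · rintro ⟨j, rfl⟩
      exact ⟨j, by rw [smul_eq_mul, mul_comm]⟩
    · rintro ⟨j, rfl⟩
      exact ⟨j, by rw [smul_eq_mul, mul_comm]⟩
  have ha0 : a ≠ 0 := by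
    rintro rfl
    have h1 : t ^ (n : ℤ) ∈ N := by
      rw [zpow_natCast]
      exact hn
    rw [hmem] at h1
    have := zero_dvd_iff.1 h1
    omega
  have hconj : ∀ x : H, ∃ j : ℤ, x * t ^ a * x⁻¹ = (t ^ a) ^ j := by
    intro x
    have h1 : t ^ a ∈ N := (hmem a).2 dvd_rfl
    have h2 : x * t ^ a * x⁻¹ ∈ N := hNn.conj_mem _ h1 x
    obtain ⟨k, hk⟩ := Subgroup.mem_zpowers_iff.1 (hNle h2)
    rw [← hk] at h2
    obtain ⟨j, rfl⟩ := (hmem k).1 h2
    exact ⟨j, by rw [← hk, zpow_mul]⟩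
  obtain ⟨j, hj⟩ := hconj g
  obtain ⟨l, hl⟩ := hconj g⁻¹
  have hjl : j * l = 1 := by
    have h1 : t ^ a = (t ^ a) ^ (j * l) := by
      calc t ^ a = g * (g⁻¹ * t ^ a * g⁻¹⁻¹) * g⁻¹ := by group
        _ = g * (t ^ a) ^ l * g⁻¹ := by rw [hl]
        _ = (g * t ^ a * g⁻¹) ^ l := by rw [conj_zpow]
        _ = (t ^ a) ^ (j * l) := by rw [hj, zpow_mul]
    have h2 : t ^ (a * (j * l) - a) = 1 := by
      rw [zpow_sub, zpow_mul t a (j * l), ← h1, mul_inv_cancel]
    have h3 := ht _ h2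
    have h4 : a * (j * l - 1) = 0 := by linear_combination h3
    rcases mul_eq_zero.1 h4 with h5 | h5
    · exact absurd h5 ha0
    · omega
  have hnat : t ^ (a.natAbs : ℕ) = t ^ a ∨ t ^ (a.natAbs : ℕ) = (t ^ a)⁻¹ := by
    rcases Int.natAbs_eq a with h1 | h1
    · left
      rw [← zpow_natCast]
      congr 1
      exact h1.symm
    · right
      rw [← zpow_natCast, ← zpow_neg]
      congr 1
      omega
  refine ⟨a.natAbs, by omega, ?_⟩
  rcases Int.eq_one_or_neg_one_of_mul_eq_one hjl with h1 | h1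
  · left
    rw [h1, zpow_one] at hj
    rcases hnat with h2 | h2
    · rw [h2, hj]
    · rw [h2, ← conj_inv, hj]
  · right
    rw [h1, zpow_neg, zpow_one] at hj
    rcases hnat with h2 | h2
    · rw [h2, hj]
    · rw [h2, ← conj_inv, hj]

theorem laa_loc {G : Type} [Group G] (h : LocAC G) (t : G)
    (ht : ∀ i : ℤ, t ^ i = 1 → i = 0) (g : G) :
    ∃ m : ℕ, m ≠ 0 ∧ (g * t ^ m * g⁻¹ = t ^ m ∨ g * t ^ m * g⁻¹ = (t ^ m)⁻¹) := by
  have hfg : (Subgroup.closure ({g, t} : Set G)).FG := by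
    classical
    exact ⟨{g, t}, by simp⟩
  have hH := h _ hfg
  have hg : g ∈ Subgroup.closure ({g, t} : Set G) := Subgroup.subset_closure (by simp)
  have ht' : t ∈ Subgroup.closure ({g, t} : Set G) := Subgroup.subset_closure (by simp)
  obtain ⟨m, hm, h1⟩ := laa_ac hH ⟨t, ht'⟩ ⟨g, hg⟩ (by
    intro i hi
    apply ht
    have := congrArg Subtype.val hi
    simpa using this)
  refine ⟨m, hm, ?_⟩
  rcases h1 with h1 | h1
  · left
    have := congrArg Subtype.val h1
    simpa using this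
  · right
    have := congrArg Subtype.val h1
    simpa using this

theorem locAC_exists_C {G : Type} [Group G] (h : LocAC G) (t : G)
    (ht : ∀ i : ℤ, t ^ i = 1 → i = 0) :
    ∃ C : Subgroup G, C.Normal ∧ C.FiniteIndex ∧
      ∀ g ∈ C, ∃ m : ℕ, m ≠ 0 ∧ g * t ^ m = t ^ m * g := by
  let C : Subgroup G :=
    { carrier := {g | ∃ m : ℕ, m ≠ 0 ∧ g * t ^ m = t ^ m * g}
      mul_mem' := by
        rintro x y ⟨m, hm, hx⟩ ⟨l, hl, hy⟩
        refine ⟨m * l, mul_ne_zero hm hl, ?_⟩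
        have h1 : Commute x (t ^ (m * l)) := by
          rw [pow_mul]
          exact (show Commute x (t ^ m) from hx).pow_right l
        have h2 : Commute y (t ^ (m * l)) := by
          rw [mul_comm, pow_mul]
          exact (show Commute y (t ^ l) from hy).pow_right m
        exact h1.mul_left h2
      one_mem' := ⟨1, one_ne_zero, by simp⟩
      inv_mem' := by
        rintro x ⟨m, hm, hx⟩
        exact ⟨m, hm, (show Commute x (t ^ m) from hx).inv_left⟩ }
  have hC : ∀ g, g ∈ C ↔ ∃ m : ℕ, m ≠ 0 ∧ g * t ^ m = t ^ m * g := fun g => Iff.rfl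
  refine ⟨C, ⟨?_⟩, ?_, fun g hg => hg⟩
  · rintro g ⟨m, hm, hg⟩ x
    obtain ⟨k, hk, hx⟩ := laa_loc h t ht x
    refine ⟨k * m, mul_ne_zero hk hm, ?_⟩
    have h1 : Commute g (t ^ (k * m)) := by
      rw [mul_comm, pow_mul]
      exact (show Commute g (t ^ m) from hg).pow_right k
    have h2 : Commute (x * g * x⁻¹) (x * t ^ (k * m) * x⁻¹) := by
      have : x * g * x⁻¹ * (x * t ^ (k * m) * x⁻¹) = x * (g * t ^ (k * m)) * x⁻¹ := by group
      show x * g * x⁻¹ * (x * t ^ (k * m) * x⁻¹) = (x * t ^ (k * m) * x⁻¹) * (x * g * x⁻¹)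
      rw [this, h1.eq]
      group
    have h3 : x * t ^ (k * m) * x⁻¹ = (x * t ^ k * x⁻¹) ^ m := by
      rw [conj_pow, pow_mul]
    rw [h3] at h2
    rcases hx with hx | hx
    · rw [hx, ← pow_mul] at h2
      exact h2
    · rw [hx, inv_pow, ← pow_mul] at h2
      exact (Commute.inv_right_iff.1 h2)
  · have key : ∀ g : G, g ∉ C → ∃ m : ℕ, m ≠ 0 ∧ g * t ^ m * g⁻¹ = (t ^ m)⁻¹ := by
      intro g hg
      obtain ⟨m, hm, h1⟩ := laa_loc h t ht g
      refine ⟨m, hm, ?_⟩
      rcases h1 with h1 | h1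
      · exfalso
        apply hg
        rw [hC]
        refine ⟨m, hm, ?_⟩
        calc g * t ^ m = (g * t ^ m * g⁻¹) * g := by group
          _ = t ^ m * g := by rw [h1]
      · exact h1
    by_cases hall : ∀ g, g ∈ C
    · refine fi_of_cover ⊤ C inferInstance {1} (Set.finite_singleton _) ?_
      intro p _
      exact ⟨1, rfl, by simpa using hall p⟩
    · push Not at hall
      obtain ⟨a, ha⟩ := hall
      refine fi_of_cover ⊤ C inferInstance {1, a} (by simp) ?_
      intro p _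
      by_cases hp : p ∈ C
      · exact ⟨1, by simp, by simpa using hp⟩
      · refine ⟨a, by simp, ?_⟩
        obtain ⟨m, hm, h1⟩ := key a ha
        obtain ⟨l, hl, h2⟩ := key p hp
        rw [hC]
        refine ⟨m * l, mul_ne_zero hm hl, ?_⟩
        have h3 : a * t ^ (m * l) * a⁻¹ = (t ^ (m * l))⁻¹ := by
          rw [pow_mul, ← conj_pow, h1, inv_pow]
        have h4 : p * t ^ (m * l) * p⁻¹ = (t ^ (m * l))⁻¹ := by
          rw [mul_comm, pow_mul, ← conj_pow, h2, inv_pow]
        have h5 : p * t ^ (m * l) = (t ^ (m * l))⁻¹ * p := by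
          rw [← h4]
          group
        have h6 : a * t ^ (m * l) = (t ^ (m * l))⁻¹ * a := by
          rw [← h3]
          group
        have h7 : a⁻¹ * (t ^ (m * l))⁻¹ = t ^ (m * l) * a⁻¹ := by
          rw [inv_mul_eq_iff_eq_mul, ← mul_assoc, h6]
          group
        calc a⁻¹ * p * t ^ (m * l) = a⁻¹ * (p * t ^ (m * l)) := by group
          _ = (a⁻¹ * (t ^ (m * l))⁻¹) * p := by rw [h5]; group
          _ = t ^ (m * l) * (a⁻¹ * p) := by rw [h7]; group

end Pool.Agent.SHAI
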