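import Mathlib
import Pool.Agent.SHAI.EADefs
import Pool.Agent.SHAI.Loc

set_option autoImplicit false

/-!
Locally almost cyclic groups in which every element commutes with a power of a given element of
infinite order (module LAB).
-/

namespace Pool.Agent.SHAI

open Pool.Agent.SHA

private lemma lab_key {G : Type} [Group G] (h : LocAC G) (t : G)
    (ht : ∀ i : ℤ, t ^ i = 1 → i = 0)
    (hc : ∀ g : G, ∃ m : ℕ, m ≠ 0 ∧ g * t ^ m = t ^ m * g) (a b : G) :
    ∃ k : ℕ, k ≠ 0 ∧ (a * b) ^ k = a ^ k * b ^ k ∧ a ^ k * b ^ k = b ^ k * a ^ k ∧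
      (a * b * a⁻¹ * b⁻¹) ^ k = 1 := by
  obtain ⟨i, hi, hai⟩ := hc a
  obtain ⟨j, hj, hbj⟩ := hc b
  have ha : Commute a (t ^ (i * j)) := by
    rw [pow_mul]
    exact Commute.pow_right hai j
  have hb : Commute b (t ^ (i * j)) := by
    rw [mul_comm i j, pow_mul]
    exact Commute.pow_right hbj i
  have htt : Commute t (t ^ (i * j)) := (Commute.refl t).pow_right _
  let H : Subgroup G := Subgroup.closure {a, b, t}
  have hfg : H.FG := by
    rw [Subgroup.fg_iff]
    exact ⟨{a, b, t}, rfl, ((Set.finite_singleton t).insert b).insert a⟩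
  have haH : a ∈ H := Subgroup.subset_closure (by simp)
  have hbH : b ∈ H := Subgroup.subset_closure (by simp)
  have htH : t ∈ H := Subgroup.subset_closure (by simp)
  have hcen : ∀ x ∈ H, x * t ^ (i * j) = t ^ (i * j) * x := by
    intro x hx
    have h1 : H ≤ Subgroup.centralizer {t ^ (i * j)} := by
      rw [Subgroup.closure_le]
      rintro y (rfl | rfl | rfl)
      · exact Subgroup.mem_centralizer_singleton_iff.mpr ha.eq
      · exact Subgroup.mem_centralizer_singleton_iff.mpr hb.eq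
      · exact Subgroup.mem_centralizer_singleton_iff.mpr htt.eq
    exact Subgroup.mem_centralizer_singleton_iff.mp (h1 hx)
  have hac : AlmostCyclic H := h H hfg
  let g : H := ⟨t ^ (i * j), H.pow_mem htH _⟩
  have hg : ∀ n : ℕ, n ≠ 0 → g ^ n ≠ 1 := by
    intro n hn h1
    have h2 : (t ^ (i * j)) ^ n = 1 := congrArg Subtype.val h1
    rw [← pow_mul, ← zpow_natCast] at h2
    have h3 := ht _ h2
    have h4 : i * j * n = 0 := by exact_mod_cast h3
    exact (mul_ne_zero (mul_ne_zero hi hj) hn) h4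
  have hfi := hac.zpowers_fi g hg
  have hcfi : (Subgroup.center H).FiniteIndex := by
    refine Subgroup.finiteIndex_of_le (H := Subgroup.zpowers g) ?_
    rw [Subgroup.zpowers_le, Subgroup.mem_center_iff]
    intro y
    exact Subtype.ext (hcen y y.2)
  let f := MonoidHom.transferCenterPow H
  have hf : ∀ y : H, (((f y : Subgroup.center H) : H) : G) = (y : G) ^ (Subgroup.center H).index := by
    intro y
    have := MonoidHom.transferCenterPow_apply (G := H) y
    rw [this]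
    rfl
  have hcomm : ∀ u v : Subgroup.center H, u * v = v * u := by
    intro u v
    exact Subtype.ext (Subgroup.mem_center_iff.mp v.2 (u : H))
  refine ⟨(Subgroup.center H).index, hcfi.index_ne_zero, ?_, ?_, ?_⟩
  · have h1 := hf (⟨a, haH⟩ * ⟨b, hbH⟩)
    rw [map_mul] at h1
    have h2 := hf ⟨a, haH⟩
    have h3 := hf ⟨b, hbH⟩
    have h4 : (((f ⟨a, haH⟩ * f ⟨b, hbH⟩ : Subgroup.center H) : H) : G) =
        (((f ⟨a, haH⟩ : Subgroup.center H) : H) : G) * (((f ⟨b, hbH⟩ : Subgroup.center H) : H) : G) := rfl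
    rw [h4, h2, h3] at h1
    exact h1.symm
  · have h2 := hf ⟨a, haH⟩
    have h3 := hf ⟨b, hbH⟩
    have h4 := congrArg (fun u : Subgroup.center H => ((u : H) : G)) (hcomm (f ⟨a, haH⟩) (f ⟨b, hbH⟩))
    have h5 : (((f ⟨a, haH⟩ : Subgroup.center H) : H) : G) * (((f ⟨b, hbH⟩ : Subgroup.center H) : H) : G) =
      (((f ⟨b, hbH⟩ : Subgroup.center H) : H) : G) * (((f ⟨a, haH⟩ : Subgroup.center H) : H) : G) := h4
    rw [h2, h3] at h5
    exact h5
  · have h1 := hf (⟨a, haH⟩ * ⟨b, hbH⟩ * ⟨a, haH⟩⁻¹ * ⟨b, hbH⟩⁻¹)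
    have h2 : f (⟨a, haH⟩ * ⟨b, hbH⟩ * ⟨a, haH⟩⁻¹ * ⟨b, hbH⟩⁻¹) = 1 := by
      rw [map_mul, map_mul, map_mul, map_inv, map_inv, hcomm (f ⟨a, haH⟩), mul_inv_cancel_right,
        mul_inv_cancel]
    rw [h2] at h1
    exact h1.symm

theorem locAC_torsion {G : Type} [Group G] (h : LocAC G) (t : G)
    (ht : ∀ i : ℤ, t ^ i = 1 → i = 0)
    (hc : ∀ g : G, ∃ m : ℕ, m ≠ 0 ∧ g * t ^ m = t ^ m * g) :
    ∃ T : Subgroup G, (∀ x, x ∈ T ↔ ∃ n : ℕ, n ≠ 0 ∧ x ^ n = 1) ∧
      ∀ a b : G, a * b * a⁻¹ * b⁻¹ ∈ T := by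
  refine ⟨{ carrier := {x | ∃ n : ℕ, n ≠ 0 ∧ x ^ n = 1}
            mul_mem' := ?_
            one_mem' := ⟨1, one_ne_zero, one_pow 1⟩
            inv_mem' := ?_ }, fun x => Iff.rfl, fun a b => ?_⟩
  · rintro x y ⟨n, hn, hx⟩ ⟨m, hm, hy⟩
    obtain ⟨k, hk, h1, h2, _⟩ := lab_key h t ht hc x y
    refine ⟨k * (n * m), mul_ne_zero hk (mul_ne_zero hn hm), ?_⟩
    have h3 : Commute (x ^ k) (y ^ k) := h2
    rw [pow_mul, h1, h3.mul_pow, ← pow_mul, ← pow_mul]
    have e1 : x ^ (k * (n * m)) = 1 := by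
      have : k * (n * m) = n * (k * m) := by ring
      rw [this, pow_mul, hx, one_pow]
    have e2 : y ^ (k * (n * m)) = 1 := by
      have : k * (n * m) = m * (k * n) := by ring
      rw [this, pow_mul, hy, one_pow]
    rw [e1, e2, one_mul]
  · rintro x ⟨n, hn, hx⟩
    exact ⟨n, hn, by rw [inv_pow, hx, inv_one]⟩
  · obtain ⟨k, hk, _, _, h3⟩ := lab_key h t ht hc a b
    exact ⟨k, hk, h3⟩

end Pool.Agent.SHAI
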