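import Mathlib

set_option autoImplicit false

/-!
Groups with finite abelian subgroups: a section with finite centralisers (module MAXA).
-/

namespace Pool.Agent.SHAI

/-- a set of pairwise commuting elements generates an abelian subgroup -/
private theorem maxa_closure_comm {G : Type} [Group G] {T : Set G}
    (h : ∀ a ∈ T, ∀ b ∈ T, a * b = b * a) :
    ∀ a ∈ Subgroup.closure T, ∀ b ∈ Subgroup.closure T, a * b = b * a := by
  have h1 : Subgroup.closure T ≤ Subgroup.centralizer T := by
    rw [Subgroup.closure_le]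
    intro a ha
    rw [SetLike.mem_coe, Subgroup.mem_centralizer_iff]
    intro b hb
    exact h b hb a ha
  have h2 : Subgroup.closure T ≤ Subgroup.centralizer (Subgroup.closure T : Set G) := by
    rw [Subgroup.closure_le]
    intro a ha
    rw [SetLike.mem_coe, Subgroup.mem_centralizer_iff]
    intro b hb
    have := (Subgroup.mem_centralizer_iff.1 (h1 hb)) a ha
    exact this.symm
  intro a ha b hb
  exact ((Subgroup.mem_centralizer_iff.1 (h2 ha)) b hb).symm

theorem exists_section {G : Type} [Group G] (hinf : Infinite G)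
    (hab : ∀ A : Subgroup G, (∀ a ∈ A, ∀ b ∈ A, a * b = b * a) → Finite A) :
    ∃ (H : Subgroup G) (S : Type) (_ : Group S) (f : H →* S), Function.Surjective f ∧
      Infinite S ∧ ∀ x : S, x ≠ 1 → Finite (Subgroup.centralizer ({x} : Set S)) := by
  classical
  let P : Set (Subgroup G) := {A | (∀ a ∈ A, ∀ b ∈ A, a * b = b * a) ∧
    Infinite (Subgroup.centralizer (A : Set G))}
  have hbot : (⊥ : Subgroup G) ∈ P := by
    refine ⟨?_, ?_⟩
    · intro a ha b hb
      rw [Subgroup.mem_bot] at ha hb
      rw [ha, hb]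
    · have h1 : Subgroup.centralizer ((⊥ : Subgroup G) : Set G) = ⊤ := by
        rw [eq_top_iff]
        intro a _
        rw [Subgroup.mem_centralizer_iff]
        intro b hb
        rw [SetLike.mem_coe, Subgroup.mem_bot] at hb
        rw [hb, one_mul, mul_one]
      rw [h1]
      exact (Subgroup.topEquiv (G := G)).toEquiv.infinite_iff.2 hinf
  have hchain : ∀ c ⊆ P, IsChain (· ≤ ·) c → ∀ y ∈ c, ∃ ub ∈ P, ∀ z ∈ c, z ≤ ub := by
    intro c hc hch y hy
    have hdir : DirectedOn (· ≤ ·) c := hch.directedOn
    have hU : ∀ a ∈ sSup c, ∀ b ∈ sSup c, a * b = b * a := by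
      intro a ha b hb
      rw [Subgroup.mem_sSup_of_directedOn ⟨y, hy⟩ hdir] at ha hb
      obtain ⟨A, hA, ha⟩ := ha
      obtain ⟨B, hB, hb⟩ := hb
      obtain ⟨D, hD, h1, h2⟩ := hdir A hA B hB
      exact (hc hD).1 a (h1 ha) b (h2 hb)
    have hUf : ((sSup c : Subgroup G) : Set G).Finite := by
      have := hab _ hU
      exact Set.toFinite _
    have hcf : c.Finite := by
      refine ((hUf.powerset).preimage (f := fun A : Subgroup G => (A : Set G))
        (SetLike.coe_injective.injOn)).subset ?_
      intro A hA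
      exact le_sSup hA
    obtain ⟨m, hm⟩ := hcf.exists_maximal ⟨y, hy⟩
    refine ⟨m, hc hm.1, fun z hz => ?_⟩
    rcases hch.total hz hm.1 with h | h
    · exact h
    · exact hm.2 hz h
  obtain ⟨A, -, hA⟩ := zorn_le_nonempty₀ P hchain ⊥ hbot
  obtain ⟨⟨hA1, hA2⟩, hA3⟩ := hA
  have hAfin : Finite A := hab A hA1
  set C : Subgroup G := Subgroup.centralizer (A : Set G) with hC
  have hAC : A ≤ C := by
    intro a ha
    rw [hC, Subgroup.mem_centralizer_iff]
    intro b hb
    exact hA1 b hb a ha
  have hnorm : (A.subgroupOf C).Normal := by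
    refine ⟨fun n hn g => ?_⟩
    rw [Subgroup.mem_subgroupOf] at hn ⊢
    have h1 : (n : G) * g = g * n := (Subgroup.mem_centralizer_iff.1 g.2) _ hn
    have h2 : ((g * n * g⁻¹ : C) : G) = n := by
      simp only [Subgroup.coe_mul, InvMemClass.coe_inv]
      rw [← h1, mul_inv_cancel_right]
    rw [h2]
    exact hn
  refine ⟨C, C ⧸ (A.subgroupOf C), inferInstance, QuotientGroup.mk' _,
    QuotientGroup.mk'_surjective _, ?_, ?_⟩
  · by_contra hcon
    rw [not_infinite_iff_finite] at hcon
    have h1 : Finite (A.subgroupOf C) := by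
      refine Finite.of_injective (fun z : A.subgroupOf C => (⟨(z.1 : G), z.2⟩ : A)) ?_
      intro z z' h
      have h' : (z.1 : G) = (z'.1 : G) := congrArg (fun t : A => (t : G)) h
      exact Subtype.ext (Subtype.ext h')
    have h2 : Finite C := Finite.of_equiv _ (Subgroup.groupEquivQuotientProdSubgroup
      (s := A.subgroupOf C)).symm
    exact hA2.not_finite h2
  · intro x hx
    obtain ⟨c, rfl⟩ := QuotientGroup.mk'_surjective _ x
    have hc : (c : G) ∉ A := by
      intro h
      apply hx
      rw [QuotientGroup.mk'_apply, QuotientGroup.eq_one_iff, Subgroup.mem_subgroupOf]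
      exact h
    set g : G := (c : G) with hg
    set A2 : Subgroup G := Subgroup.closure (insert g (A : Set G)) with hA2d
    have hgC : ∀ a ∈ A, a * g = g * a := fun a ha => (Subgroup.mem_centralizer_iff.1 c.2) a ha
    have hcomm : ∀ a ∈ A2, ∀ b ∈ A2, a * b = b * a := by
      refine maxa_closure_comm ?_
      rintro a (rfl | ha) b (rfl | hb)
      · rfl
      · exact (hgC b hb).symm
      · exact hgC a ha
      · exact hA1 a ha b hb
    have hAA2 : A ≤ A2 := fun a ha => Subgroup.subset_closure (Or.inr ha)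
    have hgA2 : g ∈ A2 := Subgroup.subset_closure (Or.inl rfl)
    have hfin : ((Subgroup.centralizer (A2 : Set G) : Subgroup G) : Set G).Finite := by
      rw [← Set.not_infinite]
      intro h
      have h1 : A2 ∈ P := ⟨hcomm, h.to_subtype⟩
      exact hc (hA3 h1 hAA2 hgA2)
    have hB : {b : G | b ∈ C ∧ b * g * b⁻¹ * g⁻¹ ∈ A}.Finite := by
      refine Set.Finite.of_finite_fibers (fun b => b * g * b⁻¹ * g⁻¹) ?_ ?_
      · refine (Set.toFinite (A : Set G)).subset ?_
        rintro _ ⟨b, hb, rfl⟩
        exact hb.2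
      · rintro _ ⟨b₀, hb₀, rfl⟩
        refine (hfin.image (fun z => b₀ * z)).subset ?_
        rintro b ⟨hb, hbe⟩
        refine ⟨b₀⁻¹ * b, ?_, mul_inv_cancel_left _ _⟩
        have he : b * g * b⁻¹ = b₀ * g * b₀⁻¹ := mul_right_cancel hbe
        have h1 : b₀⁻¹ * b * g = g * (b₀⁻¹ * b) := by
          have : b * g = b₀ * g * b₀⁻¹ * b := by
            rw [← he, inv_mul_cancel_right]
          rw [mul_assoc, this]
          group
        have h2 : b₀⁻¹ * b ∈ C := C.mul_mem (C.inv_mem hb₀.1) hb.1
        have h3 : A2 ≤ Subgroup.centralizer ({b₀⁻¹ * b} : Set G) := by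
          rw [hA2d, Subgroup.closure_le]
          rintro a (rfl | ha)
          · rw [SetLike.mem_coe, Subgroup.mem_centralizer_iff]
            rintro _ rfl
            exact h1
          · rw [SetLike.mem_coe, Subgroup.mem_centralizer_iff]
            rintro _ rfl
            exact ((Subgroup.mem_centralizer_iff.1 h2) a ha).symm
        rw [SetLike.mem_coe, Subgroup.mem_centralizer_iff]
        intro a ha
        exact ((Subgroup.mem_centralizer_iff.1 (h3 ha)) _ rfl).symm
    have hK : ((Subgroup.centralizer ({QuotientGroup.mk' (A.subgroupOf C) c} :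
        Set (C ⧸ (A.subgroupOf C))) : Subgroup _) : Set (C ⧸ (A.subgroupOf C))).Finite := by
      refine ((hB.preimage (f := fun b : C => (b : G)) (Subtype.val_injective.injOn)).image
        (QuotientGroup.mk' (A.subgroupOf C))).subset ?_
      intro k hk
      obtain ⟨b, rfl⟩ := QuotientGroup.mk'_surjective _ k
      refine ⟨b, ⟨b.2, ?_⟩, rfl⟩
      have h1 : QuotientGroup.mk' (A.subgroupOf C) c * QuotientGroup.mk' (A.subgroupOf C) b =
          QuotientGroup.mk' (A.subgroupOf C) b * QuotientGroup.mk' (A.subgroupOf C) c :=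
        (Subgroup.mem_centralizer_iff.1 hk) _ rfl
      have h2 : QuotientGroup.mk' (A.subgroupOf C) (b * c * b⁻¹ * c⁻¹) = 1 := by
        rw [map_mul, map_mul, map_mul, map_inv, map_inv, ← h1, mul_inv_cancel_right, mul_inv_cancel]
      rw [QuotientGroup.mk'_apply, QuotientGroup.eq_one_iff, Subgroup.mem_subgroupOf] at h2
      exact h2
    exact hK.to_subtype

end Pool.Agent.SHAI
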