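import Mathlib

set_option autoImplicit false

/-!
A theorem of Brauer and Fowler (module BF).
-/

namespace Pool.Agent.SHAI

private lemma bf_card_le {H : Type} [Group H] [Finite H] (x : H) (S : Finset H)
    (hS : ∀ a ∈ S, ∀ b ∈ S, a⁻¹ * b ∈ Subgroup.centralizer ({x} : Set H)) :
    S.card ≤ Nat.card (Subgroup.centralizer ({x} : Set H)) := by
  rcases S.eq_empty_or_nonempty with rfl | ⟨a, ha⟩
  · simp
  · let f : S → Subgroup.centralizer ({x} : Set H) := fun b => ⟨a⁻¹ * b.1, hS a ha b.1 b.2⟩
    have hf : Function.Injective f := by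
      intro b b' h
      have h1 : a⁻¹ * b.1 = a⁻¹ * b'.1 := congrArg Subtype.val h
      exact Subtype.ext (mul_left_cancel h1)
    have h2 := Nat.card_le_card_of_injective f hf
    simpa using h2

private lemma bf_mem {H : Type} [Group H] (x g : H) :
    g ∈ Subgroup.centralizer ({x} : Set H) ↔ x * g = g * x := by
  rw [Subgroup.mem_centralizer_iff]
  simp

theorem brauer_fowler {H : Type} [Group H] [Finite H] (t : H) (ht : t ≠ 1) (ht2 : t * t = 1)
    (hH : 2 * Nat.card (Subgroup.centralizer ({t} : Set H)) ^ 2 < Nat.card H) :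
    ∃ x : H, x ≠ 1 ∧ Nat.card H < 2 * Nat.card (Subgroup.centralizer ({t} : Set H)) ^ 2 *
      Nat.card (Subgroup.centralizer ({x} : Set H)) := by
  classical
  have := Fintype.ofFinite H
  by_contra hcon
  have hcon' : ∀ x : H, x ≠ 1 → 2 * Nat.card (Subgroup.centralizer ({t} : Set H)) ^ 2 *
      Nat.card (Subgroup.centralizer ({x} : Set H)) ≤ Nat.card H := by
    intro x hx
    by_contra h
    exact hcon ⟨x, hx, not_le.1 h⟩
  generalize hc : Nat.card (Subgroup.centralizer ({t} : Set H)) = c at *
  have hn : Nat.card H = (Finset.univ : Finset H).card := by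
    rw [Nat.card_eq_fintype_card, Finset.card_univ]
  generalize hm : (Finset.univ.filter fun u : H => u ≠ 1 ∧ u * u = 1).card = m
  -- the class of `t`
  have h1 : Nat.card H ≤ c * m := by
    rw [hn, ← hm]
    refine Finset.card_le_mul_card_image_of_maps_to (f := fun g : H => g * t * g⁻¹) ?_ c ?_
    · intro g _
      refine Finset.mem_filter.2 ⟨Finset.mem_univ _, ?_, ?_⟩
      · intro h
        apply ht
        have h2 : g * t = g := by
          have := congrArg (· * g) h
          simpa using this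
        exact mul_eq_left.1 h2
      · calc g * t * g⁻¹ * (g * t * g⁻¹) = g * (t * t) * g⁻¹ := by group
          _ = 1 := by rw [ht2]; group
    · intro b _
      rw [← hc]
      apply bf_card_le
      intro g hg g' hg'
      have e1 : g * t * g⁻¹ = b := (Finset.mem_filter.1 hg).2
      have e2 : g' * t * g'⁻¹ = b := (Finset.mem_filter.1 hg').2
      rw [bf_mem]
      have e3 : g * t * g⁻¹ = g' * t * g'⁻¹ := e1.trans e2.symm
      calc t * (g⁻¹ * g') = g⁻¹ * (g * t * g⁻¹) * g' := by group
        _ = g⁻¹ * (g' * t * g'⁻¹) * g' := by rw [e3]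
        _ = g⁻¹ * g' * t := by group
  -- pairs of involutions
  let I : Finset H := Finset.univ.filter fun u : H => u ≠ 1 ∧ u * u = 1
  have hI : I.card = m := hm
  have h2 : m * m = ∑ x : H, ((I ×ˢ I).filter fun p : H × H => p.1 * p.2 = x).card := by
    rw [← hI, ← Finset.card_product]
    exact Finset.card_eq_sum_card_fiberwise (fun _ _ => Finset.mem_univ _)
  have h3 : ((I ×ˢ I).filter fun p : H × H => p.1 * p.2 = 1).card ≤ m := by
    rw [← hI]
    refine Finset.card_le_card_of_injOn (fun p => p.1) ?_ ?_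
    · intro p hp
      have := (Finset.mem_filter.1 hp).1
      exact (Finset.mem_product.1 this).1
    · intro p hp q hq h
      have e1 : p.1 * p.2 = 1 := (Finset.mem_filter.1 hp).2
      have e2 : q.1 * q.2 = 1 := (Finset.mem_filter.1 hq).2
      have e3 : p.1 = q.1 := h
      refine Prod.ext e3 ?_
      rw [← e3] at e2
      exact mul_left_cancel (e1.trans e2.symm)
  have h4 : ∀ x : H, ((I ×ˢ I).filter fun p : H × H => p.1 * p.2 = x).card ≤
      Nat.card (Subgroup.centralizer ({x} : Set H)) := by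
    intro x
    have e0 : ((I ×ˢ I).filter fun p : H × H => p.1 * p.2 = x).card =
        (((I ×ˢ I).filter fun p : H × H => p.1 * p.2 = x).image fun p => p.1).card := by
      symm
      apply Finset.card_image_of_injOn
      intro p hp q hq h
      have e1 : p.1 * p.2 = x := (Finset.mem_filter.1 hp).2
      have e2 : q.1 * q.2 = x := (Finset.mem_filter.1 hq).2
      have e3 : p.1 = q.1 := h
      refine Prod.ext e3 ?_
      rw [← e3] at e2
      exact mul_left_cancel (e1.trans e2.symm)
    rw [e0]
    apply bf_card_le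
    have hu : ∀ u ∈ ((I ×ˢ I).filter fun p : H × H => p.1 * p.2 = x).image fun p => p.1,
        u * x * u⁻¹ = x⁻¹ := by
      intro u hu
      obtain ⟨p, hp, rfl⟩ := Finset.mem_image.1 hu
      have e1 : p.1 * p.2 = x := (Finset.mem_filter.1 hp).2
      have e2 := Finset.mem_product.1 (Finset.mem_filter.1 hp).1
      have e3 : p.1 * p.1 = 1 := (Finset.mem_filter.1 e2.1).2.2
      have e4 : p.2 * p.2 = 1 := (Finset.mem_filter.1 e2.2).2.2
      have e5 : p.1⁻¹ = p.1 := inv_eq_of_mul_eq_one_left e3
      have e6 : p.2⁻¹ = p.2 := inv_eq_of_mul_eq_one_left e4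
      rw [← e1, mul_inv_rev, e5, e6, ← mul_assoc, e3, one_mul]
    intro a ha b hb
    rw [bf_mem]
    have ea := hu a ha
    have eb := hu b hb
    have e3 : a * x * a⁻¹ = b * x * b⁻¹ := ea.trans eb.symm
    calc x * (a⁻¹ * b) = a⁻¹ * (a * x * a⁻¹) * b := by group
      _ = a⁻¹ * (b * x * b⁻¹) * b := by rw [e3]
      _ = a⁻¹ * b * x := by group
  have h5 : 2 * c ^ 2 * (m * m) ≤ 2 * c ^ 2 * m + (Nat.card H - 1) * Nat.card H := by
    rw [h2, ← Finset.add_sum_erase _ _ (Finset.mem_univ (1 : H)), mul_add]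
    refine add_le_add (Nat.mul_le_mul_left _ h3) ?_
    rw [Finset.mul_sum]
    have e1 : (Nat.card H - 1) = (Finset.univ.erase (1 : H)).card := by
      rw [Finset.card_erase_of_mem (Finset.mem_univ _), hn]
    rw [e1, ← smul_eq_mul (a := (Finset.univ.erase (1 : H)).card)]
    apply Finset.sum_le_card_nsmul
    intro x hx
    have hx1 : x ≠ 1 := (Finset.mem_erase.1 hx).1
    exact (Nat.mul_le_mul_left _ (h4 x)).trans (hcon' x hx1)
  have h6 : m ≤ Nat.card H := by
    rw [← hm, hn]
    exact Finset.card_filter_le _ _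
  have hpos : 0 < Nat.card H := Nat.card_pos
  generalize Nat.card H = n at *
  obtain ⟨k, rfl⟩ : ∃ k, n = k + 1 := ⟨n - 1, by omega⟩
  have h7 : (k + 1) * (k + 1) ≤ (c * m) * (c * m) := Nat.mul_le_mul h1 h1
  have h8 : k + 1 - 1 = k := by omega
  rw [h8] at h5
  have h9 : 2 * c ^ 2 * m ≤ 2 * c ^ 2 * (k + 1) := Nat.mul_le_mul_left _ h6
  nlinarith

end Pool.Agent.SHAI
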