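import Mathlib
import Pool.Agent.SHAI.EADefs
import Pool.Agent.SHAI.Loc
import Pool.Agent.SHAI.BF

set_option autoImplicit false

/-!
Locally finite groups with an involution with finite centraliser (module ULT).
-/

namespace Pool.Agent.SHAI

open Pool.Agent.SHA

/-- the subgroup generated by `t` and the finite set `A` -/
def ult_H {S : Type} [Group S] (t : S) (A : Finset S) : Subgroup S :=
  Subgroup.closure (insert t (A : Set S))

lemma ult_mem {S : Type} [Group S] (t : S) {A : Finset S} {g : S} (h : g ∈ A) : g ∈ ult_H t A :=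
  Subgroup.subset_closure (Set.mem_insert_of_mem _ h)

lemma ult_t_mem {S : Type} [Group S] (t : S) (A : Finset S) : t ∈ ult_H t A :=
  Subgroup.subset_closure (Set.mem_insert _ _)

lemma ult_fg {S : Type} [Group S] (t : S) (A : Finset S) : (ult_H t A).FG := by
  classical
  refine ⟨insert t A, ?_⟩
  rw [Finset.coe_insert]
  rfl

/-- among `n` elements of a finite group two are in the same coset of a subgroup of index less
than `n` -/
lemma ult_pigeon {H : Type} [Group H] [Finite H] (C : Subgroup H) {n : ℕ}
    (hn : Nat.card H < n * Nat.card C) (g : Fin n → H) : ∃ i j, i ≠ j ∧ (g i)⁻¹ * g j ∈ C := by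
  have h1 : C.index < n := by
    have h2 := C.card_mul_index
    have h3 : 0 < Nat.card C := Nat.card_pos
    by_contra h
    push Not at h
    have h4 : n * Nat.card C ≤ Nat.card C * C.index := by
      rw [mul_comm]
      exact Nat.mul_le_mul_left _ h
    omega
  have h2 : Nat.card (H ⧸ C) < Nat.card (Fin n) := by
    rw [Nat.card_fin]
    exact h1
  by_contra hcon
  push Not at hcon
  have hinj : Function.Injective (fun i => (QuotientGroup.mk (g i) : H ⧸ C)) := by
    intro i j hij
    by_contra hne
    exact hcon i j hne (QuotientGroup.eq.mp hij)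
  have h3 := Nat.card_le_card_of_injective _ hinj
  omega

/-- the elements `x_A` -/
lemma ult_exists {S : Type} [Group S] (hlf : LocFin S) (t : S)
    (ht : t ≠ 1) (ht2 : t * t = 1) (hC : Finite (Subgroup.centralizer ({t} : Set S)))
    {n : ℕ} (hn : n = 2 * Nat.card (Subgroup.centralizer ({t} : Set S)) ^ 2) (A : Finset S)
    (hA : n < A.card) :
    ∃ x : S, x ≠ 1 ∧ ∀ g : Fin n → S, (∀ i, g i ∈ A) → ∃ i j, i ≠ j ∧ Commute ((g i)⁻¹ * g j) x := by
  have hfin : Finite (ult_H t A) := hlf _ (ult_fg t A)
  have hcard : n < Nat.card (ult_H t A) := by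
    refine lt_of_lt_of_le hA ?_
    have h1 : Function.Injective (fun a : A => (⟨a.1, ult_mem t a.2⟩ : ult_H t A)) := by
      intro a b hab
      exact Subtype.ext (congrArg (fun z : ult_H t A => (z : S)) hab)
    have h2 := Nat.card_le_card_of_injective _ h1
    rw [Nat.card_eq_fintype_card, Fintype.card_coe] at h2
    exact h2
  let t' : ult_H t A := ⟨t, ult_t_mem t A⟩
  have hcc : Nat.card (Subgroup.centralizer ({t'} : Set (ult_H t A))) ≤
      Nat.card (Subgroup.centralizer ({t} : Set S)) := by
    have h1 : ∀ z : Subgroup.centralizer ({t'} : Set (ult_H t A)),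
        ((z : ult_H t A) : S) ∈ Subgroup.centralizer ({t} : Set S) := by
      intro z
      have h2 := Subgroup.mem_centralizer_singleton_iff.mp z.2
      rw [Subgroup.mem_centralizer_singleton_iff]
      exact congrArg (fun w : ult_H t A => (w : S)) h2
    refine Nat.card_le_card_of_injective (fun z => (⟨_, h1 z⟩ : Subgroup.centralizer ({t} : Set S))) ?_
    intro a b hab
    exact Subtype.ext (Subtype.ext (congrArg (fun w : Subgroup.centralizer ({t} : Set S) => (w : S)) hab))
  have hle : 2 * Nat.card (Subgroup.centralizer ({t'} : Set (ult_H t A))) ^ 2 ≤ n := by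
    rw [hn]
    exact Nat.mul_le_mul_left _ (Nat.pow_le_pow_left hcc 2)
  obtain ⟨x, hx1, hx⟩ := brauer_fowler t' (fun h => ht (congrArg (fun w : ult_H t A => (w : S)) h))
    (Subtype.ext ht2) (lt_of_le_of_lt hle hcard)
  have hx' : Nat.card (ult_H t A) < n * Nat.card (Subgroup.centralizer ({x} : Set (ult_H t A))) :=
    lt_of_lt_of_le hx (Nat.mul_le_mul_right _ hle)
  refine ⟨x, fun h => hx1 (Subtype.ext h), ?_⟩
  intro g hg
  obtain ⟨i, j, hij, hm⟩ := ult_pigeon _ hx' (fun i => (⟨g i, ult_mem t (hg i)⟩ : ult_H t A))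
  refine ⟨i, j, hij, ?_⟩
  have h2 := Subgroup.mem_centralizer_singleton_iff.mp hm
  exact congrArg (fun w : ult_H t A => (w : S)) h2

theorem infinite_centralizer {S : Type} [Group S] (hinf : Infinite S) (hlf : LocFin S) (t : S)
    (ht : t ≠ 1) (ht2 : t * t = 1) (hC : Finite (Subgroup.centralizer ({t} : Set S))) :
    ∃ x : S, x ≠ 1 ∧ Infinite (Subgroup.centralizer ({x} : Set S)) := by
  classical
  obtain ⟨n, hn⟩ : ∃ n, n = 2 * Nat.card (Subgroup.centralizer ({t} : Set S)) ^ 2 := ⟨_, rfl⟩
  have hex : ∀ A : Finset S, ∃ x : S, n < A.card → x ≠ 1 ∧ ∀ g : Fin n → S, (∀ i, g i ∈ A) →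
      ∃ i j, i ≠ j ∧ Commute ((g i)⁻¹ * g j) x := by
    intro A
    by_cases hA : n < A.card
    · obtain ⟨x, hx⟩ := ult_exists hlf t ht ht2 hC hn A hA
      exact ⟨x, fun _ => hx⟩
    · exact ⟨1, fun h => absurd h hA⟩
  choose x hx using hex
  let F : Ultrafilter (Finset S) := Ultrafilter.of Filter.atTop
  have hF : (F : Filter (Finset S)) ≤ Filter.atTop := Ultrafilter.of_le _
  have hcard : ∀ᶠ A in (F : Filter (Finset S)), n < A.card := by
    obtain ⟨A₀, hA₀⟩ := Infinite.exists_subset_card_eq S (n + 1)
    refine hF ?_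
    rw [Filter.mem_atTop_sets]
    refine ⟨A₀, fun A hA => ?_⟩
    have := Finset.card_le_card hA
    change n < A.card
    omega
  have hmem : ∀ s : S, ∀ᶠ A in (F : Filter (Finset S)), s ∈ A := by
    intro s
    refine hF ?_
    rw [Filter.mem_atTop_sets]
    exact ⟨{s}, fun A hA => hA (Finset.mem_singleton_self s)⟩
  let D : Subgroup S :=
    { carrier := {g | ∀ᶠ A in (F : Filter (Finset S)), Commute g (x A)}
      one_mem' := Filter.Eventually.of_forall fun A => Commute.one_left _
      mul_mem' := by
        intro a b ha hb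
        exact (ha.and hb).mono fun A h => h.1.mul_left h.2
      inv_mem' := by
        intro a ha
        exact ha.mono fun A h => h.inv_left }
  have hDmem : ∀ g, g ∈ D ↔ ∀ᶠ A in (F : Filter (Finset S)), Commute g (x A) := fun g => Iff.rfl
  -- the index of D is finite
  have hpig : ∀ g : Fin n → S, ∃ i j, i ≠ j ∧ (g i)⁻¹ * g j ∈ D := by
    intro g
    by_contra hcon
    push Not at hcon
    have h1 : ∀ᶠ A in (F : Filter (Finset S)), ∀ i j, i ≠ j → ¬ Commute ((g i)⁻¹ * g j) (x A) := by
      rw [Filter.eventually_all]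
      intro i
      rw [Filter.eventually_all]
      intro j
      by_cases hij : i = j
      · exact Filter.Eventually.of_forall fun A h => absurd hij h
      · have h2 : ∀ᶠ A in (F : Filter (Finset S)), ¬ Commute ((g i)⁻¹ * g j) (x A) :=
          Ultrafilter.eventually_not.mpr (hcon i j hij)
        exact h2.mono fun A h _ => h
    have h2 : ∀ᶠ A in (F : Filter (Finset S)), ∀ i, g i ∈ A := by
      rw [Filter.eventually_all]
      exact fun i => hmem (g i)
    obtain ⟨A, hA1, hA2, hA3⟩ := (h1.and (h2.and hcard)).exists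
    obtain ⟨i, j, hij, hc⟩ := (hx A hA3).2 g hA2
    exact hA1 i j hij hc
  have hfinq : Finite (S ⧸ D) := by
    by_contra hnf
    rw [not_finite_iff_infinite] at hnf
    let e : Fin n ↪ (S ⧸ D) := (Fin.valEmbedding).trans (Infinite.natEmbedding (S ⧸ D))
    obtain ⟨i, j, hij, hm⟩ := hpig (fun i => Quotient.out (e i))
    apply hij
    apply e.injective
    have h1 : (QuotientGroup.mk (Quotient.out (e i)) : S ⧸ D) = QuotientGroup.mk (Quotient.out (e j)) :=
      QuotientGroup.eq.mpr hm
    rw [QuotientGroup.out_eq', QuotientGroup.out_eq'] at h1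
    exact h1
  have hDinf : Infinite D := by
    rw [← not_finite_iff_infinite]
    intro hfin
    apply hinf.not_finite
    exact Finite.of_equiv _ (Subgroup.groupEquivQuotientProdSubgroup (s := D)).symm
  obtain ⟨d, hd⟩ := exists_ne (1 : D)
  have hd1 : (d : S) ≠ 1 := fun h => hd (Subtype.ext h)
  by_cases hdC : Finite (Subgroup.centralizer ({(d : S)} : Set S))
  · have h1 : ∀ᶠ A in (F : Filter (Finset S)), ∃ y ∈ ((Subgroup.centralizer ({(d : S)} : Set S) :
        Subgroup S) : Set S), x A = y := by
      have h2 : ∀ᶠ A in (F : Filter (Finset S)), Commute (d : S) (x A) := d.2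
      refine h2.mono fun A h => ⟨x A, ?_, rfl⟩
      rw [SetLike.mem_coe, Subgroup.mem_centralizer_singleton_iff]
      exact h.symm
    have hfs : ((Subgroup.centralizer ({(d : S)} : Set S) : Subgroup S) : Set S).Finite :=
      Set.toFinite _
    obtain ⟨y, hy, hyA⟩ := (Ultrafilter.eventually_exists_mem_iff hfs).mp h1
    refine ⟨y, ?_, ?_⟩
    · obtain ⟨A, hA1, hA2⟩ := (hyA.and hcard).exists
      rw [← hA1]
      exact (hx A hA2).1
    · have hle : D ≤ Subgroup.centralizer ({y} : Set S) := by
        intro g hg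
        obtain ⟨A, hA1, hA2⟩ := (hyA.and ((hDmem g).mp hg)).exists
        rw [Subgroup.mem_centralizer_singleton_iff, ← hA1]
        exact hA2
      exact Infinite.of_injective _ (Subgroup.inclusion_injective hle)
  · exact ⟨d, hd1, not_finite_iff_infinite.mp hdC⟩

end Pool.Agent.SHAI
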