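import Mathlib
import Pool.Agent.SHAI.EADefs
import Pool.Agent.SHAI.Loc
import Pool.Agent.SHAI.Ult
import Pool.Agent.SHAI.MaxA
import Pool.Agent.SHAI.LAa
import Pool.Agent.SHAI.LAb

set_option autoImplicit false

/-!
Locally finite and locally almost cyclic members are almost cyclic.
-/

namespace Pool.Agent.SHAI

open Pool.Agent.SHA

variable {K : (G : Type) → [Group G] → Prop}

lemma OddSol.sub {G H : Type} [Group G] [Group H] (h : OddSol G) (f : H →* G)
    (hf : Function.Injective f) : OddSol H := by
  intro L Q _ _ φ hφ hodd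
  let e := L.equivMapOfInjective f hf
  exact h (L.map f) Q (φ.comp e.symm.toMonoidHom) (hφ.comp e.symm.surjective) hodd

lemma OddSol.quo {G Q : Type} [Group G] [Group Q] (h : OddSol G) (f : G →* Q)
    (hf : Function.Surjective f) : OddSol Q := by
  intro L R _ _ φ hφ hodd
  refine h (L.comap f) R (φ.comp (f.subgroupComap L)) (hφ.comp ?_) hodd
  exact MonoidHom.subgroupComap_surjective_of_surjective f L hf

/-- images of finitely generated subgroups -/
lemma fg_map {G Q : Type} [Group G] [Group Q] (f : G →* Q) (L : Subgroup G) (hL : L.FG) :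
    (L.map f).FG := by
  classical
  obtain ⟨s, hs⟩ := hL
  refine ⟨s.image f, ?_⟩
  rw [Finset.coe_image, ← MonoidHom.map_closure, hs]

/-- lifting of a finitely generated subgroup -/
lemma fg_lift {G Q : Type} [Group G] [Group Q] (f : G →* Q) (hf : Function.Surjective f)
    (L : Subgroup Q) (hL : L.FG) : ∃ M : Subgroup G, M.FG ∧ M.map f = L := by
  classical
  obtain ⟨s, hs⟩ := hL
  choose g hg using hf
  refine ⟨Subgroup.closure (s.image g : Finset G), ⟨_, rfl⟩, ?_⟩
  rw [MonoidHom.map_closure, ← hs]
  congr 1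
  ext x
  simp only [Finset.coe_image, Set.mem_image, Finset.mem_coe, exists_exists_and_eq_and]
  constructor
  · rintro ⟨a, ha, rfl⟩
    rw [hg]
    exact ha
  · intro hx
    exact ⟨x, hx, hg x⟩

lemma LocFin.sub {G H : Type} [Group G] [Group H] (h : LocFin G) (f : H →* G)
    (hf : Function.Injective f) : LocFin H := by
  intro L hL
  have h1 : Finite (L.map f) := h _ (fg_map f L hL)
  exact Finite.of_equiv _ (L.equivMapOfInjective f hf).symm.toEquiv

lemma LocFin.quo {G Q : Type} [Group G] [Group Q] (h : LocFin G) (f : G →* Q)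
    (hf : Function.Surjective f) : LocFin Q := by
  intro L hL
  obtain ⟨M, hM, rfl⟩ := fg_lift f hf L hL
  haveI := h M hM
  exact Finite.of_surjective (f.subgroupMap M) (MonoidHom.subgroupMap_surjective f M)

lemma LocFin.tors {G : Type} [Group G] (h : LocFin G) : Tors G := by
  intro g
  have h1 : Finite (Subgroup.zpowers g) := h _ ⟨{g}, by
    rw [Finset.coe_singleton, ← Subgroup.zpowers_eq_closure]⟩
  obtain ⟨n, hn0, hn⟩ := isOfFinOrder_iff_pow_eq_one.mp
    (isOfFinOrder_of_finite (⟨g, Subgroup.mem_zpowers g⟩ : Subgroup.zpowers g))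
  exact ⟨n, by omega, congrArg Subtype.val hn⟩

lemma LocAC.sub {G H : Type} [Group G] [Group H] (h : LocAC G) (f : H →* G)
    (hf : Function.Injective f) : LocAC H := by
  intro L hL
  have h1 : AlmostCyclic (L.map f) := h _ (fg_map f L hL)
  exact h1.quo (L.equivMapOfInjective f hf).symm.toMonoidHom
    (L.equivMapOfInjective f hf).symm.surjective

lemma locSol_hyperLSF {G : Type} [Group G] (h : LocallySoluble G) : HyperLSF G := by
  intro Q _ f hf hQ
  refine ⟨⊤, inferInstance, top_ne_bot, Or.inr ?_⟩
  exact (h.of_surjective f hf).of_injective (⊤ : Subgroup Q).subtype (Subgroup.subtype_injective _)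

/-- a finite group without elements of order two has odd order -/
lemma odd_card {G : Type} [Group G] [Finite G] (h : ∀ t : G, t * t = 1 → t = 1) :
    Odd (Nat.card G) := by
  rw [← Nat.not_even_iff_odd]
  intro hev
  obtain ⟨t, ht⟩ := exists_prime_orderOf_dvd_card' 2 hev.two_dvd
  have h1 : t * t = 1 := by
    rw [← sq, ← ht]
    exact pow_orderOf_eq_one t
  rw [h t h1, orderOf_one] at ht
  omega

/-- locally finite members are finite -/
theorem locFin_finite (hK : SHAb K) {G : Type} [Group G] (hG : K G) (hlf : LocFin G)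
    (ho : OddSol G) : Finite G := by
  by_contra hnf
  rw [not_finite_iff_infinite] at hnf
  obtain ⟨H, S, _, f, hf, hS, hcent⟩ := exists_section hnf (fun A hA => by
    have h1 : AlmostCyclic A := hK.ab A (fun a b => Subtype.ext (hA a a.2 b b.2))
      (hK.sub' hG A)
    exact h1.finite_of_tors (hlf.tors.sub A))
  have hKS : K S := hK.quo _ _ f hf (hK.sub' hG H)
  have hlfS : LocFin S := (hlf.sub H.subtype H.subtype_injective).quo f hf
  have hoS : OddSol S := (ho.sub H.subtype H.subtype_injective).quo f hf
  have hinv : ∀ t : S, t * t = 1 → t = 1 := by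
    intro t ht
    by_contra ht1
    obtain ⟨x, hx1, hx⟩ := infinite_centralizer hS hlfS t ht1 ht (hcent t ht1)
    haveI := hcent x hx1
    exact not_finite (Subgroup.centralizer ({x} : Set S))
  have hls : LocallySoluble S := by
    intro L hL
    haveI := hlfS L hL
    refine hoS L L (MonoidHom.id L) Function.surjective_id (odd_card ?_)
    intro t ht
    exact Subtype.ext (hinv t (congrArg Subtype.val ht))
  have h1 : AlmostCyclic S := hK.almostCyclic_hyper hKS (locSol_hyperLSF hls)
  have h2 : Finite S := h1.finite_of_tors hlfS.tors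
  exact not_finite S

/-- locally almost cyclic members are almost cyclic -/
theorem locAC_almostCyclic (hK : SHAb K) {G : Type} [Group G] (hG : K G) (h : LocAC G)
    (ho : OddSol G) : AlmostCyclic G := by
  by_cases htor : Tors G
  · have hlf : LocFin G := fun H hH => (h H hH).finite_of_tors (htor.sub H)
    haveI := locFin_finite hK hG hlf ho
    exact AlmostCyclic.of_finite G
  · obtain ⟨t, ht⟩ : ∃ t : G, ∀ i : ℤ, t ^ i = 1 → i = 0 := by
      unfold Tors at htor
      push Not at htor
      obtain ⟨t, ht⟩ := htor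
      refine ⟨t, fun i hi => ?_⟩
      by_contra hi0
      have h1 : t ^ i.natAbs = 1 := by
        rcases Int.natAbs_eq i with h2 | h2
        · rw [h2, zpow_natCast] at hi
          exact hi
        · rw [h2, zpow_neg, zpow_natCast, inv_eq_one] at hi
          exact hi
      exact ht _ (Int.natAbs_ne_zero.mpr hi0) h1
    obtain ⟨C, hC, hfi, hcomm⟩ := locAC_exists_C h t ht
    obtain ⟨k, hk0, hk⟩ : ∃ k : ℕ, k ≠ 0 ∧ t ^ k ∈ C := by
      obtain ⟨k, hk0, -, hk⟩ := Subgroup.exists_pow_mem_of_index_ne_zero hfi.index_ne_zero t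
      exact ⟨k, by omega, hk⟩
    let s : C := ⟨t ^ k, hk⟩
    have hs : ∀ i : ℤ, s ^ i = 1 → i = 0 := by
      intro i hi
      have h1 : (t ^ k) ^ i = 1 := congrArg Subtype.val hi
      rw [← zpow_natCast, ← zpow_mul] at h1
      rcases mul_eq_zero.mp (ht _ h1) with h2 | h2
      · omega
      · exact h2
    have hsc : ∀ g : C, ∃ m : ℕ, m ≠ 0 ∧ g * s ^ m = s ^ m * g := by
      intro g
      obtain ⟨m, hm0, hm⟩ := hcomm g g.2
      refine ⟨m, hm0, Subtype.ext ?_⟩
      have h1 : Commute (g : G) (t ^ m) := hm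
      have h2 : Commute (g : G) ((t ^ m) ^ k) := h1.pow_right k
      rw [← pow_mul, mul_comm m k, pow_mul] at h2
      exact h2
    have hCac : LocAC C := h.sub C.subtype C.subtype_injective
    obtain ⟨T, hT, hTc⟩ := locAC_torsion hCac s hs hsc
    haveI : T.Normal := ⟨fun x hx g => by
      obtain ⟨n, hn0, hn⟩ := (hT x).mp hx
      exact (hT _).mpr ⟨n, hn0, by rw [conj_pow, hn, mul_one, mul_inv_cancel]⟩⟩
    have hKC : K C := hK.sub' hG C
    have hTfin : Finite T := by
      refine locFin_finite hK (hK.sub' hKC T) ?_ ?_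
      · intro L hL
        have h1 : AlmostCyclic L := (hCac.sub T.subtype T.subtype_injective) L hL
        refine h1.finite_of_tors fun x => ?_
        obtain ⟨n, hn0, hn⟩ := (hT x.1.1).mp x.1.2
        exact ⟨n, hn0, Subtype.ext (Subtype.ext hn)⟩
      · exact (ho.sub C.subtype C.subtype_injective).sub T.subtype T.subtype_injective
    have hQ : AlmostCyclic (C ⧸ T) := by
      refine hK.ab _ ?_ (hK.quo' hKC T)
      intro a b
      obtain ⟨a, rfl⟩ := QuotientGroup.mk_surjective a
      obtain ⟨b, rfl⟩ := QuotientGroup.mk_surjective b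
      rw [← QuotientGroup.mk_mul, ← QuotientGroup.mk_mul, eq_comm, QuotientGroup.eq]
      have h1 := hTc a⁻¹ b⁻¹
      simpa [mul_assoc] using h1
    exact AlmostCyclic.of_finiteIndex C (AlmostCyclic.of_quotient T hTfin hQ) hfi

end Pool.Agent.SHAI
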