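import Mathlib
import Pool.Agent.SHAI.LocFinite
import Pool.Agent.SHAI.HypEA
import Pool.Agent.SHAI.ListFin
import Pool.Agent.SHAN.Main

set_option autoImplicit false

/-!
Elementary amenable members are almost cyclic.
-/

namespace Pool.Agent.SHAI

open Pool.Agent.SHA Pool.Agent.SHAF

variable {K : (G : Type) → [Group G] → Prop}

/-- a finitely generated subgroup of the image of a directed union -/
lemma fg_in_image {A Q : Type} [Group A] [Group Q] (H : Subgroup A) (f : H →* Q)
    (hf : Function.Surjective f) {ι : Type} [Nonempty ι] (S : ι → Subgroup A)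
    (hS : Directed (· ≤ ·) S) (htop : (⨆ i, S i) = ⊤) (L : Subgroup Q) (hL : L.FG) :
    ∃ (i : ι), L ≤ (((S i).subgroupOf H).map f) := by
  classical
  obtain ⟨s, hs⟩ := hL
  choose g hg using hf
  have h1 : ∀ x : Q, ∃ i, (g x : A) ∈ S i := fun x => by
    have : (g x : A) ∈ ⨆ i, S i := by rw [htop]; exact Subgroup.mem_top _
    exact (Subgroup.mem_iSup_of_directed hS).mp this
  choose j hj using h1
  obtain ⟨i, hi⟩ := hS.finset_le (s.image j)
  refine ⟨i, ?_⟩
  rw [← hs, Subgroup.closure_le]
  intro x hx
  refine ⟨g x, ?_, hg x⟩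
  exact Subgroup.mem_subgroupOf.mpr (hi (j x) (Finset.mem_image_of_mem j hx) (hj x))

/-- the homomorphism of `H ∩ S`, as a subgroup of `S`, onto its image -/
lemma exists_secHom {A Q : Type} [Group A] [Group Q] (S H : Subgroup A) (f : H →* Q) :
    ∃ φ : H.subgroupOf S →* (S.subgroupOf H).map f, Function.Surjective φ := by
  have hcond : ∀ x : H.subgroupOf S, (⟨x.1.1, x.2⟩ : H) ∈ S.subgroupOf H := fun x => by
    rw [Subgroup.mem_subgroupOf]
    exact x.1.2
  refine ⟨{ toFun := fun x => ⟨f ⟨x.1.1, x.2⟩, Subgroup.mem_map_of_mem f (hcond x)⟩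
            map_one' := Subtype.ext (map_one f)
            map_mul' := fun x y => Subtype.ext ?_ }, ?_⟩
  · have := map_mul f ⟨x.1.1, x.2⟩ ⟨y.1.1, y.2⟩
    exact this
  · rintro ⟨_, y, hy, rfl⟩
    refine ⟨⟨⟨y.1, Subgroup.mem_subgroupOf.mp hy⟩, ?_⟩, ?_⟩
    · rw [Subgroup.mem_subgroupOf]
      exact y.2
    · rfl

/-- the section property -/
def SecP (P : (G : Type) → [Group G] → Prop) (G : Type) [Group G] : Prop :=
  ∀ (H : Subgroup G) (Q : Type) [Group Q] (f : H →* Q), Function.Surjective f → P Q

lemma secP_fin {P : (G : Type) → [Group G] → Prop} (h : ∀ (A : Type) [Group A], Finite A → P A)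
    (A : Type) [Group A] (hA : Finite A) : SecP P A := by
  intro H Q _ f hf
  exact h Q (Finite.of_surjective f hf)

lemma secP_ab {P : (G : Type) → [Group G] → Prop}
    (h : ∀ (A : Type) [Group A], (∀ a b : A, a * b = b * a) → P A)
    (A : Type) [Group A] (hA : ∀ a b : A, a * b = b * a) : SecP P A := by
  intro H Q _ f hf
  refine h Q fun a b => ?_
  obtain ⟨x, rfl⟩ := hf a
  obtain ⟨y, rfl⟩ := hf b
  rw [← map_mul, ← map_mul]
  congr 1
  exact Subtype.ext (hA x y)

lemma secP_sub {P : (G : Type) → [Group G] → Prop} (A B : Type) [Group A] [Group B] (f : B →* A)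
    (hf : Function.Injective f) (hA : SecP P A) : SecP P B := by
  intro H Q _ g hg
  let e := H.equivMapOfInjective f hf
  exact hA (H.map f) Q (g.comp e.symm.toMonoidHom) (hg.comp e.symm.surjective)

lemma secP_quo {P : (G : Type) → [Group G] → Prop} (A B : Type) [Group A] [Group B] (f : A →* B)
    (hf : Function.Surjective f) (hA : SecP P A) : SecP P B := by
  intro H Q _ g hg
  exact hA (H.comap f) Q (g.comp (f.subgroupComap H))
    (hg.comp (MonoidHom.subgroupComap_surjective_of_surjective f H hf))

/-- extensions -/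
lemma secP_ext {P : (G : Type) → [Group G] → Prop}
    (h : ∀ (A : Type) [Group A] (N : Subgroup A) [N.Normal], P N → P (A ⧸ N) → P A)
    (A : Type) [Group A] (N : Subgroup A) [N.Normal] (hN : SecP P N) (hQ : SecP P (A ⧸ N)) :
    SecP P A := by
  intro H Q _ f hf
  -- the image of `N ∩ H`
  let M : Subgroup Q := (N.subgroupOf H).map f
  haveI : M.Normal := Subgroup.Normal.map inferInstance f hf
  refine h Q M ?_ ?_
  · -- `M` is a section of `N`
    obtain ⟨φ, hφ⟩ := exists_secHom N H f
    exact hN (H.subgroupOf N) M φ hφ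
  · -- `Q / M` is a section of `A / N`
    let p : A →* A ⧸ N := QuotientGroup.mk' N
    let g : H →* Q ⧸ M := (QuotientGroup.mk' M).comp f
    have hg : Function.Surjective g := (QuotientGroup.mk'_surjective M).comp hf
    let q : H →* H.map p := p.subgroupMap H
    have hq : Function.Surjective q := MonoidHom.subgroupMap_surjective p H
    have hker : q.ker ≤ g.ker := by
      intro x hx
      have h1 : p x.1 = 1 := congrArg Subtype.val (MonoidHom.mem_ker.mp hx)
      have h2 : x.1 ∈ N := (QuotientGroup.eq_one_iff x.1).mp h1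
      rw [MonoidHom.mem_ker]
      exact (QuotientGroup.eq_one_iff _).mpr
        (Subgroup.mem_map_of_mem f (Subgroup.mem_subgroupOf.mpr h2))
    let e : H.map p →* Q ⧸ M := q.liftOfSurjective hq ⟨g, hker⟩
    have he : ∀ x, e (q x) = g x := fun x => q.liftOfRightInverse_comp_apply _ _ ⟨g, hker⟩ x
    refine hQ (H.map p) (Q ⧸ M) e ?_
    intro r
    obtain ⟨x, rfl⟩ := hg r
    exact ⟨q x, he x⟩

/-- the members of the class -/
theorem elemAmenable_almostCyclic (hK : SHAb K) {G : Type} [Group G] (hG : K G)
    (hEA : ElemAmenable G) (ho : OddSol G) : AlmostCyclic G := by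
  have key := hEA (SecP fun (Q : Type) [Group Q] => K Q → OddSol Q → AlmostCyclic Q)
    (secP_fin fun A _ hA _ _ => by
      haveI := hA
      exact AlmostCyclic.of_finite A)
    (secP_ab fun A _ hA hKA _ => hK.ab A hA hKA)
    (fun A B _ _ f hf h => secP_sub A B f hf h)
    (fun A B _ _ f hf h => secP_quo A B f hf h)
    (secP_ext fun A _ N _ hN hQ hKA hoA => by
      refine hK.ac_ext hKA (QuotientGroup.mk' N) (QuotientGroup.mk'_surjective N) ?_ ?_
      · rw [QuotientGroup.ker_mk']
        exact hN (hK.sub' hKA N) (hoA.sub N.subtype N.subtype_injective)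
      · exact hQ (hK.quo' hKA N) (hoA.quo (QuotientGroup.mk' N)
          (QuotientGroup.mk'_surjective N)))
    (by
      intro A _ ι _ S hS htop hX H Q _ f hf hKQ hoQ
      refine locAC_almostCyclic hK hKQ ?_ hoQ
      intro L hL
      obtain ⟨i, hi⟩ := fg_in_image H f hf S hS htop L hL
      obtain ⟨φ, hφ⟩ := exists_secHom (S i) H f
      have h1 : AlmostCyclic (((S i).subgroupOf H).map f) :=
        hX i (H.subgroupOf (S i)) _ φ hφ (hK.sub' hKQ _)
          (hoQ.sub _ (Subgroup.subtype_injective _))
      have h2 : AlmostCyclic (L.subgroupOf (((S i).subgroupOf H).map f)) := h1.sub _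
      exact h2.quo (Subgroup.subgroupOfEquivOfLe hi).toMonoidHom
        (Subgroup.subgroupOfEquivOfLe hi).surjective)
  exact key ⊤ G (⊤ : Subgroup G).subtype (fun g => ⟨⟨g, Subgroup.mem_top g⟩, rfl⟩) hG ho

/-- elementary amenable members of a class without the elementary abelian group of order 8 -/
theorem elemAmenable_finList (hK : SHAClosed K) (hE : ¬ K (E 3)) {G : Type} [Group G] (hG : K G)
    (hEA : ElemAmenable G) : FinList G := by
  have key := hEA (SecP fun (Q : Type) [Group Q] => K Q → Finite Q)
    (secP_fin fun A _ hA _ => hA)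
    (secP_ab fun A _ hA hKA => by
      let _ : CommGroup A := { (inferInstance : Group A) with mul_comm := hA }
      exact hyper_finite hK hE hKA (hyper_of_comm A))
    (fun A B _ _ f hf h => secP_sub A B f hf h)
    (fun A B _ _ f hf h => secP_quo A B f hf h)
    (secP_ext fun A _ N _ hN hQ hKA => by
      haveI := hN (hK.sub _ _ N.subtype N.subtype_injective hKA)
      haveI := hQ (hK.quo _ _ (QuotientGroup.mk' N) (QuotientGroup.mk'_surjective N) hKA)
      exact Finite.of_equiv _ (Subgroup.groupEquivQuotientProdSubgroup (s := N)).symm)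
    (by
      intro A _ ι _ S hS htop hX H Q _ f hf hKQ
      have hloc : ∀ L : Subgroup Q, L.FG → FinList L := by
        intro L hL
        obtain ⟨i, hi⟩ := fg_in_image H f hf S hS htop L hL
        obtain ⟨φ, hφ⟩ := exists_secHom (S i) H f
        have h1 : Finite (((S i).subgroupOf H).map f) :=
          hX i (H.subgroupOf (S i)) _ φ hφ (hK.sub _ _ _ (Subgroup.subtype_injective _) hKQ)
        haveI := h1
        haveI : Finite L := Finite.of_injective _ (Subgroup.inclusion_injective hi)
        exact finite_member hK hE _ L (hK.sub _ _ L.subtype L.subtype_injective hKQ) rfl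
      rcases locally_finList hloc with h | h
      · exact h
      · exact hyper_finite hK hE hKQ (locSol_hyperLSF h))
  haveI := key ⊤ G (⊤ : Subgroup G).subtype (fun g => ⟨⟨g, Subgroup.mem_top g⟩, rfl⟩) hG
  exact finite_member hK hE _ G hG rfl

end Pool.Agent.SHAI
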