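import Mathlib
import Pool.Agent.SHAI.Defs

set_option autoImplicit false

/-!
The automorphism group of an almost cyclic group is almost cyclic (module ACAUT).
-/

namespace Pool.Agent.SHAI

open Pool.Agent.SHA

namespace AcAutAux

variable {G : Type} [Group G]

/-- automorphisms fixing `n` and acting trivially modulo `P = zpowers n` -/
private def A0 (n : G) (_hP : (Subgroup.zpowers n).Characteristic) : Subgroup (MulAut G) where
  carrier := {α | α n = n ∧ ∀ g, g⁻¹ * α g ∈ Subgroup.zpowers n}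
  one_mem' := ⟨rfl, fun g => by simp⟩
  mul_mem' := by
    rintro α β ⟨ha, ha'⟩ ⟨hb, hb'⟩
    refine ⟨?_, fun g => ?_⟩
    · rw [MulAut.mul_apply, hb, ha]
    · rw [MulAut.mul_apply]
      have h1 := Subgroup.mul_mem _ (hb' g) (ha' (β g))
      have h2 : g⁻¹ * β g * ((β g)⁻¹ * α (β g)) = g⁻¹ * α (β g) := by group
      rwa [h2] at h1
  inv_mem' := by
    rintro α ⟨ha, ha'⟩
    have h0 : ∀ g, α (α⁻¹ g) = g := fun g => α.apply_symm_apply g
    refine ⟨?_, fun g => ?_⟩
    · apply α.injective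
      rw [h0, ha]
    · have h1 := ha' (α⁻¹ g)
      rw [h0] at h1
      have h2 := Subgroup.inv_mem _ h1
      have h3 : ((α⁻¹ g)⁻¹ * g)⁻¹ = g⁻¹ * α⁻¹ g := by group
      rwa [h3] at h2

private lemma zpow_fix (n : G) (α : MulAut G) (h : α n = n) (x : G)
    (hx : x ∈ Subgroup.zpowers n) : α x = x := by
  obtain ⟨k, rfl⟩ := Subgroup.mem_zpowers_iff.mp hx
  rw [map_zpow, h]

private lemma char_mem (n : G) (hP : (Subgroup.zpowers n).Characteristic) (α : MulAut G) (x : G)
    (hx : x ∈ Subgroup.zpowers n) : α x ∈ Subgroup.zpowers n := by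
  have h1 := Subgroup.characteristic_iff_map_le.mp hP α
  exact h1 (Subgroup.mem_map_of_mem _ hx)

private lemma zpow_inj (n : G) (hn : ∀ i : ℤ, n ^ i = 1 → i = 0) {i j : ℤ} (h : n ^ i = n ^ j) :
    i = j := by
  have h1 : n ^ (i - j) = 1 := by rw [zpow_sub, h, mul_inv_cancel]
  have := hn _ h1
  omega

private lemma image_gen (n : G) (hn : ∀ i : ℤ, n ^ i = 1 → i = 0)
    (hP : (Subgroup.zpowers n).Characteristic) (α : MulAut G) : α n = n ∨ α n = n⁻¹ := by
  obtain ⟨i, hi⟩ := Subgroup.mem_zpowers_iff.mp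
    (char_mem n hP α n (Subgroup.mem_zpowers n))
  obtain ⟨j, hj⟩ := Subgroup.mem_zpowers_iff.mp
    (char_mem n hP α⁻¹ n (Subgroup.mem_zpowers n))
  have h1 : α (α⁻¹ n) = n := α.apply_symm_apply n
  rw [← hj, map_zpow, ← hi, ← zpow_mul] at h1
  have h2 : i * j = 1 := zpow_inj n hn (by rw [h1, zpow_one])
  rcases Int.eq_one_or_neg_one_of_mul_eq_one h2 with h | h
  · left; rw [← hi, h, zpow_one]
  · right; rw [← hi, h, zpow_neg, zpow_one]

private lemma conj_gen (n : G) (hn : ∀ i : ℤ, n ^ i = 1 → i = 0)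
    (hP : (Subgroup.zpowers n).Characteristic) (a : G) :
    a * n = n * a ∨ a * n * a⁻¹ = n⁻¹ := by
  rcases image_gen n hn hP (MulAut.conj a) with h | h
  · left
    rw [MulAut.conj_apply] at h
    exact mul_inv_eq_iff_eq_mul.mp h
  · right
    rwa [MulAut.conj_apply] at h

private lemma fix_of_comm (n : G) (hn : ∀ i : ℤ, n ^ i = 1 → i = 0)
    (hfi : (Subgroup.zpowers n).FiniteIndex) (α : MulAut G) (h1 : α n = n)
    (h2 : ∀ g, g⁻¹ * α g ∈ Subgroup.zpowers n) (g : G) (hg : g * n = n * g) : α g = g := by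
  obtain ⟨m, hm0, -, hm⟩ := Subgroup.exists_pow_mem_of_index_ne_zero hfi.index_ne_zero g
  obtain ⟨k, hk⟩ := Subgroup.mem_zpowers_iff.mp (h2 g)
  have hag : α g = g * n ^ k := by rw [hk]; group
  have hcomm : Commute g (n ^ k) := (show Commute g n from hg).zpow_right k
  have h3 : α (g ^ m) = g ^ m := zpow_fix n α h1 _ hm
  rw [map_pow, hag, hcomm.mul_pow] at h3
  have h4 : (n ^ k) ^ m = 1 := mul_eq_left.mp h3
  rw [← zpow_natCast, ← zpow_mul] at h4
  have h5 := hn _ h4
  have h6 : k = 0 := by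
    rcases mul_eq_zero.mp h5 with h | h
    · exact h
    · exact absurd (by exact_mod_cast h : m = 0) (by omega)
  rw [hag, h6, zpow_zero, mul_one]

private lemma exists_a (n : G) (hn : ∀ i : ℤ, n ^ i = 1 → i = 0)
    (hP : (Subgroup.zpowers n).Characteristic) :
    ∃ a : G, ∀ g : G, g * n = n * g ∨ (a⁻¹ * g) * n = n * (a⁻¹ * g) := by
  by_cases h : ∀ g : G, g * n = n * g
  · exact ⟨1, fun g => Or.inl (h g)⟩
  · obtain ⟨a, ha⟩ := not_forall.mp h
    have ha' : a * n * a⁻¹ = n⁻¹ := (conj_gen n hn hP a).resolve_left ha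
    refine ⟨a, fun g => ?_⟩
    rcases conj_gen n hn hP g with hg | hg
    · exact Or.inl hg
    · right
      have h1 : a * n = n⁻¹ * a := mul_inv_eq_iff_eq_mul.mp ha'
      have h2 : g * n = n⁻¹ * g := mul_inv_eq_iff_eq_mul.mp hg
      have h3 : a⁻¹ * n⁻¹ = n * a⁻¹ := by
        have : a * n * a⁻¹ = n⁻¹ := ha'
        rw [← this]; group
      calc a⁻¹ * g * n = a⁻¹ * (g * n) := by group
        _ = a⁻¹ * n⁻¹ * g := by rw [h2]; group
        _ = n * (a⁻¹ * g) := by rw [h3]; group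

private lemma A0_cyclic (n : G) (hn : ∀ i : ℤ, n ^ i = 1 → i = 0)
    (hfi : (Subgroup.zpowers n).FiniteIndex)
    (hP : (Subgroup.zpowers n).Characteristic) : IsCyclic (A0 n hP) := by
  obtain ⟨a, ha⟩ := exists_a n hn hP
  let φ : A0 n hP →* Subgroup.zpowers n :=
    { toFun := fun α => ⟨a⁻¹ * α.1 a, α.2.2 a⟩
      map_one' := by
        apply Subtype.ext
        show a⁻¹ * (1 : MulAut G) a = 1
        simp
      map_mul' := by
        intro α β
        apply Subtype.ext
        show a⁻¹ * α.1 (β.1 a) = (a⁻¹ * α.1 a) * (a⁻¹ * β.1 a)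
        have h1 : β.1 a = a * (a⁻¹ * β.1 a) := by group
        have h2 : α.1 (a⁻¹ * β.1 a) = a⁻¹ * β.1 a := zpow_fix n α.1 α.2.1 _ (β.2.2 a)
        calc a⁻¹ * α.1 (β.1 a) = a⁻¹ * α.1 (a * (a⁻¹ * β.1 a)) := by rw [← h1]
          _ = a⁻¹ * (α.1 a * α.1 (a⁻¹ * β.1 a)) := by rw [map_mul]
          _ = (a⁻¹ * α.1 a) * (a⁻¹ * β.1 a) := by rw [h2]; group }
  refine isCyclic_of_injective φ ?_
  intro α β h
  have h0 : a⁻¹ * α.1 a = a⁻¹ * β.1 a := congrArg Subtype.val h
  have h1 : α.1 a = β.1 a := mul_left_cancel h0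
  apply Subtype.ext
  refine MulEquiv.ext fun g => ?_
  have hfixa := fix_of_comm n hn hfi α.1 α.2.1 α.2.2
  have hfixb := fix_of_comm n hn hfi β.1 β.2.1 β.2.2
  rcases ha g with hg | hg
  · rw [hfixa g hg, hfixb g hg]
  · have h2 : a * (a⁻¹ * g) = g := by group
    calc α.1 g = α.1 (a * (a⁻¹ * g)) := by rw [h2]
      _ = α.1 a * α.1 (a⁻¹ * g) := map_mul _ _ _
      _ = β.1 a * β.1 (a⁻¹ * g) := by rw [hfixa _ hg, hfixb _ hg, h1]
      _ = β.1 (a * (a⁻¹ * g)) := (map_mul _ _ _).symm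
      _ = β.1 g := by rw [h2]

private lemma A0_fi (n : G) (hn : ∀ i : ℤ, n ^ i = 1 → i = 0)
    (hfi : (Subgroup.zpowers n).FiniteIndex)
    (hP : (Subgroup.zpowers n).Characteristic) : (A0 n hP).FiniteIndex := by
  have hfq : Finite (G ⧸ Subgroup.zpowers n) := Subgroup.finite_quotient_of_finiteIndex
  have hfs : Finite {x : G // x = n ∨ x = n⁻¹} := by
    have h1 : {x : G | x = n ∨ x = n⁻¹}.Finite := by
      have : {x : G | x = n ∨ x = n⁻¹} = {n, n⁻¹} := by ext x; simp
      rw [this]; exact Set.toFinite _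
    exact h1
  let Φ : MulAut G → ((G ⧸ Subgroup.zpowers n) → (G ⧸ Subgroup.zpowers n)) ×
      {x : G // x = n ∨ x = n⁻¹} :=
    fun α => (fun q => ((α q.out : G) : G ⧸ Subgroup.zpowers n), ⟨α n, image_gen n hn hP α⟩)
  have key : ∀ α β : MulAut G, Φ α = Φ β → α⁻¹ * β ∈ A0 n hP := by
    intro α β h
    have h1 : α n = β n := congrArg (fun z => z.2.1) h
    have h2 : ∀ q : G ⧸ Subgroup.zpowers n,
        ((α q.out : G) : G ⧸ Subgroup.zpowers n) = ((β q.out : G) : G ⧸ Subgroup.zpowers n) :=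
      fun q => congrFun (congrArg Prod.fst h) q
    have h3 : ∀ g : G, (α g)⁻¹ * β g ∈ Subgroup.zpowers n := by
      intro g
      have hq : ((g : G ⧸ Subgroup.zpowers n)).out⁻¹ * g ∈ Subgroup.zpowers n := by
        rw [← QuotientGroup.eq]
        exact QuotientGroup.out_eq' _
      set o := ((g : G ⧸ Subgroup.zpowers n)).out with ho
      have h4 : (α o)⁻¹ * β o ∈ Subgroup.zpowers n := QuotientGroup.eq.mp (h2 _)
      have h5 : α (o⁻¹ * g) ∈ Subgroup.zpowers n := char_mem n hP α _ hq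
      have h6 : β (o⁻¹ * g) ∈ Subgroup.zpowers n := char_mem n hP β _ hq
      have h7 : (α g)⁻¹ * β g = (α (o⁻¹ * g))⁻¹ * ((α o)⁻¹ * β o) * β (o⁻¹ * g) := by
        rw [map_mul, map_mul, map_inv, map_inv]; group
      rw [h7]
      exact Subgroup.mul_mem _ (Subgroup.mul_mem _ (Subgroup.inv_mem _ h5) h4) h6
    have h0 : ∀ g, α⁻¹ (α g) = g := fun g => α.symm_apply_apply g
    refine ⟨?_, fun g => ?_⟩
    · rw [MulAut.mul_apply, ← h1, h0]
    · rw [MulAut.mul_apply]
      have h8 := char_mem n hP α⁻¹ _ (h3 g)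
      rw [map_mul, map_inv, h0] at h8
      exact h8
  have hfin : Finite (MulAut G ⧸ A0 n hP) := by
    refine Finite.of_injective (fun q : MulAut G ⧸ A0 n hP => Φ q.out) ?_
    intro q q' h
    have h1 := key _ _ h
    rw [← QuotientGroup.eq] at h1
    rwa [QuotientGroup.out_eq', QuotientGroup.out_eq'] at h1
  exact Subgroup.finiteIndex_of_finite_quotient

end AcAutAux

open AcAutAux in
theorem almostCyclic_mulAut {G : Type} [Group G] (h : AlmostCyclic G) :
    AlmostCyclic (MulAut G) := by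
  rcases finite_or_infinite G with hfin | hinf
  · have : Finite (MulAut G) := by
      refine Finite.of_injective (fun α : MulAut G => (α : G → G)) ?_
      intro α β hab
      exact MulEquiv.ext fun g => congrFun hab g
    exact AlmostCyclic.of_finite _
  · obtain ⟨P, hPc, hcyc, hPinf⟩ := h.exists_char hinf
    obtain ⟨⟨n, hnP⟩, hgen⟩ := hcyc.exists_generator
    have hPn : P = Subgroup.zpowers n := by
      apply le_antisymm
      · intro x hx
        obtain ⟨k, hk⟩ := Subgroup.mem_zpowers_iff.mp (hgen ⟨x, hx⟩)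
        exact Subgroup.mem_zpowers_iff.mpr ⟨k, congrArg Subtype.val hk⟩
      · rw [Subgroup.zpowers_le]
        exact hnP
    subst hPn
    have hn : ∀ i : ℤ, n ^ i = 1 → i = 0 := by
      intro i hi
      by_contra hne
      have hfo : IsOfFinOrder n := isOfFinOrder_iff_zpow_eq_one.mpr ⟨i, hne, hi⟩
      have h2 : (Subgroup.zpowers n : Set G).Finite := hfo.finite_zpowers
      have h3 : Finite (Subgroup.zpowers n) := h2
      exact not_finite (Subgroup.zpowers n)
    have hfi : (Subgroup.zpowers n).FiniteIndex := by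
      refine h.zpowers_fi n fun m hm h1 => hm ?_
      have := hn (m : ℤ) (by rw [zpow_natCast]; exact h1)
      exact_mod_cast this
    exact ⟨A0 n hPc, A0_cyclic n hn hfi hPc, A0_fi n hn hfi hPc⟩

end Pool.Agent.SHAI
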