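import Mathlib
import Pool.Agent.SHAI.Defs

set_option autoImplicit false

/-!
The automorphism group of the infinite dihedral group (module AUTD).
-/

namespace Pool.Agent.SHAI

open Pool.Agent.SHA

/-- the automorphism fixing the rotations and shifting the reflections -/
def autd_tau (k : ZMod 0) : MulAut (DihedralGroup 0) where
  toFun x := match x with
    | DihedralGroup.r i => DihedralGroup.r i
    | DihedralGroup.sr i => DihedralGroup.sr (i + k)
  invFun x := match x with
    | DihedralGroup.r i => DihedralGroup.r i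
    | DihedralGroup.sr i => DihedralGroup.sr (i - k)
  left_inv := by
    rintro (i | i)
    · rfl
    · show DihedralGroup.sr (i + k - k) = DihedralGroup.sr i
      rw [add_sub_cancel_right]
  right_inv := by
    rintro (i | i)
    · rfl
    · show DihedralGroup.sr (i - k + k) = DihedralGroup.sr i
      rw [sub_add_cancel]
  map_mul' := by
    rintro (i | i) (j | j)
    · rfl
    · show DihedralGroup.sr (j - i + k) = DihedralGroup.r i * DihedralGroup.sr (j + k)
      rw [DihedralGroup.r_mul_sr]
      congr 1
      ring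
    · show DihedralGroup.sr (i + j + k) = DihedralGroup.sr (i + k) * DihedralGroup.r j
      rw [DihedralGroup.sr_mul_r]
      congr 1
      ring
    · show DihedralGroup.r (j - i) = DihedralGroup.sr (i + k) * DihedralGroup.sr (j + k)
      rw [DihedralGroup.sr_mul_sr]
      congr 1
      ring

theorem autd_tau_r (k i : ZMod 0) : autd_tau k (DihedralGroup.r i) = DihedralGroup.r i := rfl

theorem autd_tau_sr (k i : ZMod 0) : autd_tau k (DihedralGroup.sr i) = DihedralGroup.sr (i + k) :=
  rfl

theorem autd_tau_mul (k l : ZMod 0) : autd_tau k * autd_tau l = autd_tau (l + k) := by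
  apply MulEquiv.ext
  rintro (i | i)
  · rfl
  · show DihedralGroup.sr (i + l + k) = DihedralGroup.sr (i + (l + k))
    rw [add_assoc]

/-- conjugation by a reflection -/
def autd_sig : MulAut (DihedralGroup 0) := MulAut.conj (DihedralGroup.sr 0)

theorem autd_sig_r (i : ZMod 0) : autd_sig (DihedralGroup.r i) = DihedralGroup.r (-i) := by
  rw [autd_sig, MulAut.conj_apply, DihedralGroup.inv_sr, DihedralGroup.sr_mul_r,
    DihedralGroup.sr_mul_sr]
  congr 1
  ring

theorem autd_sig_sr (i : ZMod 0) : autd_sig (DihedralGroup.sr i) = DihedralGroup.sr (-i) := by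
  rw [autd_sig, MulAut.conj_apply, DihedralGroup.inv_sr, DihedralGroup.sr_mul_sr,
    DihedralGroup.r_mul_sr]
  congr 1
  ring

theorem autd_sig_sig : autd_sig * autd_sig = 1 := by
  apply MulEquiv.ext
  rintro (i | i)
  · show autd_sig (autd_sig (DihedralGroup.r i)) = DihedralGroup.r i
    rw [autd_sig_r, autd_sig_r, neg_neg]
  · show autd_sig (autd_sig (DihedralGroup.sr i)) = DihedralGroup.sr i
    rw [autd_sig_sr, autd_sig_sr, neg_neg]

theorem autd_zpow (k : ℤ) : (autd_tau 1) ^ k = autd_tau (Int.cast k) := by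
  induction k using Int.induction_on with
  | zero =>
    apply MulEquiv.ext
    rintro (i | i)
    · rfl
    · rw [autd_tau_sr]
      show DihedralGroup.sr i = _
      congr 1
      rw [Int.cast_zero, add_zero]
  | succ n ih =>
    rw [zpow_add_one, ih, autd_tau_mul]
    congr 1
    push_cast
    ring
  | pred n ih =>
    have h1 : (autd_tau 1)⁻¹ = autd_tau (-1) := by
      rw [inv_eq_iff_mul_eq_one, autd_tau_mul]
      apply MulEquiv.ext
      rintro (i | i)
      · rfl
      · rw [autd_tau_sr]
        show _ = DihedralGroup.sr i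
        congr 1
        ring
    rw [zpow_sub_one, ih, h1, autd_tau_mul]
    congr 1
    push_cast
    ring

theorem autd_conj : autd_sig * autd_tau 1 * autd_sig⁻¹ = (autd_tau 1)⁻¹ := by
  have h0 : autd_sig⁻¹ = autd_sig := inv_eq_of_mul_eq_one_left autd_sig_sig
  rw [h0, eq_inv_iff_mul_eq_one]
  apply MulEquiv.ext
  rintro (i | i)
  · show autd_sig (autd_tau 1 (autd_sig (autd_tau 1 (DihedralGroup.r i)))) = DihedralGroup.r i
    rw [autd_tau_r, autd_sig_r, autd_tau_r, autd_sig_r, neg_neg]
  · show autd_sig (autd_tau 1 (autd_sig (autd_tau 1 (DihedralGroup.sr i)))) = DihedralGroup.sr i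
    rw [autd_tau_sr, autd_sig_sr, autd_tau_sr, autd_sig_sr]
    congr 1
    ring

theorem autd_sr_sq (α : MulAut (DihedralGroup 0)) (i : ZMod 0) :
    α (DihedralGroup.sr i) * α (DihedralGroup.sr i) = 1 := by
  rw [← map_mul, DihedralGroup.sr_mul_self, map_one]

theorem autd_r_one (α : MulAut (DihedralGroup 0)) :
    ∃ e : ZMod 0, α (DihedralGroup.r 1) = DihedralGroup.r e := by
  rcases h : α (DihedralGroup.r 1) with e | e
  · exact ⟨e, rfl⟩
  · exfalso
    have h1 : α (DihedralGroup.r 1 * DihedralGroup.r 1) = 1 := by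
      rw [map_mul, h, DihedralGroup.sr_mul_self]
    have h2 : DihedralGroup.r 1 * DihedralGroup.r 1 = (1 : DihedralGroup 0) := by
      apply α.injective
      rw [h1, map_one]
    rw [DihedralGroup.r_mul_r, DihedralGroup.one_def] at h2
    have h3 : (1 + 1 : ZMod 0) = 0 := by
      injection h2
    have h4 : ((1 : ℤ) + 1) = 0 := h3
    omega

theorem autd_r (α : MulAut (DihedralGroup 0)) {e : ZMod 0}
    (h : α (DihedralGroup.r 1) = DihedralGroup.r e) (i : ZMod 0) :
    α (DihedralGroup.r i) = DihedralGroup.r (e * i) := by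
  have h1 : (DihedralGroup.r i : DihedralGroup 0) = DihedralGroup.r 1 ^ (show ℤ from i) := by
    rw [DihedralGroup.r_one_zpow]
    rfl
  rw [h1, map_zpow, h, DihedralGroup.r_zpow]
  rfl

theorem autd_sr (α : MulAut (DihedralGroup 0)) :
    ∃ k : ZMod 0, α (DihedralGroup.sr 0) = DihedralGroup.sr k := by
  rcases h : α (DihedralGroup.sr 0) with k | k
  · exfalso
    have h1 := autd_sr_sq α 0
    rw [h, DihedralGroup.r_mul_r, DihedralGroup.one_def] at h1
    have h3 : (k + k : ZMod 0) = 0 := by
      injection h1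
    have h4 : (show ℤ from k) + (show ℤ from k) = 0 := h3
    have h5 : (show ℤ from k) = 0 := by omega
    have h6 : α (DihedralGroup.sr 0) = 1 := by
      rw [h, DihedralGroup.one_def]
      exact congrArg DihedralGroup.r h5
    have h7 : (DihedralGroup.sr 0 : DihedralGroup 0) = 1 := by
      apply α.injective
      rw [h6, map_one]
    rw [DihedralGroup.one_def] at h7
    cases h7
  · exact ⟨k, rfl⟩

theorem autd_surj (α : MulAut (DihedralGroup 0)) :
    (∃ i : ℤ, α = (autd_tau 1) ^ i) ∨ ∃ i : ℤ, α = autd_sig * (autd_tau 1) ^ i := by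
  obtain ⟨e, he⟩ := autd_r_one α
  obtain ⟨e', he'⟩ := autd_r_one α⁻¹
  obtain ⟨k, hk⟩ := autd_sr α
  have h1 : α (DihedralGroup.r e') = DihedralGroup.r 1 := by
    rw [← he']
    show α (α.symm _) = _
    exact α.apply_symm_apply _
  rw [autd_r α he] at h1
  have h2 : e * e' = (1 : ZMod 0) := by
    injection h1
  have h3 : (show ℤ from e) * (show ℤ from e') = 1 := h2
  have hsr : ∀ i : ZMod 0, α (DihedralGroup.sr i) = DihedralGroup.sr (k + e * i) := by
    intro i
    have h4 : (DihedralGroup.sr i : DihedralGroup 0) = DihedralGroup.sr 0 * DihedralGroup.r i := by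
      rw [DihedralGroup.sr_mul_r, zero_add]
    rw [h4, map_mul, hk, autd_r α he, DihedralGroup.sr_mul_r]
  rcases Int.eq_one_or_neg_one_of_mul_eq_one h3 with h | h
  · left
    refine ⟨(show ℤ from k), ?_⟩
    have he1 : e = 1 := h
    rw [autd_zpow]
    apply MulEquiv.ext
    rintro (i | i)
    · rw [autd_r α he, he1, one_mul]
      rfl
    · rw [hsr, he1, one_mul, autd_tau_sr, add_comm]
      rfl
  · right
    refine ⟨-(show ℤ from k), ?_⟩
    have he1 : e = -1 := h
    rw [autd_zpow]
    apply MulEquiv.ext
    rintro (i | i)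
    · rw [autd_r α he, he1]
      show _ = autd_sig (DihedralGroup.r i)
      rw [autd_sig_r]
      congr 1
      ring
    · rw [hsr, he1]
      show _ = autd_sig (autd_tau _ (DihedralGroup.sr i))
      have h5 : (Int.cast (-(show ℤ from k)) : ZMod 0) = -k := rfl
      rw [h5, autd_tau_sr, autd_sig_sr]
      congr 1
      ring

theorem mulAut_dih : Nonempty (DihedralGroup 0 ≃* MulAut (DihedralGroup 0)) := by
  refine ⟨MulEquiv.ofBijective (dihHom (autd_tau 1) autd_sig autd_sig_sig autd_conj) ⟨?_, ?_⟩⟩
  · apply dihHom_injective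
    intro i hi
    rw [autd_zpow] at hi
    have h1 := congrArg (fun f : MulAut (DihedralGroup 0) => f (DihedralGroup.sr 0)) hi
    have h2 : (DihedralGroup.sr (0 + (Int.cast i : ZMod 0)) : DihedralGroup 0) =
      DihedralGroup.sr 0 := h1
    have h3 : (0 + (Int.cast i : ZMod 0) : ZMod 0) = 0 := by
      injection h2
    rw [zero_add] at h3
    exact h3
  · exact dihHom_surjective _ _ _ _ autd_surj

end Pool.Agent.SHAI
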