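import Mathlib
import Pool.Agent.SHAI.Defs

set_option autoImplicit false

/-!
The automorphism group of a finite-by-(infinite cyclic) group is finite (module AUTZ).
-/

namespace Pool.Agent.SHAI

open Pool.Agent.SHA

theorem finite_mulAut_finByZ {G : Type} [Group G] (h : FinByZ G) : Finite (MulAut G) := by
  obtain ⟨f, hf, hF⟩ := h
  obtain ⟨t, ht⟩ := hf (Multiplicative.ofAdd 1)
  -- the elements of the kernel have finite order, and conversely
  have hker : ∀ (α : MulAut G) (x : G), f x = 1 → f (α x) = 1 := by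
    intro α x hx
    have h1 : IsOfFinOrder (⟨x, hx⟩ : f.ker) := isOfFinOrder_of_finite _
    have h2 : IsOfFinOrder x := by
      have := MonoidHom.isOfFinOrder f.ker.subtype h1
      exact this
    have h3 : IsOfFinOrder (f (α x)) := MonoidHom.isOfFinOrder f (MonoidHom.isOfFinOrder α.toMonoidHom h2)
    exact (isOfFinOrder_iff_eq_one (f (α x))).1 h3
  -- decomposition
  have hdec : ∀ g : G, ∃ x, f x = 1 ∧ g = t ^ (Multiplicative.toAdd (f g)) * x := by
    intro g
    refine ⟨(t ^ (Multiplicative.toAdd (f g)))⁻¹ * g, ?_, by group⟩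
    rw [map_mul, map_inv, map_zpow, ht, ← ofAdd_zsmul, zsmul_eq_mul, mul_one]
    exact inv_mul_cancel _
  have hft : ∀ (α : MulAut G) (g : G), f (α g) = f (α t) ^ (Multiplicative.toAdd (f g)) := by
    intro α g
    obtain ⟨x, hx, hg⟩ := hdec g
    conv_lhs => rw [hg]
    rw [map_mul, map_mul, hker α x hx, mul_one, map_zpow, map_zpow]
  have hpm : ∀ α : MulAut G, f (α t) = Multiplicative.ofAdd 1 ∨ f (α t) = Multiplicative.ofAdd (-1) := by
    intro α
    have h1 := hft α (α⁻¹ t)
    rw [MulAut.apply_inv_self, ht] at h1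
    have h2 : (1 : ℤ) = (Multiplicative.toAdd (f (α⁻¹ t))) * Multiplicative.toAdd (f (α t)) := by
      have h3 := congrArg Multiplicative.toAdd h1
      rwa [toAdd_ofAdd, toAdd_zpow, smul_eq_mul] at h3
    have h4 : IsUnit (Multiplicative.toAdd (f (α t))) := IsUnit.of_mul_eq_one_right _ h2.symm
    rcases Int.isUnit_iff.1 h4 with h5 | h5
    · left
      exact h5
    · right
      exact h5
  let S : Set G := {g | f g = Multiplicative.ofAdd 1 ∨ f g = Multiplicative.ofAdd (-1)}
  have hS : S.Finite := by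
    refine ((Set.finite_range (fun x : f.ker => t * x)).union
      (Set.finite_range (fun x : f.ker => t⁻¹ * x))).subset ?_
    rintro g (hg | hg)
    · left
      refine ⟨⟨t⁻¹ * g, ?_⟩, by simp⟩
      rw [MonoidHom.mem_ker, map_mul, map_inv, ht, hg]
      exact inv_mul_cancel _
    · right
      refine ⟨⟨t * g, ?_⟩, by simp⟩
      rw [MonoidHom.mem_ker, map_mul, ht, hg]
      rfl
  have hSf : Finite S := hS
  let Φ : MulAut G → (f.ker → f.ker) × S := fun α =>
    (fun x => ⟨α x, hker α x x.2⟩, ⟨α t, hpm α⟩)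
  refine Finite.of_injective Φ ?_
  intro α β hαβ
  have h1 : α t = β t := congrArg (fun z => (z.2 : G)) hαβ
  have h2 : ∀ x : f.ker, α (x : G) = β (x : G) := fun x =>
    congrArg (fun z => ((z.1 x : f.ker) : G)) hαβ
  refine MulEquiv.ext fun g => ?_
  obtain ⟨x, hx, hg⟩ := hdec g
  rw [hg, map_mul, map_mul, map_zpow, map_zpow, h1, h2 ⟨x, hx⟩]

end Pool.Agent.SHAI
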