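import Mathlib
import Pool.Agent.SHAI.Defs

set_option autoImplicit false

/-!
Almost cyclic groups are hyper-(locally soluble or finite) (module HYP).
-/

namespace Pool.Agent.SHAI

open Pool.Agent.SHA

theorem almostCyclic_hyperLSF {G : Type} [Group G] (h : AlmostCyclic G) : HyperLSF G := by
  intro Q _ f hf hQ
  have hq : AlmostCyclic Q := h.quo f hf
  rcases finite_or_infinite Q with hfin | hinf
  · exact ⟨⊤, inferInstance, top_ne_bot, Or.inl inferInstance⟩
  · obtain ⟨P, hP, hPc, hPi⟩ := hq.exists_char hinf
    refine ⟨P, inferInstance, ?_, Or.inr ?_⟩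
    · rintro rfl
      exact not_finite (⊥ : Subgroup Q)
    · intro H _
      apply Group.isSolvable_of_comm
      intro a b
      apply Subtype.ext
      exact hPc.commGroup.mul_comm a.1 b.1

end Pool.Agent.SHAI
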