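import Mathlib
import Pool.Agent.SHAI.Defs

set_option autoImplicit false

/-!
Subgroups and images of the infinite dihedral group (module SUBD).
-/

namespace Pool.Agent.SHAI

open Pool.Agent.SHA

/-- rotations of the infinite dihedral group, indexed by integers -/
private def subdR (i : ℤ) : DihedralGroup 0 := DihedralGroup.r (n := 0) i

/-- reflections of the infinite dihedral group, indexed by integers -/
private def subdS (i : ℤ) : DihedralGroup 0 := DihedralGroup.sr (n := 0) i

private lemma subd_cases (x : DihedralGroup 0) : (∃ i : ℤ, x = subdR i) ∨ ∃ i : ℤ, x = subdS i := by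
  rcases x with i | i
  · exact Or.inl ⟨i, rfl⟩
  · exact Or.inr ⟨i, rfl⟩

private lemma subd_RR (i j : ℤ) : subdR i * subdR j = subdR (i + j) := rfl
private lemma subd_RS (i j : ℤ) : subdR i * subdS j = subdS (j - i) := rfl
private lemma subd_SR (i j : ℤ) : subdS i * subdR j = subdS (i + j) := rfl
private lemma subd_SS (i j : ℤ) : subdS i * subdS j = subdR (j - i) := rfl
private lemma subd_one : (1 : DihedralGroup 0) = subdR 0 := rfl
private lemma subd_Rinj {i j : ℤ} (h : subdR i = subdR j) : i = j := by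
  unfold subdR at h
  exact DihedralGroup.r.inj h
private lemma subd_Sinj {i j : ℤ} (h : subdS i = subdS j) : i = j := by
  unfold subdS at h
  exact DihedralGroup.sr.inj h
private lemma subd_ne {i j : ℤ} (h : subdR i = subdS j) : False := by
  unfold subdR subdS at h
  cases h

private lemma subd_npow (k : ℤ) (n : ℕ) : subdR k ^ n = subdR (k * n) := by
  induction n with
  | zero => rw [pow_zero, subd_one]; simp
  | succ n ih =>
    rw [pow_succ, ih, subd_RR]
    congr 1
    push_cast
    ring

private lemma subd_inv (k : ℤ) : (subdR k)⁻¹ = subdR (-k) := by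
  rw [inv_eq_iff_mul_eq_one, subd_RR, subd_one]
  congr 1
  omega

private lemma subd_zpow (k j : ℤ) : subdR k ^ j = subdR (k * j) := by
  rcases Int.eq_nat_or_neg j with ⟨n, rfl | rfl⟩
  · rw [zpow_natCast, subd_npow]
  · rw [zpow_neg, zpow_natCast, subd_npow, subd_inv]
    congr 1
    ring

theorem dih_sub {H : Type} [Group H] (f : H →* DihedralGroup 0) (hf : Function.Injective f) :
    Finite H ∨ FinByZ H ∨ Nonempty (H ≃* DihedralGroup 0) := by
  classical
  by_cases hA : ∀ h : H, ∀ i : ℤ, f h = subdR i → i = 0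
  · left
    refine Finite.of_injective (fun h : H => decide (∃ i : ℤ, f h = subdR i)) ?_
    intro x y hxy
    have hxy' : (∃ i : ℤ, f x = subdR i) ↔ ∃ i : ℤ, f y = subdR i := by
      simpa using hxy
    apply hf
    rcases subd_cases (f x) with ⟨i, hi⟩ | ⟨i, hi⟩
    · obtain ⟨j, hj⟩ := hxy'.mp ⟨i, hi⟩
      rw [hi, hj, hA x i hi, hA y j hj]
    · rcases subd_cases (f y) with ⟨j, hj⟩ | ⟨j, hj⟩
      · obtain ⟨m, hm⟩ := hxy'.mpr ⟨j, hj⟩
        exact (subd_ne (hm.symm.trans hi)).elim
      · have h1 : f (x * y) = subdR (j - i) := by rw [map_mul, hi, hj, subd_SS]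
        have h2 := hA _ _ h1
        have h3 : j = i := by omega
        rw [hi, hj, h3]
  right
  push Not at hA
  obtain ⟨h₀, i₀, hi₀, hne⟩ := hA
  let I : AddSubgroup ℤ :=
    { carrier := {i | ∃ h : H, f h = subdR i}
      zero_mem' := ⟨1, by rw [map_one, subd_one]⟩
      add_mem' := by
        rintro a b ⟨x, hx⟩ ⟨y, hy⟩
        exact ⟨x * y, by rw [map_mul, hx, hy, subd_RR]⟩
      neg_mem' := by
        rintro a ⟨x, hx⟩
        exact ⟨x⁻¹, by rw [map_inv, hx, subd_inv]⟩ }
  obtain ⟨k, hk⟩ := Int.subgroup_cyclic I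
  have hkI : k ∈ I := by
    rw [hk]
    exact AddSubgroup.subset_closure rfl
  have hIk : ∀ i : ℤ, i ∈ I → ∃ j : ℤ, i = k * j := by
    intro i hi
    rw [hk, AddSubgroup.mem_closure_singleton] at hi
    obtain ⟨j, hj⟩ := hi
    exact ⟨j, by rw [← hj, smul_eq_mul, mul_comm]⟩
  obtain ⟨t, ht⟩ : ∃ t : H, f t = subdR k := hkI
  have hk0 : k ≠ 0 := by
    intro h0
    obtain ⟨j, hj⟩ := hIk i₀ ⟨h₀, hi₀⟩
    apply hne
    rw [hj, h0, zero_mul]
  have hrot : ∀ h : H, ∀ i : ℤ, f h = subdR i → ∃ j : ℤ, h = t ^ j := by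
    intro h i hi
    obtain ⟨j, hj⟩ := hIk i ⟨h, hi⟩
    refine ⟨j, hf ?_⟩
    rw [hi, map_zpow, ht, subd_zpow, hj]
  have hinf : ∀ i : ℤ, t ^ i = 1 → i = 0 := by
    intro i hi
    have h1 : f (t ^ i) = subdR (k * i) := by rw [map_zpow, ht, subd_zpow]
    rw [hi, map_one, subd_one] at h1
    have h2 := subd_Rinj h1
    rcases mul_eq_zero.mp h2.symm with h3 | h3
    · exact absurd h3 hk0
    · exact h3
  by_cases hB : ∃ s : H, ∃ i : ℤ, f s = subdS i
  · right
    obtain ⟨s, i, hs⟩ := hB
    have hss : s * s = 1 := by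
      apply hf
      rw [map_mul, hs, subd_SS, map_one, subd_one]
      congr 1
      omega
    have hst : s * t * s⁻¹ = t⁻¹ := by
      rw [mul_inv_eq_iff_eq_mul]
      apply hf
      rw [map_mul, map_mul, map_inv, hs, ht, subd_inv, subd_SR, subd_RS]
      congr 1
      omega
    have hinj := dihHom_injective t s hss hst hinf
    have hsur : Function.Surjective (dihHom t s hss hst) := by
      apply dihHom_surjective
      intro x
      rcases subd_cases (f x) with ⟨m, hm⟩ | ⟨m, hm⟩
      · left
        exact hrot x m hm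
      · right
        have h1 : f (s * x) = subdR (m - i) := by rw [map_mul, hs, hm, subd_SS]
        obtain ⟨j, hj⟩ := hrot _ _ h1
        refine ⟨j, ?_⟩
        rw [← hj, ← mul_assoc, hss, one_mul]
    exact ⟨(MulEquiv.ofBijective _ ⟨hinj, hsur⟩).symm⟩
  · left
    push Not at hB
    have hbij : Function.Bijective (zpowersHom H t) := by
      constructor
      · rw [injective_iff_map_eq_one]
        intro a ha
        rw [zpowersHom_apply] at ha
        exact hinf _ ha
      · intro x
        rcases subd_cases (f x) with ⟨m, hm⟩ | ⟨m, hm⟩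
        · obtain ⟨j, hj⟩ := hrot x m hm
          refine ⟨Multiplicative.ofAdd j, ?_⟩
          rw [zpowersHom_apply, hj]
          rfl
        · exact (hB x m hm).elim
    let e := (MulEquiv.ofBijective (zpowersHom H t) hbij).symm
    refine ⟨e.toMonoidHom, e.surjective, ?_⟩
    have h1 : (e.toMonoidHom).ker = ⊥ := (MonoidHom.ker_eq_bot_iff _).mpr e.injective
    rw [h1]
    infer_instance

private lemma subd_finite {Q : Type} [Group Q] (f : DihedralGroup 0 →* Q)
    (hf : Function.Surjective f) (k : ℤ) (hk : k ≠ 0) (h1 : f (subdR k) = 1) : Finite Q := by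
  have hmul : ∀ j : ℤ, f (subdR (k * j)) = 1 := by
    intro j
    rw [← subd_zpow, map_zpow, h1, one_zpow]
  have hfin : (Set.univ : Set Q).Finite := by
    refine Set.Finite.subset (((Set.finite_Ico (0 : ℤ) |k|).image (fun i => f (subdR i))).union
      ((Set.finite_Ico (0 : ℤ) |k|).image (fun i => f (subdS i)))) ?_
    intro q _
    obtain ⟨x, rfl⟩ := hf q
    rcases subd_cases x with ⟨i, rfl⟩ | ⟨i, rfl⟩
    · left
      refine ⟨i % k, ⟨Int.emod_nonneg i hk, Int.emod_lt_abs i hk⟩, ?_⟩
      show f (subdR (i % k)) = f (subdR i)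
      have h2 : subdR i = subdR (i % k) * subdR (k * (i / k)) := by
        rw [subd_RR, Int.emod_add_mul_ediv]
      rw [h2, map_mul, hmul, mul_one]
    · right
      refine ⟨i % k, ⟨Int.emod_nonneg i hk, Int.emod_lt_abs i hk⟩, ?_⟩
      show f (subdS (i % k)) = f (subdS i)
      have h2 : subdS i = subdS (i % k) * subdR (k * (i / k)) := by
        rw [subd_SR, Int.emod_add_mul_ediv]
      rw [h2, map_mul, hmul, mul_one]
  exact Set.finite_univ_iff.mp hfin

theorem dih_quo {Q : Type} [Group Q] (f : DihedralGroup 0 →* Q) (hf : Function.Surjective f) :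
    Finite Q ∨ Nonempty (Q ≃* DihedralGroup 0) := by
  by_cases hinj : Function.Injective f
  · right
    exact ⟨(MulEquiv.ofBijective f ⟨hinj, hf⟩).symm⟩
  · left
    rw [injective_iff_map_eq_one] at hinj
    push Not at hinj
    obtain ⟨x, hx, hx1⟩ := hinj
    rcases subd_cases x with ⟨k, rfl⟩ | ⟨i, rfl⟩
    · refine subd_finite f hf k ?_ hx
      rintro rfl
      exact hx1 subd_one.symm
    · refine subd_finite f hf (-2) (by norm_num) ?_
      have h2 : subdS i * (subdR 1 * subdS i * (subdR 1)⁻¹) = subdR (-2) := by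
        rw [subd_inv, subd_RS, subd_SR, subd_SS]
        congr 1
        omega
      rw [← h2, map_mul, map_mul, map_mul, map_inv, hx]
      simp

end Pool.Agent.SHAI
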