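import Mathlib
import Pool.Agent.SHAI.Defs

set_option autoImplicit false

/-!
Subgroups and images of finite-by-(infinite cyclic) groups (module SUBZ).
-/

namespace Pool.Agent.SHAI

open Pool.Agent.SHA

/-- a nontrivial subgroup of the integers is infinite cyclic -/
lemma subz_equiv (R : Subgroup (Multiplicative ℤ)) (hR : R ≠ ⊥) :
    Nonempty (R ≃* Multiplicative ℤ) := by
  obtain ⟨r, hr⟩ := (inferInstance : IsCyclic R).exists_generator
  have hr1 : r ≠ 1 := by
    rintro rfl
    apply hR
    rw [Subgroup.eq_bot_iff_forall]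
    intro x hx
    obtain ⟨k, hk⟩ := hr ⟨x, hx⟩
    have h1 : ((1 : R) ^ k : R) = ⟨x, hx⟩ := hk
    rw [one_zpow] at h1
    exact (congrArg Subtype.val h1).symm
  have hinj : Function.Injective (zpowersHom R r) := by
    rw [injective_iff_map_eq_one]
    intro k hk
    have h1 : r ^ (Multiplicative.toAdd k) = 1 := hk
    have h2 : ((r : Multiplicative ℤ)) ^ (Multiplicative.toAdd k) = 1 := by
      have := congrArg Subtype.val h1
      simpa using this
    have h3 : Multiplicative.toAdd k * Multiplicative.toAdd (r : Multiplicative ℤ) = 0 := by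
      have := congrArg Multiplicative.toAdd h2
      rw [toAdd_zpow, toAdd_one, smul_eq_mul] at this
      exact this
    rcases mul_eq_zero.1 h3 with h4 | h4
    · exact toAdd_eq_zero.1 h4
    · exfalso
      apply hr1
      apply Subtype.ext
      exact toAdd_eq_zero.1 h4
  have hsurj : Function.Surjective (zpowersHom R r) := by
    intro x
    obtain ⟨k, hk⟩ := hr x
    exact ⟨Multiplicative.ofAdd k, hk⟩
  exact ⟨(MulEquiv.ofBijective (zpowersHom R r) ⟨hinj, hsurj⟩).symm⟩

theorem finByZ_sub {G H : Type} [Group G] [Group H] (f : H →* G) (hf : Function.Injective f)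
    (h : FinByZ G) : Finite H ∨ FinByZ H := by
  obtain ⟨g, -, hfin⟩ := h
  have hker : Finite (g.comp f).ker := by
    let φ : (g.comp f).ker → g.ker := fun x => ⟨f x, x.2⟩
    have hφ : Function.Injective φ := by
      intro x y hxy
      apply Subtype.ext
      apply hf
      exact congrArg Subtype.val hxy
    exact Finite.of_injective φ hφ
  by_cases hR : (g.comp f).range = ⊥
  · left
    have h1 : ∀ x : H, x ∈ (g.comp f).ker := by
      intro x
      have h2 : (g.comp f) x ∈ (g.comp f).range := ⟨x, rfl⟩
      rw [hR] at h2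
      exact h2
    let φ : H → (g.comp f).ker := fun x => ⟨x, h1 x⟩
    have hφ : Function.Injective φ := fun x y hxy => congrArg Subtype.val hxy
    exact Finite.of_injective φ hφ
  · right
    obtain ⟨e⟩ := subz_equiv _ hR
    refine ⟨e.toMonoidHom.comp (g.comp f).rangeRestrict,
      e.surjective.comp (g.comp f).rangeRestrict_surjective, ?_⟩
    have h2 : (e.toMonoidHom.comp (g.comp f).rangeRestrict).ker = (g.comp f).ker := by
      ext x
      rw [MonoidHom.mem_ker, MonoidHom.mem_ker]
      show e ((g.comp f).rangeRestrict x) = 1 ↔ _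
      rw [map_eq_one_iff e e.injective]
      constructor
      · intro h3
        exact congrArg Subtype.val h3
      · intro h3
        exact Subtype.ext h3
    rw [h2]
    exact hker

theorem finByZ_quo {G Q : Type} [Group G] [Group Q] (f : G →* Q) (hf : Function.Surjective f)
    (h : FinByZ G) : Finite Q ∨ FinByZ Q := by
  obtain ⟨g, hg, hfin⟩ := h
  by_cases hN : ∀ x, f x = 1 → g x = 1
  · right
    have hle : f.ker ≤ g.ker := fun x hx => hN x hx
    let ψ : Q →* Multiplicative ℤ := f.liftOfSurjective hf ⟨g, hle⟩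
    have hψ : ∀ x, ψ (f x) = g x := fun x =>
      f.liftOfRightInverse_comp_apply (Function.surjInv hf) (Function.rightInverse_surjInv hf) ⟨g, hle⟩ x
    refine ⟨ψ, ?_, ?_⟩
    · intro y
      obtain ⟨x, hx⟩ := hg y
      exact ⟨f x, by rw [hψ, hx]⟩
    · let φ : g.ker → ψ.ker := fun x => ⟨f x, by
        rw [MonoidHom.mem_ker, hψ]
        exact x.2⟩
      have hφ : Function.Surjective φ := by
        rintro ⟨q, hq⟩
        obtain ⟨x, rfl⟩ := hf q
        have h1 : x ∈ g.ker := by
          rw [MonoidHom.mem_ker] at hq ⊢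
          rw [← hψ]
          exact hq
        exact ⟨⟨x, h1⟩, rfl⟩
      exact Finite.of_surjective φ hφ
  · left
    push Not at hN
    obtain ⟨n, hn, hgn⟩ := hN
    obtain ⟨t, ht⟩ := hg (Multiplicative.ofAdd 1)
    have hm : Multiplicative.toAdd (g n) ≠ 0 := fun h1 => hgn (toAdd_eq_zero.1 h1)
    let φ : Fin (Multiplicative.toAdd (g n)).natAbs × g.ker → Q := fun p => f (t ^ (p.1 : ℕ) * p.2)
    have hφ : Function.Surjective φ := by
      intro q
      obtain ⟨y, rfl⟩ := hf q
      have hk0 : 0 ≤ Multiplicative.toAdd (g y) % Multiplicative.toAdd (g n) := Int.emod_nonneg _ hm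
      have hk1 : Multiplicative.toAdd (g y) % Multiplicative.toAdd (g n) <
          ((Multiplicative.toAdd (g n)).natAbs : ℤ) := by
        rw [Int.natCast_natAbs]
        exact Int.emod_lt_abs _ hm
      obtain ⟨k, hk⟩ := Int.eq_ofNat_of_zero_le hk0
      have hkm : k < (Multiplicative.toAdd (g n)).natAbs := by
        rw [hk] at hk1
        exact_mod_cast hk1
      set a : ℤ := Multiplicative.toAdd (g y) / Multiplicative.toAdd (g n) with ha
      have hdiv : Multiplicative.toAdd (g n) * a + k = Multiplicative.toAdd (g y) := by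
        rw [← hk, ha]
        exact Int.mul_ediv_add_emod _ _
      have hx : (t ^ k)⁻¹ * (n ^ (-a) * y) ∈ g.ker := by
        rw [MonoidHom.mem_ker, map_mul, map_inv, map_pow, map_mul, map_zpow, ht]
        apply toAdd_eq_zero.1
        rw [toAdd_mul, toAdd_inv, toAdd_pow, toAdd_mul, toAdd_zpow, toAdd_ofAdd, ← hdiv]
        simp only [smul_eq_mul, nsmul_eq_mul]
        ring
      refine ⟨(⟨k, hkm⟩, ⟨_, hx⟩), ?_⟩
      show f (t ^ k * ((t ^ k)⁻¹ * (n ^ (-a) * y))) = f y
      rw [mul_inv_cancel_left, map_mul, map_zpow, hn, one_zpow, one_mul]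
    exact Finite.of_surjective φ hφ

end Pool.Agent.SHAI
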