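import Mathlib
import Pool.Agent.SHAI.Defs

set_option autoImplicit false

/-!
Embedding of the direct product of the infinite dihedral group and a group of order 2 (module EMB).
-/

namespace Pool.Agent.SHAI

open Pool.Agent.SHA

private lemma c2_mul : ∀ e e' : Multiplicative (ZMod 2), e ≠ 1 → e' ≠ 1 → e * e' = 1 := by
  decide

/-- the homomorphism of the group of order 2 given by an element -/
private def c2Hom {A : Type} [Group A] (t : A) (ht : t * t = 1) :
    Multiplicative (ZMod 2) →* A where
  toFun e := if e = 1 then 1 else t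
  map_one' := if_pos rfl
  map_mul' := by
    intro e e'
    by_cases h : e = 1
    · subst h
      simp
    · by_cases h' : e' = 1
      · subst h'
        simp
      · rw [if_neg h, if_neg h', if_pos (c2_mul e e' h h'), ht]

theorem emb_D2 {A : Type} [Group A] (x y t : A) (hx : ∀ i : ℤ, x ^ i = 1 → i = 0)
    (hy : y * y = 1) (hxy : y * x * y⁻¹ = x⁻¹) (ht : t * t = 1) (ht1 : t ≠ 1)
    (hxt : t * x = x * t) (hyt : t * y = y * t) :
    ∃ f : D2 →* A, Function.Injective f := by
  have cx : Commute t x := hxt
  have cy : Commute t y := hyt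
  have hcomm : ∀ (m : DihedralGroup 0) (e : Multiplicative (ZMod 2)),
      Commute (dihHom x y hy hxy m) (c2Hom t ht e) := by
    intro m e
    show Commute (dihHom x y hy hxy m) (if e = 1 then 1 else t)
    split_ifs with h
    · exact Commute.one_right _
    · rcases m with i | i
      · show Commute (x ^ (show ℤ from i)) t
        exact (cx.zpow_right _).symm
      · show Commute (y * x ^ (show ℤ from i)) t
        exact (cy.mul_right (cx.zpow_right _)).symm
  refine ⟨MonoidHom.noncommCoprod (dihHom x y hy hxy) (c2Hom t ht) hcomm, ?_⟩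
  rw [injective_iff_map_eq_one]
  rintro ⟨d, e⟩ h
  have h1 : dihHom x y hy hxy d * (if e = 1 then 1 else t) = 1 := h
  by_cases he : e = 1
  · rw [if_pos he, mul_one] at h1
    have h2 := (injective_iff_map_eq_one _).mp (dihHom_injective x y hy hxy hx) d h1
    rw [h2, he]
    rfl
  · exfalso
    rw [if_neg he] at h1
    have h2 : t = dihHom x y hy hxy d⁻¹ := by
      rw [map_inv]
      exact eq_inv_of_mul_eq_one_right h1
    rcases hd : d⁻¹ with i | i
    · rw [hd] at h2
      have h3 : t = x ^ (show ℤ from i) := h2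
      have h4 : x ^ ((show ℤ from i) + (show ℤ from i)) = 1 := by
        rw [zpow_add, ← h3, ht]
      have h5 := hx _ h4
      have h6 : (show ℤ from i) = 0 := by omega
      rw [h6, zpow_zero] at h3
      exact ht1 h3
    · rw [hd] at h2
      have h3 : t = y * x ^ (show ℤ from i) := h2
      have h4 : y = t * (x ^ (show ℤ from i))⁻¹ := by rw [h3, mul_inv_cancel_right]
      have h5 : Commute y x := by
        rw [h4]
        exact cx.mul_left ((Commute.refl x).zpow_left _).inv_left
      have h6 : x = x⁻¹ := by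
        rw [← hxy, h5.eq, mul_inv_cancel_right]
      have h7 : x ^ (2 : ℤ) = 1 := by
        rw [zpow_two]
        nth_rewrite 1 [h6]
        exact inv_mul_cancel x
      have := hx 2 h7
      omega

private lemma conj_comm {L : Type} [Group L] {β : MulAut L} {c : L}
    (h : β c * c⁻¹ ∈ Subgroup.center L) : β * MulAut.conj c = MulAut.conj c * β := by
  ext g
  rw [MulAut.mul_apply, MulAut.mul_apply, MulAut.conj_apply, MulAut.conj_apply, map_mul, map_mul,
    map_inv]
  obtain ⟨z, hz⟩ : ∃ z, z = β c * c⁻¹ := ⟨_, rfl⟩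
  rw [← hz] at h
  have h1 : β c = z * c := by rw [hz, inv_mul_cancel_right]
  have h2 := Subgroup.mem_center_iff.mp h
  have h3 : z * (c * β g * c⁻¹) * z⁻¹ = c * β g * c⁻¹ := by
    rw [← h2, mul_inv_cancel_right]
  rw [← h3, h1]
  group

/-- inner automorphisms and an automorphism of order 2 -/
theorem emb_aut {L : Type} [Group L] (n a : L) (β : MulAut L) (hn : ∀ i : ℤ, n ^ i = 1 → i = 0)
    (hna : a * n * a⁻¹ = n⁻¹) (ha2 : a * a ∈ Subgroup.center L) (hβ : β * β = 1) (hβ1 : β ≠ 1)
    (hβn : β n * n⁻¹ ∈ Subgroup.center L) (hβa : β a * a⁻¹ ∈ Subgroup.center L) :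
    ∃ f : D2 →* MulAut L, Function.Injective f := by
  refine emb_D2 (MulAut.conj n) (MulAut.conj a) β ?_ ?_ ?_ hβ hβ1 (conj_comm hβn) (conj_comm hβa)
  · intro i hi
    rw [← map_zpow] at hi
    have h1 : MulAut.conj (n ^ i) a = a := by rw [hi]; rfl
    rw [MulAut.conj_apply] at h1
    have h2 : n ^ i * a = a * n ^ i := by
      conv_rhs => rw [← h1]
      group
    rw [conj_zpow_inv hna i] at h2
    have h3 : n ^ i = n ^ (-i) := mul_right_cancel h2
    have h4 : n ^ (i + i) = 1 := by
      rw [zpow_add]
      nth_rewrite 1 [h3]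
      rw [← zpow_add]
      simp
    have h5 := hn _ h4
    omega
  · rw [← map_mul]
    ext g
    rw [MulAut.conj_apply, ← Subgroup.mem_center_iff.mp ha2 g, mul_inv_cancel_right]
    rfl
  · rw [← map_inv, ← map_mul, ← map_mul, hna, map_inv]

end Pool.Agent.SHAI
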