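import Mathlib
import Pool.Agent.SHAI.Emb

set_option autoImplicit false

/-!
The case of an element of order at least 4 lifting a reflection (module CASEA, proof by helper74).
-/

namespace Pool.Agent.SHAI

open Pool.Agent.SHA

private lemma caseA_central {G : Type} [Group G] {n a y : G} (hn : y * n = n * y) (ha : y * a = a * y) :
    ∀ g ∈ Subgroup.closure {n, a}, g * y = y * g := by
  intro g hg
  have h1 : Subgroup.closure {n, a} ≤ Subgroup.centralizer {y} := by
    rw [Subgroup.closure_le]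
    intro x hx
    rcases hx with rfl | hx
    · exact Subgroup.mem_centralizer_singleton_iff.2 hn.symm
    · rw [Set.mem_singleton_iff] at hx
      subst hx
      exact Subgroup.mem_centralizer_singleton_iff.2 ha.symm
  exact Subgroup.mem_centralizer_singleton_iff.1 (h1 hg)

private lemma caseA_aut {L : Type} [Group L] (g : L →* DihedralGroup 0) (z : L)
    (hz : z ∈ Subgroup.center L) (hzz : z * z = 1) (hgz : g z = 1) :
    ∃ β : MulAut L, β * β = 1 ∧ (∀ x, (∃ j, g x = DihedralGroup.r j) → β x = x) ∧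
      ∀ x, (∃ j, g x = DihedralGroup.sr j) → β x = x * z := by
  have hc : z * 1 * z⁻¹ = (1 : L)⁻¹ := by rw [mul_one, mul_inv_cancel, inv_one]
  let η : DihedralGroup 0 →* L := dihHom 1 z hzz hc
  have hr : ∀ i : ℤ, η (DihedralGroup.r (n := 0) i) = 1 := fun i => by
    show (1 : L) ^ i = 1
    rw [one_zpow]
  have hsr : ∀ i : ℤ, η (DihedralGroup.sr (n := 0) i) = z := fun i => by
    show z * (1 : L) ^ i = z
    rw [one_zpow, mul_one]
  have h2 : ∀ x, η x = 1 ∨ η x = z := by
    rintro (i | i)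
    · exact Or.inl (hr i)
    · exact Or.inr (hsr i)
  have hcen : ∀ x y, y * η x = η x * y := by
    intro x y
    rcases h2 x with h | h
    · rw [h, mul_one, one_mul]
    · rw [h]
      exact Subgroup.mem_center_iff.1 hz y
  have hsq : ∀ x, η x * η x = 1 := by
    intro x
    rcases h2 x with h | h
    · rw [h, mul_one]
    · rw [h, hzz]
  have hg : ∀ x, g (η x) = 1 := by
    intro x
    rcases h2 x with h | h
    · rw [h, map_one]
    · rw [h, hgz]
  have hinv : ∀ x : L, (x * η (g x)) * η (g (x * η (g x))) = x := by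
    intro x
    rw [map_mul, hg, mul_one, mul_assoc, hsq, mul_one]
  let β : MulAut L :=
    { toFun := fun x => x * η (g x)
      invFun := fun x => x * η (g x)
      left_inv := hinv
      right_inv := hinv
      map_mul' := by
        intro x y
        show x * y * η (g (x * y)) = x * η (g x) * (y * η (g y))
        rw [map_mul, map_mul, mul_assoc, mul_assoc, ← mul_assoc (η (g x)) y, ← hcen (g x) y,
          ← mul_assoc, ← mul_assoc, ← mul_assoc, ← mul_assoc] }
  refine ⟨β, ?_, ?_, ?_⟩
  · ext x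
    exact hinv x
  · rintro x ⟨j, hj⟩
    show x * η (g x) = x
    rw [hj, hr, mul_one]
  · rintro x ⟨j, hj⟩
    show x * η (g x) = x * z
    rw [hj, hsr]

theorem case_order_four {G : Type} [Group G] (f : G →* DihedralGroup 0) (n a : G)
    (hn : ∀ i : ℤ, n ^ i = 1 → i = 0) (hna : a * n * a⁻¹ = n⁻¹)
    (hfn : ∃ j, f n = DihedralGroup.r j) (hfa : ∃ j, f a = DihedralGroup.sr j)
    (k : ℕ) (hk : a ^ 2 ^ k = 1) (ha : a * a ≠ 1) :
    ∃ (L : Subgroup G) (φ : D2 →* MulAut L), Function.Injective φ := by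
  obtain ⟨m, hm1, hm2⟩ : ∃ m : ℕ, a ^ 2 ^ (m + 1) ≠ 1 ∧ a ^ 2 ^ (m + 2) = 1 := by
    classical
    have hex : ∃ k : ℕ, a ^ 2 ^ k = 1 := ⟨k, hk⟩
    have h0 := Nat.find_spec hex
    have hmin := fun i (hi : i < Nat.find hex) => Nat.find_min hex hi
    generalize Nat.find hex = k0 at h0 hmin
    rcases k0 with _ | k0
    · exfalso
      rw [pow_zero, pow_one] at h0
      exact ha (by rw [h0, mul_one])
    · rcases k0 with _ | k0
      · exfalso
        rw [zero_add, pow_one, pow_two] at h0
        exact ha h0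
      · exact ⟨k0, hmin (k0 + 1) (by omega), h0⟩
  have haan : (a * a) * n = n * (a * a) := by
    have h1 : a * n = n⁻¹ * a := by rw [← hna]; group
    have h2 : a * n⁻¹ = n * a := by
      have h3 : a * n⁻¹ * a⁻¹ = n := by
        have h4 := congrArg (fun x => x⁻¹) hna
        simp only [mul_inv_rev, inv_inv] at h4
        rw [mul_assoc]
        exact h4
      calc a * n⁻¹ = a * n⁻¹ * a⁻¹ * a := by group
        _ = n * a := by rw [h3]
    rw [mul_assoc, h1, ← mul_assoc, h2, mul_assoc]
  have hz2 : a ^ 2 ^ (m + 1) = (a * a) ^ 2 ^ m := by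
    rw [← pow_two, ← pow_mul, pow_succ, mul_comm]
  have hzn : a ^ 2 ^ (m + 1) * n = n * a ^ 2 ^ (m + 1) := by
    rw [hz2]
    exact (Commute.pow_left (show Commute (a * a) n from haan) _)
  have hza : a ^ 2 ^ (m + 1) * a = a * a ^ 2 ^ (m + 1) := (Commute.pow_self a _)
  have haaa : (a * a) * a = a * (a * a) := mul_assoc a a a
  let L : Subgroup G := Subgroup.closure {n, a}
  have hnL : n ∈ L := Subgroup.subset_closure (Set.mem_insert n {a})
  have haL : a ∈ L := Subgroup.subset_closure (Set.mem_insert_of_mem n (Set.mem_singleton a))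
  let nL : L := ⟨n, hnL⟩
  let aL : L := ⟨a, haL⟩
  have hcen : ∀ y : L, (y : G) * n = n * y → (y : G) * a = a * y → y ∈ Subgroup.center L := by
    intro y h1 h2
    rw [Subgroup.mem_center_iff]
    intro g
    apply Subtype.ext
    exact caseA_central h1 h2 g g.2
  have hzL : aL ^ 2 ^ (m + 1) ∈ Subgroup.center L := hcen _ hzn hza
  have hzz : aL ^ 2 ^ (m + 1) * aL ^ 2 ^ (m + 1) = 1 := by
    apply Subtype.ext
    show a ^ 2 ^ (m + 1) * a ^ 2 ^ (m + 1) = 1
    rw [← pow_add, ← two_mul, ← pow_succ', hm2]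
  have hgz : (f.comp L.subtype) (aL ^ 2 ^ (m + 1)) = 1 := by
    obtain ⟨j, hj⟩ := hfa
    have h1 : f a * f a = 1 := by
      rw [hj, DihedralGroup.sr_mul_sr, sub_self]
      rfl
    show f (a ^ 2 ^ (m + 1)) = 1
    rw [hz2, map_pow, map_mul, h1, one_pow]
  obtain ⟨β, hβ, hβr, hβs⟩ := caseA_aut (f.comp L.subtype) (aL ^ 2 ^ (m + 1)) hzL hzz hgz
  have hβn : β nL = nL := hβr nL hfn
  have hβa : β aL = aL * aL ^ 2 ^ (m + 1) := hβs aL hfa
  obtain ⟨φ, hφ⟩ := emb_aut nL aL β
    (fun i hi => hn i (by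
      have h1 := congrArg (fun x : L => (x : G)) hi
      exact h1))
    (by
      apply Subtype.ext
      exact hna)
    (hcen (aL * aL) haan haaa) hβ
    (by
      intro h1
      rw [h1] at hβa
      apply hm1
      have h2 : aL = aL * aL ^ 2 ^ (m + 1) := hβa
      have h3 : aL ^ 2 ^ (m + 1) = 1 := by
        have h4 : aL * aL ^ 2 ^ (m + 1) = aL * 1 := by rw [mul_one]; exact h2.symm
        exact mul_left_cancel h4
      exact congrArg (fun x : L => (x : G)) h3)
    (by
      rw [hβn, mul_inv_cancel]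
      exact Subgroup.one_mem _)
    (by
      rw [hβa]
      have h1 : aL * aL ^ 2 ^ (m + 1) * aL⁻¹ = aL ^ 2 ^ (m + 1) := by
        rw [Subgroup.mem_center_iff.1 hzL aL, mul_inv_cancel_right]
      rw [h1]
      exact hzL)
  exact ⟨L, φ, hφ⟩

end Pool.Agent.SHAI
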