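import Mathlib
import Pool.Agent.SHAI.Defs

set_option autoImplicit false

/-!
Elements of a finite normal subgroup fixed or inverted by an involution (module CASEB).
-/

namespace Pool.Agent.SHAI

open Pool.Agent.SHA

/-- fixed points of an involution of a finite set of even cardinality -/
private lemma cb_even {α : Type} [Finite α] (f : α → α) (hf : ∀ x, f (f x) = x)
    (h : Even (Nat.card α)) : Even (Nat.card {x : α // f x = x}) := by
  classical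
  have := Fintype.ofFinite α
  have h1 := Equiv.Perm.card_fixedPoints_modEq (α := α) (f := f) (p := 2) (n := 1)
    (by
      funext x
      exact hf x)
  rw [Nat.even_iff] at h ⊢
  rw [Nat.card_eq_fintype_card] at h
  have h2 : Fintype.card (Function.fixedPoints f) = Nat.card {x : α // f x = x} := by
    rw [← Nat.card_eq_fintype_card]
    rfl
  rw [h2] at h1
  have h3 : Fintype.card α % 2 = Nat.card {x : α // f x = x} % 2 := h1
  omega

theorem exists_fixed_involution {G : Type} [Group G] (F : Subgroup G) (hF : F.Normal) [Finite F]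
    (heven : Even (Nat.card F)) (a : G) (ha : a * a = 1) :
    ∃ z ∈ F, z ≠ 1 ∧ z * z = 1 ∧ a * z = z * a := by
  have h1 := cb_even (α := F) (fun x => x⁻¹) (fun x => inv_inv x) heven
  have ha' : a⁻¹ = a := inv_eq_of_mul_eq_one_left ha
  have hinv : ∀ x : G, a * (a * x * a⁻¹) * a⁻¹ = x := by
    intro x
    rw [ha']
    calc a * (a * x * a) * a = (a * a) * x * (a * a) := by group
      _ = x := by rw [ha, one_mul, mul_one]
  have hmem : ∀ x : {x : F // x⁻¹ = x}, (⟨a * x.1.1 * a⁻¹, hF.conj_mem _ x.1.2 a⟩ : F)⁻¹ =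
      ⟨a * x.1.1 * a⁻¹, hF.conj_mem _ x.1.2 a⟩ := by
    intro x
    apply Subtype.ext
    show (a * x.1.1 * a⁻¹)⁻¹ = a * x.1.1 * a⁻¹
    have h2 : (x.1.1)⁻¹ = x.1.1 := congrArg Subtype.val x.2
    calc (a * x.1.1 * a⁻¹)⁻¹ = a * (x.1.1)⁻¹ * a⁻¹ := by group
      _ = a * x.1.1 * a⁻¹ := by rw [h2]
  have h2 := cb_even (α := {x : F // x⁻¹ = x})
    (fun x => ⟨⟨a * x.1.1 * a⁻¹, hF.conj_mem _ x.1.2 a⟩, hmem x⟩)
    (fun x => Subtype.ext (Subtype.ext (hinv x.1.1))) h1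
  have h3 : 1 < Nat.card {x : {x : F // x⁻¹ = x} //
      (⟨⟨a * x.1.1 * a⁻¹, hF.conj_mem _ x.1.2 a⟩, hmem x⟩ : {x : F // x⁻¹ = x}) = x} := by
    have h4 : 0 < Nat.card {x : {x : F // x⁻¹ = x} //
        (⟨⟨a * x.1.1 * a⁻¹, hF.conj_mem _ x.1.2 a⟩, hmem x⟩ : {x : F // x⁻¹ = x}) = x} := by
      have : Nonempty {x : {x : F // x⁻¹ = x} //
          (⟨⟨a * x.1.1 * a⁻¹, hF.conj_mem _ x.1.2 a⟩, hmem x⟩ : {x : F // x⁻¹ = x}) = x} :=
        ⟨⟨⟨1, inv_one⟩, Subtype.ext (Subtype.ext (by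
          show a * (1 : G) * a⁻¹ = 1
          group))⟩⟩
      exact Nat.card_pos
    rcases h2 with ⟨k, hk⟩
    omega
  rw [Finite.one_lt_card_iff_nontrivial] at h3
  obtain ⟨z, hz⟩ := exists_ne (⟨⟨1, inv_one⟩, Subtype.ext (Subtype.ext (by
          show a * (1 : G) * a⁻¹ = 1
          group))⟩ : {x : {x : F // x⁻¹ = x} //
          (⟨⟨a * x.1.1 * a⁻¹, hF.conj_mem _ x.1.2 a⟩, hmem x⟩ : {x : F // x⁻¹ = x}) = x})
  refine ⟨z.1.1.1, z.1.1.2, ?_, ?_, ?_⟩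
  · intro h4
    exact hz (Subtype.ext (Subtype.ext (Subtype.ext h4)))
  · have h4 : (z.1.1.1)⁻¹ = z.1.1.1 := congrArg Subtype.val z.1.2
    nth_rewrite 1 [← h4]
    exact inv_mul_cancel _
  · have h4 : a * z.1.1.1 * a⁻¹ = z.1.1.1 := congrArg (fun x => x.1.1) z.2
    calc a * z.1.1.1 = a * z.1.1.1 * a⁻¹ * a := by group
      _ = z.1.1.1 * a := by rw [h4]

theorem exists_inverted {G : Type} [Group G] (F : Subgroup G) (hF : F.Normal) (hne : F ≠ ⊥)
    (a : G) (ha : a * a = 1) :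
    ∃ x ∈ F, x ≠ 1 ∧ (a * x * a⁻¹ = x ∨ a * x * a⁻¹ = x⁻¹) := by
  obtain ⟨⟨y, hy⟩, hy1⟩ := Subgroup.ne_bot_iff_exists_ne_one.1 hne
  have hy2 : y ≠ 1 := fun h => hy1 (Subtype.ext h)
  have ha' : a⁻¹ = a := inv_eq_of_mul_eq_one_left ha
  by_cases hw : a * y * a⁻¹ = y
  · exact ⟨y, hy, hy2, Or.inl hw⟩
  · refine ⟨y⁻¹ * (a * y * a⁻¹), F.mul_mem (F.inv_mem hy) (hF.conj_mem y hy a), ?_, Or.inr ?_⟩
    · intro h
      exact hw (inv_mul_eq_one.1 h).symm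
    · calc a * (y⁻¹ * (a * y * a⁻¹)) * a⁻¹ = a * y⁻¹ * (a * (y * (a⁻¹ * a⁻¹))) := by group
        _ = a * y⁻¹ * (a * (y * (a * a))) := by rw [ha']
        _ = a * y⁻¹ * a * y := by rw [ha]; group
        _ = a * y⁻¹ * a⁻¹ * y := by rw [ha']
        _ = (y⁻¹ * (a * y * a⁻¹))⁻¹ := by group

end Pool.Agent.SHAI
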