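import Mathlib
import Pool.Agent.SHAI.Emb

set_option autoImplicit false

/-!
The case of an element of odd order (module CASEC).
-/

namespace Pool.Agent.SHAI

open Pool.Agent.SHA

private lemma c54_comm {G : Type} [Group G] {x : G} (y z : Subgroup.zpowers x) : y * z = z * y := by
  obtain ⟨y, i, rfl⟩ := y
  obtain ⟨z, j, rfl⟩ := z
  apply Subtype.ext
  show x ^ i * x ^ j = x ^ j * x ^ i
  rw [← zpow_add, ← zpow_add, add_comm]

/-- inversion of a cyclic subgroup -/
private def c54_inv {G : Type} [Group G] (x : G) : MulAut (Subgroup.zpowers x) where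
  toFun y := y⁻¹
  invFun y := y⁻¹
  left_inv y := inv_inv y
  right_inv y := inv_inv y
  map_mul' y z := by
    rw [mul_inv_rev, c54_comm]

private lemma c54_inv_apply {G : Type} [Group G] (x : G) (y : Subgroup.zpowers x) :
    c54_inv x y = y⁻¹ := rfl

private lemma c54_inv_sq {G : Type} [Group G] (x : G) : c54_inv x * c54_inv x = 1 := by
  ext y
  rw [MulAut.mul_apply, c54_inv_apply, c54_inv_apply, inv_inv, MulAut.one_apply]

/-- inversion of the kernel of a semidirect product -/
private def c54_beta {G : Type} [Group G] (x : G) (D : Type) [Group D]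
    (θ : D →* MulAut (Subgroup.zpowers x)) : MulAut (Subgroup.zpowers x ⋊[θ] D) where
  toFun l := ⟨l.left⁻¹, l.right⟩
  invFun l := ⟨l.left⁻¹, l.right⟩
  left_inv l := by
    apply SemidirectProduct.ext
    · exact inv_inv _
    · rfl
  right_inv l := by
    apply SemidirectProduct.ext
    · exact inv_inv _
    · rfl
  map_mul' l m := by
    apply SemidirectProduct.ext
    · show (l.left * θ l.right m.left)⁻¹ = l.left⁻¹ * θ l.right (m.left⁻¹)
      rw [mul_inv_rev, map_inv, c54_comm]
    · rfl

private lemma c54_main {G : Type} [Group G] (n a x : G) (hn : ∀ i : ℤ, n ^ i = 1 → i = 0)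
    (ha : a * a = 1) (hna : a * n * a⁻¹ = n⁻¹) (hx : x ≠ 1) (hxo : Odd (orderOf x))
    (hxn : x * n = n * x) (s : MulAut (Subgroup.zpowers x)) (hs : s * s = 1)
    (hax : ∀ y : Subgroup.zpowers x, ((s y : Subgroup.zpowers x) : G) = a * y * a⁻¹) :
    ∃ (L : Type) (_ : Group L) (φ : L →* G) (ψ : D2 →* MulAut L),
      Function.Injective φ ∧ Function.Injective ψ := by
  have hc : s * 1 * s⁻¹ = (1 : MulAut (Subgroup.zpowers x))⁻¹ := by
    rw [mul_one, mul_inv_cancel, inv_one]
  have hpow : ∀ (y : Subgroup.zpowers x) (i : ℤ), n ^ i * (y : G) * (n ^ i)⁻¹ = y := by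
    rintro ⟨y, k, rfl⟩ i
    show n ^ i * x ^ k * (n ^ i)⁻¹ = x ^ k
    have h1 : Commute n x := hxn.symm
    have h2 : n ^ i * x ^ k = x ^ k * n ^ i := (h1.zpow_zpow i k).eq
    rw [h2, mul_assoc, mul_inv_cancel, mul_one]
  let θ : DihedralGroup 0 →* MulAut (Subgroup.zpowers x) := dihHom 1 s hs hc
  have hθr : ∀ i, θ (DihedralGroup.r i) = 1 := by
    intro i
    show (1 : MulAut (Subgroup.zpowers x)) ^ (show ℤ from i) = 1
    exact one_zpow _
  have hθs : ∀ i, θ (DihedralGroup.sr i) = s := by
    intro i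
    show s * (1 : MulAut (Subgroup.zpowers x)) ^ (show ℤ from i) = s
    rw [one_zpow, mul_one]
  have hcomp : ∀ g : DihedralGroup 0, (Subgroup.zpowers x).subtype.comp (θ g).toMonoidHom =
      (MulAut.conj (dihHom n a ha hna g)).toMonoidHom.comp (Subgroup.zpowers x).subtype := by
    rintro (i | i)
    · ext y
      rw [hθr]
      show (y : G) = n ^ (show ℤ from i) * (y : G) * (n ^ (show ℤ from i))⁻¹
      rw [hpow]
    · ext y
      rw [hθs]
      show ((s y : Subgroup.zpowers x) : G) =
        a * n ^ (show ℤ from i) * (y : G) * (a * n ^ (show ℤ from i))⁻¹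
      rw [hax, mul_inv_rev]
      have h1 := hpow y (show ℤ from i)
      calc a * (y : G) * a⁻¹ = a * (n ^ (show ℤ from i) * (y : G) * (n ^ (show ℤ from i))⁻¹) * a⁻¹ := by
            rw [h1]
        _ = _ := by group
  let φ : Subgroup.zpowers x ⋊[θ] DihedralGroup 0 →* G :=
    SemidirectProduct.lift (Subgroup.zpowers x).subtype (dihHom n a ha hna) hcomp
  have hfin : 0 < orderOf x := by
    rcases Nat.eq_zero_or_pos (orderOf x) with h | h
    · rw [h] at hxo
      exact absurd hxo (by decide)
    · exact h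
  have hodd : ∀ k : ℤ, x ^ k * x ^ k = 1 → x ^ k = 1 := by
    intro k hk
    obtain ⟨m, hm⟩ := hxo
    have h1 : x ^ (orderOf x : ℤ) = 1 := by
      rw [zpow_natCast, pow_orderOf_eq_one]
    have h2 : x ^ (k + k) = 1 := by
      rw [zpow_add, hk]
    have h3 : x ^ k = (x ^ (orderOf x : ℤ)) ^ k * ((x ^ (k + k)) ^ (m : ℤ))⁻¹ := by
      rw [← zpow_mul, ← zpow_mul, ← zpow_neg, ← zpow_add]
      congr 1
      have h4 : (orderOf x : ℤ) = 2 * m + 1 := by exact_mod_cast hm
      rw [h4]
      ring
    rw [h3, h1, h2]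
    simp
  have hxx : ∀ i j : ℤ, x ^ i = n ^ j → x ^ i = 1 := by
    intro i j hij
    have h1 : n ^ (j * (orderOf x : ℤ)) = 1 := by
      rw [zpow_mul, ← hij, ← zpow_mul, mul_comm, zpow_mul, zpow_natCast, pow_orderOf_eq_one,
        one_zpow]
    have h2 := hn _ h1
    have h3 : j = 0 := by
      rcases mul_eq_zero.1 h2 with h | h
      · exact h
      · omega
    rw [hij, h3, zpow_zero]
  have hφ : Function.Injective φ := by
    rw [injective_iff_map_eq_one]
    rintro ⟨⟨y, k, rfl⟩, d⟩ h
    have h0 : x ^ k * dihHom n a ha hna d = 1 := h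
    rcases d with i | i
    · have h1 : x ^ k * n ^ (show ℤ from i) = 1 := h0
      have h2 : x ^ k = n ^ (-(show ℤ from i)) := by
        rw [zpow_neg]
        exact eq_inv_of_mul_eq_one_left h1
      have h3 := hxx _ _ h2
      rw [h3, one_mul] at h1
      have h4 := hn _ h1
      apply SemidirectProduct.ext
      · apply Subtype.ext
        exact h3
      · show DihedralGroup.r i = DihedralGroup.r 0
        exact congrArg DihedralGroup.r h4
    · exfalso
      have h1 : x ^ k * (a * n ^ (show ℤ from i)) = 1 := h0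
      generalize (show ℤ from i) = j at h1
      have h2 : x ^ k = (a * n ^ j)⁻¹ := eq_inv_of_mul_eq_one_left h1
      have h3 : (a * n ^ j) * (a * n ^ j) = 1 := by
        rw [conj_zpow_inv hna j]
        have : n ^ (-j) * a * (n ^ (-j) * a) = n ^ (-j) * (a * n ^ (-j)) * a := by group
        rw [this, conj_zpow_inv hna (-j)]
        have h5 : n ^ (-j) * (n ^ (-(-j)) * a) * a = n ^ (-j) * n ^ (-(-j)) * (a * a) := by group
        rw [h5, ha, ← zpow_add]
        simp
      have h4 : x ^ k * x ^ k = 1 := by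
        rw [h2, ← mul_inv_rev, h3, inv_one]
      have h5 := hodd k h4
      rw [h5, one_mul] at h1
      have h6 : a = n ^ (-j) := by
        rw [zpow_neg]
        exact eq_inv_of_mul_eq_one_left h1
      exact not_zpow hna hn _ h6
  have hβ : c54_beta x (DihedralGroup 0) θ * c54_beta x (DihedralGroup 0) θ = 1 := by
    ext l
    · show ((l.left⁻¹)⁻¹ : Subgroup.zpowers x).1 = l.left.1
      rw [inv_inv]
    · rfl
  have hβ1 : c54_beta x (DihedralGroup 0) θ ≠ 1 := by
    intro h
    have h1 : c54_beta x (DihedralGroup 0) θ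
        (SemidirectProduct.inl (⟨x, Subgroup.mem_zpowers x⟩ : Subgroup.zpowers x)) =
        SemidirectProduct.inl (⟨x, Subgroup.mem_zpowers x⟩ : Subgroup.zpowers x) := by
      rw [h]
      rfl
    have h2 : (⟨x, Subgroup.mem_zpowers x⟩ : Subgroup.zpowers x)⁻¹ =
        ⟨x, Subgroup.mem_zpowers x⟩ := congrArg SemidirectProduct.left h1
    have h3 : x⁻¹ = x := congrArg Subtype.val h2
    have h4 : x ^ (1 : ℤ) * x ^ (1 : ℤ) = 1 := by
      rw [zpow_one]
      nth_rewrite 1 [← h3]
      exact inv_mul_cancel x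
    have h5 := hodd 1 h4
    rw [zpow_one] at h5
    exact hx h5
  obtain ⟨ψ, hψ⟩ := emb_aut (L := Subgroup.zpowers x ⋊[θ] DihedralGroup 0)
    (SemidirectProduct.inr (DihedralGroup.r 1)) (SemidirectProduct.inr (DihedralGroup.sr 0))
    (c54_beta x (DihedralGroup 0) θ)
    (by
      intro i hi
      rw [← map_zpow] at hi
      have h1 : (DihedralGroup.r (1 : ZMod 0)) ^ i = 1 := by
        have := congrArg SemidirectProduct.right hi
        exact this
      have h2 : (DihedralGroup.r (1 : ZMod 0)) ^ i = DihedralGroup.r (i : ZMod 0) := by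
        rcases i with m | m
        · show (DihedralGroup.r (1 : ZMod 0)) ^ ((m : ℕ) : ℤ) = _
          rw [zpow_natCast, DihedralGroup.r_one_pow]
          rfl
        · rw [zpow_negSucc, DihedralGroup.r_one_pow, DihedralGroup.inv_r]
          congr 1
      rw [h2] at h1
      have h3 : DihedralGroup.r (n := 0) (i : ZMod 0) = DihedralGroup.r (n := 0) 0 :=
        h1.trans (show (1 : DihedralGroup 0) = DihedralGroup.r (n := 0) 0 from rfl)
      have h4 : (i : ZMod 0) = 0 := DihedralGroup.r.inj h3
      exact h4)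
    (by
      rw [← map_mul, ← map_inv, ← map_mul, ← map_inv]
      congr 1)
    (by
      rw [← map_mul]
      have h1 : (DihedralGroup.sr (0 : ZMod 0)) * DihedralGroup.sr 0 = 1 := by
        rw [DihedralGroup.sr_mul_sr, sub_zero]
        rfl
      rw [h1, map_one]
      exact Subgroup.one_mem _)
    hβ hβ1
    (by
      have h1 : c54_beta x (DihedralGroup 0) θ (SemidirectProduct.inr (DihedralGroup.r 1)) =
          SemidirectProduct.inr (DihedralGroup.r 1) := by
        apply SemidirectProduct.ext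
        · exact inv_one
        · rfl
      rw [h1, mul_inv_cancel]
      exact Subgroup.one_mem _)
    (by
      have h1 : c54_beta x (DihedralGroup 0) θ (SemidirectProduct.inr (DihedralGroup.sr 0)) =
          SemidirectProduct.inr (DihedralGroup.sr 0) := by
        apply SemidirectProduct.ext
        · exact inv_one
        · rfl
      rw [h1, mul_inv_cancel]
      exact Subgroup.one_mem _)
  exact ⟨_, _, φ, ψ, hφ, hψ⟩

theorem case_odd {G : Type} [Group G] (n a x : G) (hn : ∀ i : ℤ, n ^ i = 1 → i = 0)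
    (ha : a * a = 1) (hna : a * n * a⁻¹ = n⁻¹) (hx : x ≠ 1) (hxo : Odd (orderOf x))
    (hxn : x * n = n * x) (hax : a * x * a⁻¹ = x ∨ a * x * a⁻¹ = x⁻¹) :
    ∃ (L : Type) (_ : Group L) (φ : L →* G) (ψ : D2 →* MulAut L),
      Function.Injective φ ∧ Function.Injective ψ := by
  rcases hax with hax | hax
  · apply c54_main n a x hn ha hna hx hxo hxn 1 (one_mul 1)
    rintro ⟨y, k, rfl⟩
    show x ^ k = a * x ^ k * a⁻¹
    rw [← conj_zpow, hax]
  · apply c54_main n a x hn ha hna hx hxo hxn (c54_inv x) (c54_inv_sq x)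
    rintro ⟨y, k, rfl⟩
    show (x ^ k)⁻¹ = a * x ^ k * a⁻¹
    rw [← conj_zpow, hax, inv_zpow]

end Pool.Agent.SHAI
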