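import Mathlib
import Pool.Agent.SHAI.Defs

set_option autoImplicit false

/-!
Direct products of the infinite dihedral group and an elementary abelian 2-group (module DBL).
-/

namespace Pool.Agent.SHAI

open Pool.Agent.SHA

variable {K : (G : Type) → [Group G] → Prop}

/-- the automorphism `(d, v) ↦ (g d g⁻¹, v * h d)` of `D × V` for an abelian group `V` -/
private def dblAut {D V : Type} [Group D] [CommGroup V] (g : D) (h : D →* V) :
    MulAut (D × V) where
  toFun p := (g * p.1 * g⁻¹, p.2 * h p.1)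
  invFun p := (g⁻¹ * p.1 * g, p.2 * (h p.1)⁻¹)
  left_inv := by
    rintro ⟨d, v⟩
    refine Prod.ext ?_ ?_
    · show g⁻¹ * (g * d * g⁻¹) * g = d
      group
    · show v * h d * (h (g * d * g⁻¹))⁻¹ = v
      have h1 : h (g * d * g⁻¹) = h d := by
        rw [map_mul, map_mul, map_inv, mul_comm (h g) (h d), mul_inv_cancel_right]
      rw [h1, mul_inv_cancel_right]
  right_inv := by
    rintro ⟨d, v⟩
    refine Prod.ext ?_ ?_
    · show g * (g⁻¹ * d * g) * g⁻¹ = d
      group
    · show v * (h d)⁻¹ * h (g⁻¹ * d * g) = v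
      have h1 : h (g⁻¹ * d * g) = h d := by
        rw [map_mul, map_mul, map_inv, mul_comm (h g)⁻¹ (h d), inv_mul_cancel_right]
      rw [h1, inv_mul_cancel_right]
  map_mul' := by
    rintro ⟨d, v⟩ ⟨d', v'⟩
    refine Prod.ext ?_ ?_
    · show g * (d * d') * g⁻¹ = (g * d * g⁻¹) * (g * d' * g⁻¹)
      group
    · show (v * v') * h (d * d') = (v * h d) * (v' * h d')
      rw [map_mul, mul_mul_mul_comm]

private lemma dblAut_apply {D V : Type} [Group D] [CommGroup V] (g : D) (h : D →* V)
    (p : D × V) : dblAut g h p = (g * p.1 * g⁻¹, p.2 * h p.1) := rfl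

/-- the infinite dihedral group has trivial centre -/
private lemma dbl_center (g : DihedralGroup 0) (h : ∀ d : DihedralGroup 0, g * d * g⁻¹ = d) :
    g = 1 := by
  have h1 : ∀ d : DihedralGroup 0, g * d = d * g := fun d => by
    have := h d
    rwa [mul_inv_eq_iff_eq_mul] at this
  rcases g with i | i
  · have h2 := h1 (DihedralGroup.sr 0)
    rw [DihedralGroup.r_mul_sr, DihedralGroup.sr_mul_r] at h2
    have h3 := DihedralGroup.sr.inj h2
    have h4 : (show ℤ from i) = 0 := by
      have h5 : (0 : ℤ) - (show ℤ from i) = 0 + (show ℤ from i) := h3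
      omega
    show DihedralGroup.r i = DihedralGroup.r 0
    exact congrArg DihedralGroup.r h4
  · exfalso
    have h2 := h1 (DihedralGroup.r 1)
    rw [DihedralGroup.sr_mul_r, DihedralGroup.r_mul_sr] at h2
    have h3 := DihedralGroup.sr.inj h2
    have h5 : (show ℤ from i) + (1 : ℤ) = (show ℤ from i) - (1 : ℤ) := h3
    omega

/-- the homomorphism `D_inf → V` with `r 1 ↦ u` and `sr 0 ↦ w` -/
private def dblHom {V : Type} [CommGroup V] (hV : ∀ v : V, v * v = 1) (u w : V) :
    DihedralGroup 0 →* V :=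
  dihHom u w (hV w) (by
    rw [mul_comm w u, mul_inv_cancel_right]
    exact eq_inv_of_mul_eq_one_left (hV u))

private lemma dblHom_mul {V : Type} [CommGroup V] (hV : ∀ v : V, v * v = 1) (u w u' w' : V)
    (d : DihedralGroup 0) :
    dblHom hV (u * u') (w * w') d = dblHom hV u w d * dblHom hV u' w' d := by
  rcases d with i | i
  · show (u * u') ^ (show ℤ from i) = u ^ (show ℤ from i) * u' ^ (show ℤ from i)
    rw [mul_zpow]
  · show (w * w') * (u * u') ^ (show ℤ from i) =
      (w * u ^ (show ℤ from i)) * (w' * u' ^ (show ℤ from i))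
    rw [mul_zpow, mul_mul_mul_comm]

private lemma dblHom_one {V : Type} [CommGroup V] (hV : ∀ v : V, v * v = 1)
    (d : DihedralGroup 0) : dblHom hV 1 1 d = 1 := by
  rcases d with i | i
  · show (1 : V) ^ (show ℤ from i) = 1
    rw [one_zpow]
  · show (1 : V) * (1 : V) ^ (show ℤ from i) = 1
    rw [one_zpow, mul_one]

/-- the embedding of `D_inf × (V × V)` in the automorphism group of `D_inf × V` -/
private def dblEmb {V : Type} [CommGroup V] (hV : ∀ v : V, v * v = 1) :
    DihedralGroup 0 × (V × V) →* MulAut (DihedralGroup 0 × V) where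
  toFun p := dblAut p.1 (dblHom hV p.2.1 p.2.2)
  map_one' := by
    refine MulEquiv.ext fun p => ?_
    rw [dblAut_apply]
    show ((1 : DihedralGroup 0) * p.1 * 1⁻¹, p.2 * dblHom hV 1 1 p.1) = p
    rw [dblHom_one, one_mul, inv_one, mul_one, mul_one]
  map_mul' := by
    rintro ⟨g, u, w⟩ ⟨g', u', w'⟩
    refine MulEquiv.ext fun p => ?_
    rw [MulAut.mul_apply, dblAut_apply, dblAut_apply, dblAut_apply]
    refine Prod.ext ?_ ?_
    · show (g * g') * p.1 * (g * g')⁻¹ = g * (g' * p.1 * g'⁻¹) * g⁻¹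
      group
    · show p.2 * dblHom hV (u * u') (w * w') p.1 =
        p.2 * dblHom hV u' w' p.1 * dblHom hV u w (g' * p.1 * g'⁻¹)
      have h1 : dblHom hV u w (g' * p.1 * g'⁻¹) = dblHom hV u w p.1 := by
        rw [map_mul, map_mul, map_inv, mul_comm (dblHom hV u w g') (dblHom hV u w p.1),
          mul_inv_cancel_right]
      rw [h1, dblHom_mul, mul_assoc, mul_comm (dblHom hV u' w' p.1)]

private lemma dblEmb_injective {V : Type} [CommGroup V] (hV : ∀ v : V, v * v = 1) :
    Function.Injective (dblEmb hV) := by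
  rw [injective_iff_map_eq_one]
  rintro ⟨g, u, w⟩ h
  have h1 : ∀ p : DihedralGroup 0 × V, (g * p.1 * g⁻¹, p.2 * dblHom hV u w p.1) = p := by
    intro p
    have := DFunLike.congr_fun h p
    exact this
  have hg : g = 1 := dbl_center g fun d => congrArg Prod.fst (h1 (d, 1))
  have hd : ∀ d : DihedralGroup 0, dblHom hV u w d = 1 := fun d => by
    have h2 : (1 : V) * dblHom hV u w d = 1 := congrArg Prod.snd (h1 (d, 1))
    rwa [one_mul] at h2
  have hu : u = 1 := by
    have h2 : u ^ (1 : ℤ) = 1 := hd (DihedralGroup.r 1)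
    rwa [zpow_one] at h2
  have hw : w = 1 := by
    have h2 : w * u ^ (0 : ℤ) = 1 := hd (DihedralGroup.sr 0)
    rwa [zpow_zero, mul_one] at h2
  rw [hg, hu, hw]
  rfl

theorem step_double (hK : SHAClosed K) (V : Type) [CommGroup V] (hV : ∀ v : V, v * v = 1)
    (h : K (DihedralGroup 0 × V)) : K (DihedralGroup 0 × (V × V)) :=
  hK.sub (MulAut (DihedralGroup 0 × V)) (DihedralGroup 0 × (V × V)) (dblEmb hV)
    (dblEmb_injective hV) (hK.aut _ h)

end Pool.Agent.SHAI
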