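import Mathlib
import Pool.Agent.SHAI.Dbl

set_option autoImplicit false

/-!
All direct products of the infinite dihedral group and a finite group (module POWS).
-/

namespace Pool.Agent.SHAI

open Pool.Agent.SHA

variable {K : (G : Type) → [Group G] → Prop}

/-- the product of the identity with a homomorphism -/
private def pows_idProd {V W : Type} [Group V] [Group W] (f : V →* W) :
    DihedralGroup 0 × V →* DihedralGroup 0 × W :=
  MonoidHom.prodMap (MonoidHom.id _) f

private lemma pows_idProd_inj {V W : Type} [Group V] [Group W] {f : V →* W}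
    (hf : Function.Injective f) : Function.Injective (pows_idProd f) := by
  rintro ⟨d, v⟩ ⟨d', v'⟩ h
  have h1 : (d, f v) = (d', f v') := h
  rw [Prod.mk.injEq] at h1
  exact Prod.ext h1.1 (hf h1.2)

private lemma pows_sub (hK : SHAClosed K) {V W : Type} [Group V] [Group W] (f : V →* W)
    (hf : Function.Injective f) (h : K (DihedralGroup 0 × W)) : K (DihedralGroup 0 × V) :=
  hK.sub _ _ (pows_idProd f) (pows_idProd_inj hf) h

theorem all_powers (hK : SHAClosed K) (h : K D2) (n : ℕ) :
    K (DihedralGroup 0 × (Fin n → Multiplicative (ZMod 2))) := by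
  induction n with
  | zero =>
    refine pows_sub hK (1 : (Fin 0 → Multiplicative (ZMod 2)) →* Multiplicative (ZMod 2)) ?_ h
    intro f g _
    exact Subsingleton.elim f g
  | succ n ih =>
    rcases Nat.eq_zero_or_pos n with rfl | hn
    · refine pows_sub hK (Pi.evalMonoidHom (fun _ : Fin 1 => Multiplicative (ZMod 2)) 0) ?_ h
      intro f g hfg
      funext i
      have hi : i = 0 := Fin.fin_one_eq_zero i
      rw [hi]
      exact hfg
    · have h2 := step_double hK (Fin n → Multiplicative (ZMod 2)) (fun v => by
        funext i
        have key : ∀ x : Multiplicative (ZMod 2), x * x = 1 := by decide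
        exact key (v i)) ih
      let φ : (Fin (n + 1) → Multiplicative (ZMod 2)) →*
          (Fin n → Multiplicative (ZMod 2)) × (Fin n → Multiplicative (ZMod 2)) :=
        { toFun := fun f => (fun i => f i.castSucc, fun _ => f (Fin.last n))
          map_one' := rfl
          map_mul' := fun _ _ => rfl }
      refine pows_sub hK φ ?_ h2
      intro f g hfg
      have h3 : ((fun i : Fin n => f i.castSucc), fun _ : Fin n => f (Fin.last n)) =
          ((fun i : Fin n => g i.castSucc), fun _ : Fin n => g (Fin.last n)) := hfg
      rw [Prod.mk.injEq] at h3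
      funext i
      refine Fin.lastCases ?_ (fun j => ?_) i
      · exact congrFun h3.2 ⟨0, hn⟩
      · exact congrFun h3.1 j

/-- translations -/
private def pows_trans (H : Type) [Group H] : H →* MulAut (H → Multiplicative (ZMod 2)) where
  toFun h :=
    { toFun := fun f x => f (h⁻¹ * x)
      invFun := fun f x => f (h * x)
      left_inv := fun f => by
        funext x
        show f (h⁻¹ * (h * x)) = f x
        rw [inv_mul_cancel_left]
      right_inv := fun f => by
        funext x
        show f (h * (h⁻¹ * x)) = f x
        rw [mul_inv_cancel_left]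
      map_mul' := fun _ _ => rfl }
  map_one' := by
    ext f x
    show f (1⁻¹ * x) = f x
    rw [inv_one, one_mul]
  map_mul' h k := by
    ext f x
    show f ((h * k)⁻¹ * x) = f (k⁻¹ * (h⁻¹ * x))
    rw [mul_inv_rev, mul_assoc]

/-- the action on the product -/
private def pows_act (H : Type) [Group H] :
    H × DihedralGroup 0 →* MulAut (DihedralGroup 0 × (H → Multiplicative (ZMod 2))) where
  toFun p := MulEquiv.prodCongr (MulAut.conj p.2) (pows_trans H p.1)
  map_one' := by
    ext x : 1
    show ((MulAut.conj (1 : DihedralGroup 0)) x.1, (pows_trans H 1) x.2) = x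
    rw [map_one, map_one]
    rfl
  map_mul' p q := by
    ext x : 1
    show ((MulAut.conj (p.2 * q.2)) x.1, (pows_trans H (p.1 * q.1)) x.2) =
      ((MulAut.conj p.2) ((MulAut.conj q.2) x.1), (pows_trans H p.1) ((pows_trans H q.1) x.2))
    rw [map_mul, map_mul]
    rfl

private lemma pows_center (g : DihedralGroup 0) (h : ∀ d : DihedralGroup 0, g * d * g⁻¹ = d) :
    g = 1 := by
  have hc : ∀ d : DihedralGroup 0, g * d = d * g := fun d => by
    have h1 := h d
    rwa [mul_inv_eq_iff_eq_mul] at h1
  rcases g with i | i
  · have h1 : DihedralGroup.sr (0 - i) = (DihedralGroup.sr (0 + i) : DihedralGroup 0) :=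
      hc (DihedralGroup.sr 0)
    have h2 : (0 - i : ZMod 0) = 0 + i := DihedralGroup.sr.inj h1
    have h3 : (show ℤ from i) = 0 := by
      have h4 : (0 : ℤ) - (show ℤ from i) = 0 + (show ℤ from i) := h2
      omega
    show DihedralGroup.r i = DihedralGroup.r 0
    exact congrArg DihedralGroup.r h3
  · exfalso
    have h1 : DihedralGroup.sr (i + 1) = (DihedralGroup.sr (i - 1) : DihedralGroup 0) :=
      hc (DihedralGroup.r 1)
    have h2 : (i + 1 : ZMod 0) = i - 1 := DihedralGroup.sr.inj h1
    have h4 : (show ℤ from i) + 1 = (show ℤ from i) - 1 := h2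
    omega

private lemma pows_act_inj (H : Type) [Group H] : Function.Injective (pows_act H) := by
  rw [injective_iff_map_eq_one]
  rintro ⟨h, g⟩ he
  have h1 : ∀ x : DihedralGroup 0 × (H → Multiplicative (ZMod 2)),
      (g * x.1 * g⁻¹, (fun y => x.2 (h⁻¹ * y))) = x := fun x => DFunLike.congr_fun he x
  have hg : g = 1 := pows_center g fun d => congrArg Prod.fst (h1 (d, 1))
  have hh : h = 1 := by
    classical
    by_contra hne
    have h2 := congrArg Prod.snd (h1 (1, fun y => if y = 1 then Multiplicative.ofAdd (1 : ZMod 2) else 1))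
    have h3 := congrFun h2 h
    simp only [inv_mul_cancel, if_true] at h3
    rw [if_neg hne] at h3
    exact absurd h3 (by decide)
  rw [hg, hh]
  rfl

theorem finite_times (hK : SHAClosed K) (h : K D2) (H : Type) [Group H] [Finite H] :
    K (H × DihedralGroup 0) := by
  have e := Finite.equivFin H
  have h1 := all_powers hK h (Nat.card H)
  let φ : (H → Multiplicative (ZMod 2)) →* (Fin (Nat.card H) → Multiplicative (ZMod 2)) :=
    { toFun := fun f i => f (e.symm i)
      map_one' := rfl
      map_mul' := fun _ _ => rfl }
  have hφ : Function.Injective φ := by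
    intro f g hfg
    funext x
    have h2 := congrFun hfg (e x)
    have h3 : f (e.symm (e x)) = g (e.symm (e x)) := h2
    rwa [Equiv.symm_apply_apply] at h3
  have h2 : K (DihedralGroup 0 × (H → Multiplicative (ZMod 2))) := pows_sub hK φ hφ h1
  exact hK.sub _ _ (pows_act H) (pows_act_inj H) (hK.aut _ h2)

end Pool.Agent.SHAI
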