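import Mathlib
import Pool.Agent.SHAI.Defs

set_option autoImplicit false

/-!
Infinite almost cyclic groups that map onto a group of type Z or dihedral: the normal infinite cyclic
subgroup of finite index (module SETUP).
-/

namespace Pool.Agent.SHAI

open Pool.Agent.SHA

/-- an infinite almost cyclic group has an infinite cyclic normal subgroup of finite index -/
theorem exists_normal_cyclic {G : Type} [Group G] (h : AlmostCyclic G) (hinf : Infinite G) :
    ∃ n : G, (∀ i : ℤ, n ^ i = 1 → i = 0) ∧ (Subgroup.zpowers n).Normal ∧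
      (Subgroup.zpowers n).FiniteIndex := by
  obtain ⟨P, hP, hPc, hPi⟩ := h.exists_char hinf
  obtain ⟨⟨n, hnP⟩, hn⟩ := hPc.exists_generator
  have hz : Subgroup.zpowers n = P := by
    apply le_antisymm
    · rw [Subgroup.zpowers_le]
      exact hnP
    · intro x hx
      obtain ⟨k, hk⟩ := Subgroup.mem_zpowers_iff.mp (hn ⟨x, hx⟩)
      exact Subgroup.mem_zpowers_iff.mpr ⟨k, congrArg Subtype.val hk⟩
  have hinf' : ∀ i : ℤ, n ^ i = 1 → i = 0 := by
    intro i hi
    by_contra hi0
    have hfo : IsOfFinOrder n := isOfFinOrder_iff_zpow_eq_one.mpr ⟨i, hi0, hi⟩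
    have h1 : (Subgroup.zpowers n : Set G).Finite := hfo.finite_zpowers
    rw [hz] at h1
    have h2 : Finite P := h1
    exact not_finite P
  haveI := hP
  refine ⟨n, hinf', ?_, ?_⟩
  · rw [hz]
    infer_instance
  · refine h.zpowers_fi n fun k hk hk1 => hk ?_
    have := hinf' (k : ℤ) (by rw [zpow_natCast]; exact hk1)
    exact_mod_cast this

lemma dih_ac : AlmostCyclic (DihedralGroup 0) := by
  refine ⟨Subgroup.zpowers (DihedralGroup.r (n := 0) 1), inferInstance, ?_⟩
  have key : ∀ i : ZMod 0, DihedralGroup.r i ∈ Subgroup.zpowers (DihedralGroup.r (n := 0) 1) := by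
    intro i
    refine Subgroup.mem_zpowers_iff.mpr ⟨(show ℤ from i), ?_⟩
    rw [DihedralGroup.r_one_zpow]
    rfl
  refine SHA.fi_of_cover ⊤ _ inferInstance ({1, DihedralGroup.sr (n := 0) 0} : Set _)
    (Set.toFinite _) ?_
  rintro (i | i) -
  · exact ⟨1, by simp, by simpa using key i⟩
  · refine ⟨DihedralGroup.sr 0, by simp, ?_⟩
    rw [DihedralGroup.inv_sr, DihedralGroup.sr_mul_sr]
    exact key _

lemma ac_of_surj {G D : Type} [Group G] [Group D] (hD : AlmostCyclic D) (f : G →* D)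
    (hf : Function.Surjective f) (hker : Finite f.ker) : AlmostCyclic G := by
  refine AlmostCyclic.of_quotient f.ker hker ?_
  exact hD.quo (QuotientGroup.quotientKerEquivOfSurjective f hf).symm.toMonoidHom
    (QuotientGroup.quotientKerEquivOfSurjective f hf).symm.surjective

theorem finByZ_almostCyclic {G : Type} [Group G] (h : FinByZ G) : AlmostCyclic G := by
  obtain ⟨f, hf, hker⟩ := h
  refine ac_of_surj ⟨⊤, ?_, inferInstance⟩ f hf hker
  exact isCyclic_of_injective (⊤ : Subgroup (Multiplicative ℤ)).subtype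
    (Subgroup.subtype_injective _)

theorem finByD_almostCyclic {G : Type} [Group G] (h : FinByD G) : AlmostCyclic G := by
  obtain ⟨f, hf, hker⟩ := h
  exact ac_of_surj dih_ac f hf hker

theorem finByD_setup {G : Type} [Group G] (f : G →* DihedralGroup 0) (hf : Function.Surjective f)
    (hker : Finite f.ker) : ∃ n a : G, (∀ i : ℤ, n ^ i = 1 → i = 0) ∧ a * n * a⁻¹ = n⁻¹ ∧
      (∀ x ∈ f.ker, x * n = n * x) ∧ (∃ j, f n = DihedralGroup.r j) ∧
      (∃ j, f a = DihedralGroup.sr j) ∧ ∃ k : ℕ, a ^ 2 ^ k = 1 := by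
  have hGi : Infinite G := by
    have hDi : Infinite (DihedralGroup 0) := by
      refine Infinite.of_injective (fun i : ℤ => DihedralGroup.r (n := 0) i) ?_
      intro i j hij
      exact DihedralGroup.r.inj hij
    exact Infinite.of_surjective f hf
  obtain ⟨n, hn, hnorm, hfi⟩ := exists_normal_cyclic (finByD_almostCyclic ⟨f, hf, hker⟩) hGi
  haveI := hnorm
  -- elements of the kernel have finite order
  have htor : ∀ x ∈ f.ker, IsOfFinOrder x := by
    intro x hx
    have h1 : IsOfFinOrder (⟨x, hx⟩ : f.ker) := isOfFinOrder_of_finite _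
    obtain ⟨m, hm0, hm⟩ := isOfFinOrder_iff_pow_eq_one.mp h1
    exact isOfFinOrder_iff_pow_eq_one.mpr ⟨m, hm0, congrArg Subtype.val hm⟩
  have hdisj : ∀ i : ℤ, IsOfFinOrder (n ^ i) → i = 0 := by
    intro i hi
    obtain ⟨m, hm0, hm⟩ := isOfFinOrder_iff_pow_eq_one.mp hi
    rw [← zpow_natCast, ← zpow_mul] at hm
    rcases mul_eq_zero.mp (hn _ hm) with h | h
    · exact h
    · omega
  have hFn : ∀ x ∈ f.ker, x * n = n * x := by
    intro x hx
    have h1 : x * n * x⁻¹ * n⁻¹ ∈ Subgroup.zpowers n :=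
      Subgroup.mul_mem _ (hnorm.conj_mem n (Subgroup.mem_zpowers n) x)
        (Subgroup.inv_mem _ (Subgroup.mem_zpowers n))
    have h2 : x * n * x⁻¹ * n⁻¹ ∈ f.ker := by
      rw [MonoidHom.mem_ker]
      have h3 := MonoidHom.mem_ker.mp hx
      simp [h3]
    obtain ⟨i, hi⟩ := Subgroup.mem_zpowers_iff.mp h1
    have h3 := htor _ h2
    rw [← hi] at h3
    rw [hdisj i h3, zpow_zero] at hi
    have h4 : x * n * x⁻¹ = n := by
      rw [← mul_inv_eq_one]
      exact hi.symm
    rw [mul_inv_eq_iff_eq_mul] at h4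
    exact h4
  -- the image of `n` is a rotation
  have hfn : ∃ j, f n = DihedralGroup.r j := by
    rcases hc : f n with j | j
    · exact ⟨j, rfl⟩
    · exfalso
      have h1 : n ^ (2 : ℤ) ∈ f.ker := by
        rw [MonoidHom.mem_ker, map_zpow, hc, zpow_two, DihedralGroup.sr_mul_self]
      have := hdisj 2 (htor _ h1)
      omega
  obtain ⟨b, hb⟩ := hf (DihedralGroup.sr 0)
  have hbb : b * b ∈ f.ker := by
    rw [MonoidHom.mem_ker, map_mul, hb, DihedralGroup.sr_mul_self]
  have hbfo : IsOfFinOrder b := by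
    have h1 := htor _ hbb
    rw [← sq] at h1
    exact h1.of_pow (by norm_num)
  obtain ⟨k, m, hm, hkm⟩ := Nat.exists_eq_two_pow_mul_odd (n := orderOf b)
    (orderOf_ne_zero_iff.mpr hbfo)
  have hfa : f (b ^ m) = DihedralGroup.sr 0 := by
    obtain ⟨c, hc⟩ := hm
    rw [map_pow, hb, hc, pow_add, pow_mul, sq, DihedralGroup.sr_mul_self, one_pow, one_mul, pow_one]
  refine ⟨n, b ^ m, hn, ?_, hFn, hfn, ⟨0, hfa⟩, k, ?_⟩
  · obtain ⟨j, hj⟩ := hfn
    have hj0 : j ≠ 0 := by
      rintro rfl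
      have h1 : n ^ (1 : ℤ) ∈ f.ker := by
        rw [zpow_one, MonoidHom.mem_ker, hj]
        rfl
      have := hdisj 1 (htor _ h1)
      omega
    have h1 : b ^ m * n * (b ^ m)⁻¹ ∈ Subgroup.zpowers n :=
      hnorm.conj_mem n (Subgroup.mem_zpowers n) _
    obtain ⟨i, hi⟩ := Subgroup.mem_zpowers_iff.mp h1
    have h2 : f (n ^ i) = f (n⁻¹) := by
      rw [hi, map_mul, map_mul, map_inv, map_inv, hfa, hj]
      simp [DihedralGroup.inv_sr, DihedralGroup.sr_mul_r, DihedralGroup.sr_mul_sr,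
        DihedralGroup.inv_r]
    have h3 : n ^ (i + 1) ∈ f.ker := by
      rw [MonoidHom.mem_ker, zpow_add_one, map_mul, h2, map_inv, inv_mul_cancel]
    have h4 := hdisj _ (htor _ h3)
    have h5 : i = -1 := by omega
    rw [← hi, h5, zpow_neg, zpow_one]
  · rw [← pow_mul, mul_comm, ← hkm, pow_orderOf_eq_one]

end Pool.Agent.SHAI
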