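import Mathlib
import Pool.Agent.SHAI.Defs

set_option autoImplicit false

/-!
The largest finite normal subgroup of an almost cyclic group (module STA).
-/

namespace Pool.Agent.SHAI

open Pool.Agent.SHA

private lemma sta_trivial {G : Type} [Group G] {C : Subgroup G} (hC : IsCyclic C)
    (hinf : Infinite C) {x : G} (hx : x ∈ C) {n : ℕ} (hn : n ≠ 0) (h : x ^ n = 1) : x = 1 := by
  obtain ⟨c, hc⟩ := hC.exists_generator
  obtain ⟨k, hk⟩ := Subgroup.mem_zpowers_iff.mp (hc ⟨x, hx⟩)
  have h1 : c ^ (k * n) = 1 := by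
    rw [zpow_mul, hk, zpow_natCast]
    exact Subtype.ext h
  have h2 : k * n = 0 := by
    by_contra h0
    have hfo : IsOfFinOrder c := isOfFinOrder_iff_zpow_eq_one.mpr ⟨k * n, h0, h1⟩
    have h3 : (Subgroup.zpowers c : Set C).Finite := hfo.finite_zpowers
    have h4 : (Subgroup.zpowers c : Set C) = Set.univ := by
      ext y
      simpa using hc y
    rw [h4] at h3
    have h5 : Finite C := Set.finite_univ_iff.mp h3
    exact not_finite C
  have h3 : k = 0 := by
    rcases mul_eq_zero.1 h2 with h | h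
    · exact h
    · exact absurd (by exact_mod_cast h) hn
  rw [h3, zpow_zero] at hk
  exact (congrArg Subtype.val hk).symm

private lemma sta_card {G : Type} [Group G] {C : Subgroup G} (hC : IsCyclic C)
    (hinf : Infinite C) (hfi : C.FiniteIndex) (M : Subgroup G) (hM : Finite M) :
    Nat.card M ≤ C.index := by
  have hq : Finite (G ⧸ C) := Subgroup.finite_quotient_of_finiteIndex
  have hinj : Function.Injective fun m : M => ((m : G) : G ⧸ C) := by
    intro m m' h
    have h1 : (m : G)⁻¹ * (m' : G) ∈ C := QuotientGroup.eq.mp h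
    have h2 : ((m : G)⁻¹ * (m' : G)) ^ Nat.card M = 1 := by
      have h3 : (m⁻¹ * m') ^ Nat.card M = 1 := pow_card_eq_one'
      exact congrArg Subtype.val h3
    have h3 := sta_trivial hC hinf h1 Nat.card_pos.ne' h2
    exact Subtype.ext (inv_mul_eq_one.1 h3)
  exact Nat.card_le_card_of_injective _ hinj

theorem exists_finite_radical {G : Type} [Group G] (h : AlmostCyclic G) (hinf : Infinite G) :
    ∃ F : Subgroup G, F.Normal ∧ Finite F ∧ ∀ M : Subgroup G, M.Normal → Finite M → M ≤ F := by
  obtain ⟨C, hC, hfi⟩ := h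
  have hCi : Infinite C := by
    by_contra h0
    rw [not_infinite_iff_finite] at h0
    have h1 := finite_of_index C h0 hfi
    exact not_finite G
  let T : Set ℕ := {n | ∃ F : Subgroup G, F.Normal ∧ Finite F ∧ Nat.card F = n}
  have hne : T.Nonempty := ⟨_, ⊥, inferInstance, inferInstance, rfl⟩
  have hbd : BddAbove T := by
    refine ⟨C.index, ?_⟩
    rintro _ ⟨F, -, hF, rfl⟩
    exact sta_card hC hCi hfi F hF
  obtain ⟨F, hFn, hFf, hF⟩ := Nat.sSup_mem hne hbd
  refine ⟨F, hFn, hFf, fun M hMn hMf => ?_⟩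
  have hfin : Finite (M ⊔ F : Subgroup G) := by
    have h1 : ((M ⊔ F : Subgroup G) : Set G).Finite := by
      rw [Subgroup.mul_normal]
      exact Set.Finite.mul (Set.toFinite (M : Set G)) (Set.toFinite (F : Set G))
    exact h1.to_subtype
  have hle : Nat.card (M ⊔ F : Subgroup G) ≤ Nat.card F := by
    rw [hF]
    exact le_csSup hbd ⟨M ⊔ F, inferInstance, hfin, rfl⟩
  have h1 : F = M ⊔ F := Subgroup.eq_of_le_of_card_ge le_sup_right hle
  rw [h1]
  exact le_sup_left

end Pool.Agent.SHAI
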