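import Mathlib
import Pool.Agent.SHAI.Defs

set_option autoImplicit false

/-!
An infinite almost cyclic group without finite normal subgroups has a self-centralising infinite
cyclic normal subgroup (module STB).
-/

namespace Pool.Agent.SHAI

open Pool.Agent.SHA

private lemma stb_gen {P : Type} [Group P] (hinf : Infinite P) (g : P)
    (hg : ∀ x : P, x ∈ Subgroup.zpowers g) (n : ℕ) (hn : n ≠ 0) : g ^ n ≠ 1 := by
  intro h1
  have hfo : IsOfFinOrder g := isOfFinOrder_iff_pow_eq_one.mpr ⟨n, Nat.pos_of_ne_zero hn, h1⟩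
  have h2 : (Subgroup.zpowers g : Set P).Finite := hfo.finite_zpowers
  have h3 : (Subgroup.zpowers g : Set P) = Set.univ := by
    ext x; simpa using hg x
  rw [h3] at h2
  have h4 : Finite P := Set.finite_univ_iff.mp h2
  exact not_finite P

private lemma stb_tf {P : Type} [Group P] (hinf : Infinite P) (g : P)
    (hg : ∀ x : P, x ∈ Subgroup.zpowers g) (x : P) (n : ℕ) (hn : n ≠ 0) (h : x ^ n = 1) : x = 1 := by
  obtain ⟨k, rfl⟩ := Subgroup.mem_zpowers_iff.mp (hg x)
  rw [← zpow_natCast, ← zpow_mul] at h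
  have h1 : k = 0 := by
    by_contra hk
    have h2 : k * (n : ℤ) ≠ 0 := mul_ne_zero hk (by exact_mod_cast hn)
    have h3 : g ^ (k * (n : ℤ)).natAbs = 1 := by
      rcases Int.natAbs_eq (k * (n : ℤ)) with h4 | h4
      · rw [h4, zpow_natCast] at h
        exact h
      · rw [h4, zpow_neg, zpow_natCast, inv_eq_one] at h
        exact h
    exact stb_gen hinf g hg _ (Int.natAbs_ne_zero.mpr h2) h3
  rw [h1, zpow_zero]

theorem exists_selfcentral {Q : Type} [Group Q] (h : AlmostCyclic Q) (hinf : Infinite Q)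
    (hno : ∀ M : Subgroup Q, M.Normal → Finite M → M = ⊥) :
    ∃ C : Subgroup Q, C.Normal ∧ IsCyclic C ∧ Infinite C ∧
      ∀ x : Q, (∀ c ∈ C, x * c = c * x) → x ∈ C := by
  obtain ⟨P, hPc, hPcyc, hPinf⟩ := h.exists_char hinf
  have hPn : P.Normal := inferInstance
  obtain ⟨g, hg⟩ := hPcyc.exists_generator
  have hgQ : ∀ n : ℕ, n ≠ 0 → (g : Q) ^ n ≠ 1 := by
    intro n hn h1
    exact stb_gen hPinf g hg n hn (Subtype.ext (by simpa using h1))
  have hPz : P = Subgroup.zpowers (g : Q) := by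
    apply le_antisymm
    · intro x hx
      obtain ⟨k, hk⟩ := Subgroup.mem_zpowers_iff.mp (hg ⟨x, hx⟩)
      have hk' : (g : Q) ^ k = x := congrArg Subtype.val hk
      rw [← hk']
      exact Subgroup.zpow_mem_zpowers _ k
    · rw [Subgroup.zpowers_le]
      exact g.2
  have hfi : P.FiniteIndex := by
    rw [hPz]
    exact h.zpowers_fi (g : Q) hgQ
  have hPtf : ∀ x ∈ P, ∀ n : ℕ, n ≠ 0 → x ^ n = 1 → x = 1 := by
    intro x hx n hn hxn
    have h1 := stb_tf hPinf g hg ⟨x, hx⟩ n hn (Subtype.ext hxn)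
    exact congrArg Subtype.val h1
  have hPcomm : ∀ x ∈ P, ∀ y ∈ P, x * y = y * x := by
    intro x hx y hy
    rw [hPz] at hx hy
    obtain ⟨i, rfl⟩ := Subgroup.mem_zpowers_iff.mp hx
    obtain ⟨j, rfl⟩ := Subgroup.mem_zpowers_iff.mp hy
    exact ((Commute.refl (g : Q)).zpow_zpow i j).eq
  have hsmall : ∀ M : Subgroup Q, M.Normal → (∀ x ∈ M, x ∈ P → x = 1) → ∀ x ∈ M, x = 1 := by
    intro M hM hMP x hx
    have hfq : Finite (Q ⧸ P) := Subgroup.finite_quotient_of_finiteIndex
    have hfin : Finite M := by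
      refine Finite.of_injective (fun y : M => ((y : Q) : Q ⧸ P)) ?_
      intro a b hab
      have h1 : (a : Q)⁻¹ * b ∈ P := QuotientGroup.eq.mp hab
      have h2 := hMP _ (M.mul_mem (M.inv_mem a.2) b.2) h1
      exact Subtype.ext (inv_mul_eq_one.mp h2)
    have h2 := hno M hM hfin
    rw [h2] at hx
    exact Subgroup.mem_bot.mp hx
  let C : Subgroup Q := Subgroup.centralizer (P : Set Q)
  have hmemC : ∀ x, x ∈ C ↔ ∀ p ∈ P, p * x = x * p := fun x => Subgroup.mem_centralizer_iff
  have hPC : P ≤ C := fun x hx => (hmemC x).mpr fun p hp => hPcomm p hp x hx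
  have hCn : C.Normal := by
    refine ⟨fun x hx q => (hmemC _).mpr fun p hp => ?_⟩
    have h1 : q⁻¹ * p * q ∈ P := by
      have := hPn.conj_mem p hp q⁻¹
      rwa [inv_inv] at this
    have h2 := (hmemC x).mp hx _ h1
    calc p * (q * x * q⁻¹) = q * ((q⁻¹ * p * q) * x) * q⁻¹ := by group
      _ = q * (x * (q⁻¹ * p * q)) * q⁻¹ := by rw [h2]
      _ = q * x * q⁻¹ * p := by group
  -- a power map on C is injective if it is a homomorphism
  have hker : ∀ n : ℕ, n ≠ 0 → ∀ M : Subgroup Q, (∀ x, x ∈ M ↔ x ∈ C ∧ x ^ n = 1) →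
      ∀ x ∈ C, x ^ n = 1 → x = 1 := by
    intro n hn M hM x hxC hxn
    refine hsmall M ⟨fun y hy q => ?_⟩ ?_ x ((hM x).mpr ⟨hxC, hxn⟩)
    · obtain ⟨h1, h2⟩ := (hM y).mp hy
      refine (hM _).mpr ⟨hCn.conj_mem y h1 q, ?_⟩
      rw [conj_pow, h2, mul_one, mul_inv_cancel]
    · intro y hy hyP
      exact hPtf y hyP n hn ((hM y).mp hy).2
  have hcfi : (Subgroup.center C).FiniteIndex := by
    have h1 : (P.subgroupOf C).FiniteIndex := inferInstance
    refine Subgroup.finiteIndex_of_le (H := P.subgroupOf C) ?_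
    intro x hx
    rw [Subgroup.mem_subgroupOf] at hx
    rw [Subgroup.mem_center_iff]
    intro y
    apply Subtype.ext
    exact ((hmemC y).mp y.2 x hx).symm
  have hCab : ∀ a ∈ C, ∀ b ∈ C, a * b = b * a := by
    let f := MonoidHom.transferCenterPow C
    have hf : ∀ y : C, (((f y : Subgroup.center C) : C) : Q) = (y : Q) ^ (Subgroup.center C).index := by
      intro y
      have := MonoidHom.transferCenterPow_apply (G := C) y
      rw [this]
      rfl
    have hinj : Function.Injective f := by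
      rw [injective_iff_map_eq_one]
      intro y hy
      have h1 : (y : Q) ^ (Subgroup.center C).index = 1 := by
        rw [← hf y, hy]
        rfl
      refine Subtype.ext (hker _ hcfi.index_ne_zero (f.ker.map C.subtype) ?_ (y : Q) y.2 h1)
      intro x
      rw [Subgroup.mem_map]
      constructor
      · rintro ⟨z, hz, rfl⟩
        refine ⟨z.2, ?_⟩
        show (z : Q) ^ (Subgroup.center C).index = 1
        rw [← hf z, MonoidHom.mem_ker.mp hz]
        rfl
      · rintro ⟨hxC, hxn⟩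
        refine ⟨⟨x, hxC⟩, ?_, rfl⟩
        rw [MonoidHom.mem_ker]
        apply Subtype.ext
        apply Subtype.ext
        rw [hf]
        exact hxn
    intro a ha b hb
    have h1 : f (⟨a, ha⟩ * ⟨b, hb⟩) = f (⟨b, hb⟩ * ⟨a, ha⟩) := by
      rw [map_mul, map_mul]
      apply Subtype.ext
      exact (Subgroup.mem_center_iff.mp (f ⟨b, hb⟩).2 _)
    exact congrArg Subtype.val (hinj h1)
  have hpk : ∀ x : Q, x ^ P.index ∈ P := fun x => Subgroup.pow_index_mem P x
  let φ : C →* P :=
    { toFun := fun x => ⟨(x : Q) ^ P.index, hpk x⟩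
      map_one' := Subtype.ext (one_pow _)
      map_mul' := fun a b => Subtype.ext (by
        have h1 : Commute (a : Q) (b : Q) := hCab a a.2 b b.2
        exact h1.mul_pow _) }
  have hφ : Function.Injective φ := by
    rw [injective_iff_map_eq_one]
    intro y hy
    have h1 : (y : Q) ^ P.index = 1 := congrArg Subtype.val hy
    refine Subtype.ext (hker _ hfi.index_ne_zero (φ.ker.map C.subtype) ?_ (y : Q) y.2 h1)
    intro x
    rw [Subgroup.mem_map]
    constructor
    · rintro ⟨z, hz, rfl⟩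
      exact ⟨z.2, congrArg Subtype.val (MonoidHom.mem_ker.mp hz)⟩
    · rintro ⟨hxC, hxn⟩
      exact ⟨⟨x, hxC⟩, MonoidHom.mem_ker.mpr (Subtype.ext hxn), rfl⟩
  refine ⟨C, hCn, isCyclic_of_injective φ hφ, ?_, ?_⟩
  · exact Infinite.of_injective (Subgroup.inclusion hPC) (Subgroup.inclusion_injective hPC)
  · intro x hx
    exact (hmemC x).mpr fun p hp => (hx p (hPC hp)).symm

end Pool.Agent.SHAI
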