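import Mathlib
import Pool.Agent.SHAI.Defs

set_option autoImplicit false

/-!
A group with a self-centralising infinite cyclic normal subgroup (module STC).
-/

namespace Pool.Agent.SHAI

open Pool.Agent.SHA

theorem z_or_dih {Q : Type} [Group Q] (C : Subgroup Q) (hC : C.Normal) (hcyc : IsCyclic C)
    (hinf : Infinite C) (hself : ∀ x : Q, (∀ c ∈ C, x * c = c * x) → x ∈ C) :
    Nonempty (Q ≃* Multiplicative ℤ) ∨ Nonempty (Q ≃* DihedralGroup 0) := by
  obtain ⟨c, hc⟩ := hcyc.exists_generator
  obtain ⟨g, hgC⟩ := c
  have hmem : ∀ x ∈ C, ∃ i : ℤ, x = g ^ i := by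
    intro x hx
    obtain ⟨i, hi⟩ := hc ⟨x, hx⟩
    refine ⟨i, ?_⟩
    have h1 := congrArg Subtype.val hi
    simpa using h1.symm
  have hord : orderOf (⟨g, hgC⟩ : C) = 0 := Infinite.orderOf_eq_zero_of_forall_mem_zpowers hc
  have hinf' : ∀ i : ℤ, g ^ i = 1 → i = 0 := by
    intro i hi
    have h1 : (⟨g, hgC⟩ : C) ^ i = 1 := by
      apply Subtype.ext
      simpa using hi
    have h2 := orderOf_dvd_iff_zpow_eq_one.2 h1
    rw [hord] at h2
    simpa using h2
  have hcomm : ∀ x : Q, x * g = g * x → ∃ i : ℤ, x = g ^ i := by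
    intro x hx
    refine hmem x (hself x ?_)
    intro y hy
    obtain ⟨i, rfl⟩ := hmem y hy
    exact (Commute.zpow_right (show Commute x g from hx) i)
  have hconj : ∀ x : Q, ¬ (x * g = g * x) → x * g * x⁻¹ = g⁻¹ := by
    intro x hx
    obtain ⟨j, hj⟩ := hmem _ (hC.conj_mem g hgC x)
    obtain ⟨k, hk⟩ := hmem _ (hC.conj_mem g hgC x⁻¹)
    rw [inv_inv] at hk
    have h1 : g ^ (k * j) = g := by
      calc g ^ (k * j) = (x⁻¹ * g * x) ^ j := by rw [zpow_mul, ← hk]
        _ = x⁻¹ * g ^ j * x := by
          have := conj_zpow (i := j) (a := x⁻¹) (b := g)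
          rw [inv_inv] at this
          exact this
        _ = g := by rw [← hj]; group
    have h2 : g ^ (k * j - 1) = 1 := by
      rw [zpow_sub, h1, zpow_one, mul_inv_cancel]
    have h3 := hinf' _ h2
    have h4 : k * j = 1 := by linarith
    rcases Int.eq_one_or_neg_one_of_mul_eq_one' h4 with ⟨-, h5⟩ | ⟨-, h5⟩
    · exfalso
      apply hx
      rw [h5, zpow_one] at hj
      calc x * g = x * g * x⁻¹ * x := by group
        _ = g * x := by rw [hj]
    · rw [hj, h5, zpow_neg, zpow_one]
  by_cases hall : ∀ x : Q, x * g = g * x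
  · left
    have hbij : Function.Bijective (zpowersHom Q g) := by
      constructor
      · rw [injective_iff_map_eq_one]
        intro i hi
        have h1 : g ^ (Multiplicative.toAdd i) = 1 := hi
        have h2 := hinf' _ h1
        exact Multiplicative.toAdd.injective h2
      · intro x
        obtain ⟨i, hi⟩ := hcomm x (hall x)
        exact ⟨Multiplicative.ofAdd i, by rw [hi]; rfl⟩
    exact ⟨(MulEquiv.ofBijective _ hbij).symm⟩
  · right
    push Not at hall
    obtain ⟨a, ha⟩ := hall
    have hag := hconj a ha
    have hag' : a * g = g⁻¹ * a := by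
      rw [← hag]
      group
    have haa : a * a = 1 := by
      obtain ⟨k, hk⟩ := hcomm (a * a) (by
        have h1 : a * g⁻¹ = g * a := by
          have h2 := conj_zpow_inv hag (-1)
          simpa using h2
        rw [mul_assoc, hag', ← mul_assoc, h1, mul_assoc])
      have h1 := conj_zpow_inv hag k
      rw [← hk] at h1
      have h2 : g ^ k = g ^ (-k) := by
        have h3 : a * a * a = g ^ (-k) * a := by
          rw [← h1, mul_assoc]
        rw [hk] at h3
        exact mul_right_cancel h3
      have h4 : g ^ (k + k) = 1 := by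
        rw [zpow_add]
        nth_rewrite 1 [h2]
        rw [zpow_neg, inv_mul_cancel]
      have h5 := hinf' _ h4
      have h6 : k = 0 := by omega
      rw [hk, h6, zpow_zero]
    have hsur : Function.Surjective (dihHom g a haa hag) := by
      refine dihHom_surjective g a haa hag ?_
      intro x
      by_cases hx : x * g = g * x
      · exact Or.inl (hcomm x hx)
      · right
        have hxg := hconj x hx
        obtain ⟨i, hi⟩ := hcomm (a * x) (by
          have h1 : x * g = g⁻¹ * x := by
            rw [← hxg]
            group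
          have h2 : a * g⁻¹ = g * a := by
            have h3 := conj_zpow_inv hag (-1)
            simpa using h3
          rw [mul_assoc, h1, ← mul_assoc, h2, mul_assoc])
        refine ⟨i, ?_⟩
        rw [← hi, ← mul_assoc, haa, one_mul]
    exact ⟨(MulEquiv.ofBijective _ ⟨dihHom_injective g a haa hag hinf', hsur⟩).symm⟩

end Pool.Agent.SHAI
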