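import Mathlib
import Pool.Agent.SHAI.StA
import Pool.Agent.SHAI.StB
import Pool.Agent.SHAI.StC
import Pool.Agent.SHAI.Setup
import Pool.Agent.SHAI.CaseA
import Pool.Agent.SHAI.CaseB
import Pool.Agent.SHAI.CaseC
import Pool.Agent.SHAI.Pows

set_option autoImplicit false

/-!
The types of infinite almost cyclic groups and the case of a finite-by-dihedral member.
-/

namespace Pool.Agent.SHAI

open Pool.Agent.SHA

variable {K : (G : Type) → [Group G] → Prop}

theorem ac_types {G : Type} [Group G] (h : AlmostCyclic G) (hinf : Infinite G) :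
    FinByZ G ∨ FinByD G := by
  obtain ⟨F, hF, hfin, hmax⟩ := exists_finite_radical h hinf
  haveI := hF
  haveI := hfin
  have hQ : AlmostCyclic (G ⧸ F) := h.quo (QuotientGroup.mk' F) (QuotientGroup.mk'_surjective F)
  have hQinf : Infinite (G ⧸ F) := by
    by_contra hn
    rw [not_infinite_iff_finite] at hn
    have : Finite G := Finite.of_equiv _ (Subgroup.groupEquivQuotientProdSubgroup (s := F)).symm
    exact not_finite G
  have hno : ∀ M : Subgroup (G ⧸ F), M.Normal → Finite M → M = ⊥ := by
    intro M hM hMf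
    haveI := hM
    haveI := hMf
    have h1 : Finite (M.comap (QuotientGroup.mk' F)) := by
      have hfi : Finite ((M.comap (QuotientGroup.mk' F)) ⧸
          (((QuotientGroup.mk' F).subgroupComap M).ker)) :=
        Finite.of_equiv _ (QuotientGroup.quotientKerEquivRange
          ((QuotientGroup.mk' F).subgroupComap M)).symm.toEquiv
      have hk : Finite (((QuotientGroup.mk' F).subgroupComap M).ker) := by
        refine Finite.of_injective (β := F) (fun x => ⟨x.1.1, ?_⟩) ?_
        · have h2 := x.2
          rw [MonoidHom.mem_ker] at h2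
          have h3 := congrArg Subtype.val h2
          exact (QuotientGroup.eq_one_iff _).mp h3
        · intro x y hxy
          exact Subtype.ext (Subtype.ext (congrArg (fun z : F => (z : G)) hxy))
      exact Finite.of_equiv _ (Subgroup.groupEquivQuotientProdSubgroup
        (s := (((QuotientGroup.mk' F).subgroupComap M).ker))).symm
    have h2 := hmax _ inferInstance h1
    rw [eq_bot_iff]
    intro x hx
    obtain ⟨g, rfl⟩ := QuotientGroup.mk_surjective x
    have h3 : g ∈ F := h2 hx
    exact Subgroup.mem_bot.mpr ((QuotientGroup.eq_one_iff g).mpr h3)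
  obtain ⟨C, hC, hcyc, hCinf, hself⟩ := exists_selfcentral hQ hQinf hno
  have key : ∀ (D : Type) [Group D], (G ⧸ F) ≃* D →
      ∃ f : G →* D, Function.Surjective f ∧ Finite f.ker := by
    intro D _ e
    refine ⟨e.toMonoidHom.comp (QuotientGroup.mk' F), e.surjective.comp
      (QuotientGroup.mk'_surjective F), ?_⟩
    have h1 : (e.toMonoidHom.comp (QuotientGroup.mk' F)).ker = F := by
      rw [← MonoidHom.comap_ker]
      have : e.toMonoidHom.ker = ⊥ := (MonoidHom.ker_eq_bot_iff _).mpr e.injective
      rw [this, MonoidHom.comap_bot, QuotientGroup.ker_mk']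
    rw [h1]
    exact hfin
  rcases z_or_dih C hC hcyc hCinf hself with ⟨⟨e⟩⟩ | ⟨⟨e⟩⟩
  · exact Or.inl (key _ e)
  · exact Or.inr (key _ e)

/-- the embedding of `Z` into the infinite dihedral group -/
def zToDih : Multiplicative ℤ →* DihedralGroup 0 where
  toFun i := DihedralGroup.r (n := 0) i.toAdd
  map_one' := rfl
  map_mul' _ _ := rfl

lemma zToDih_injective : Function.Injective zToDih := by
  intro i j h
  have h1 : DihedralGroup.r (n := 0) i.toAdd = DihedralGroup.r (n := 0) j.toAdd := h
  exact Multiplicative.toAdd.injective (DihedralGroup.r.inj h1)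

theorem ac_to_dih {G : Type} [Group G] (h : AlmostCyclic G) (hinf : Infinite G) :
    ∃ f : G →* DihedralGroup 0, Finite f.ker := by
  rcases ac_types h hinf with ⟨f, -, hf⟩ | ⟨f, -, hf⟩
  · refine ⟨zToDih.comp f, ?_⟩
    have h1 : (zToDih.comp f).ker = f.ker := by
      rw [← MonoidHom.comap_ker, (MonoidHom.ker_eq_bot_iff _).mpr zToDih_injective,
        MonoidHom.comap_bot]
    rw [h1]
    exact hf
  · exact ⟨f, hf⟩

theorem ac_embeds {G : Type} [Group G] (h : AlmostCyclic G) :
    ∃ (H : Type) (_ : Group H) (_ : Finite H) (f : G →* H × DihedralGroup 0),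
      Function.Injective f := by
  rcases finite_or_infinite G with hfin | hinf
  · exact ⟨G, inferInstance, hfin, MonoidHom.inl G (DihedralGroup 0), fun x y hxy =>
      congrArg Prod.fst hxy⟩
  · obtain ⟨f, hf⟩ := ac_to_dih h hinf
    obtain ⟨n, hn, hnorm, hfi⟩ := exists_normal_cyclic h hinf
    haveI := hnorm
    haveI := hfi
    refine ⟨G ⧸ Subgroup.zpowers n, inferInstance, Subgroup.finite_quotient_of_finiteIndex,
      (QuotientGroup.mk' _).prod f, ?_⟩
    rw [injective_iff_map_eq_one]
    intro g hg
    have h1 : ((g : G) : G ⧸ Subgroup.zpowers n) = 1 := congrArg Prod.fst hg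
    have h2 : f g = 1 := congrArg Prod.snd hg
    have h3 := (QuotientGroup.eq_one_iff g).mp h1
    obtain ⟨i, rfl⟩ := Subgroup.mem_zpowers_iff.mp h3
    by_cases hi : i = 0
    · rw [hi, zpow_zero]
    · exfalso
      haveI := hf
      have h4 : IsOfFinOrder (⟨n ^ i, h2⟩ : f.ker) := isOfFinOrder_of_finite _
      obtain ⟨m, hm0, hm⟩ := isOfFinOrder_iff_pow_eq_one.mp h4
      have h5 : (n ^ i) ^ m = 1 := congrArg Subtype.val hm
      rw [← zpow_natCast, ← zpow_mul] at h5
      have := hn _ h5
      rcases mul_eq_zero.mp this with h6 | h6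
      · exact hi h6
      · omega

theorem full (hK : SHAClosed K) (h : K D2) (G : Type) [Group G] (hG : AlmostCyclic G) : K G := by
  obtain ⟨H, _, _, f, hf⟩ := ac_embeds hG
  exact hK.sub _ _ f hf (finite_times hK h H)

theorem finByD_case (hK : SHAClosed K) {G : Type} [Group G] (hG : K G) (f : G →* DihedralGroup 0)
    (hf : Function.Surjective f) (hker : Finite f.ker) (hne : f.ker ≠ ⊥) : K D2 := by
  obtain ⟨n, a, hn, hna, hFn, hfn, hfa, k, hk⟩ := finByD_setup f hf hker
  by_cases ha : a * a = 1
  · rcases Nat.even_or_odd (Nat.card f.ker) with hev | hodd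
    · obtain ⟨z, hz, hz1, hzz, haz⟩ := exists_fixed_involution f.ker inferInstance hev a ha
      obtain ⟨φ, hφ⟩ := emb_D2 n a z hn ha hna hzz hz1 (hFn z hz) haz.symm
      exact hK.sub _ _ φ hφ hG
    · obtain ⟨x, hx, hx1, hax⟩ := exists_inverted f.ker inferInstance hne a ha
      have hxo : Odd (orderOf x) := by
        have h1 : orderOf (⟨x, hx⟩ : f.ker) ∣ Nat.card f.ker := orderOf_dvd_natCard _
        have h2 : orderOf (⟨x, hx⟩ : f.ker) = orderOf x := Subgroup.orderOf_mk x hx
        rw [h2] at h1
        exact hodd.of_dvd_nat h1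
      obtain ⟨L, _, φ, ψ, hφ, hψ⟩ := case_odd n a x hn ha hna hx1 hxo (hFn x hx) hax
      exact hK.sub _ _ ψ hψ (hK.aut L (hK.sub _ _ φ hφ hG))
  · obtain ⟨L, φ, hφ⟩ := case_order_four f n a hn hna hfn hfa k hk ha
    exact hK.sub _ _ φ hφ (hK.aut L (hK.sub _ _ L.subtype L.subtype_injective hG))

theorem dih_of_ker_bot {G : Type} [Group G] (f : G →* DihedralGroup 0)
    (hf : Function.Surjective f) (h : f.ker = ⊥) : Nonempty (G ≃* DihedralGroup 0) :=
  ⟨MulEquiv.ofBijective f ⟨(MonoidHom.ker_eq_bot_iff f).mp h, hf⟩⟩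

/-- the infinite hyper-(locally soluble or finite) members of an admissible class -/
theorem infinite_members (hK : Admissible K) :
    (∀ (G : Type) [Group G], AlmostCyclic G → K G) ∨
      ∀ (G : Type) [Group G], K G → HyperLSF G → Infinite G →
        FinByZ G ∨ Nonempty (G ≃* DihedralGroup 0) := by
  by_cases hD : K D2
  · exact Or.inl fun G _ hG => full hK.1 hD G hG
  · right
    intro G _ hG hH hinf
    have hac : AlmostCyclic G := (hK.1.shab hK.2).almostCyclic_hyper hG hH
    rcases ac_types hac hinf with h | ⟨f, hf, hker⟩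
    · exact Or.inl h
    · right
      refine dih_of_ker_bot f hf ?_
      by_contra hne
      exact hD (finByD_case hK.1 hG f hf hker hne)

end Pool.Agent.SHAI
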