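import Mathlib
import Pool.Agent.SHAI.Types
import Pool.Agent.SHAI.AutZ
import Pool.Agent.SHAI.AutD
import Pool.Agent.SHAI.SubZ
import Pool.Agent.SHAI.SubD
import Pool.Agent.SHAI.Hyp
import Pool.Agent.SHAI.AcAut

set_option autoImplicit false

/-!
The main theorems on infinite members.
-/

namespace Pool.Agent.SHAI

open Pool.Agent.SHA

variable {K : (G : Type) → [Group G] → Prop}

lemma finite_mulAut (G : Type) [Group G] [Finite G] : Finite (MulAut G) :=
  Finite.of_injective (fun f : MulAut G => (f : G → G)) DFunLike.coe_injective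

lemma dih_almostCyclic {G : Type} [Group G] (h : Nonempty (G ≃* DihedralGroup 0)) :
    AlmostCyclic G := by
  obtain ⟨e⟩ := h
  refine finByD_almostCyclic ⟨e.toMonoidHom, e.surjective, ?_⟩
  have : e.toMonoidHom.ker = ⊥ := (MonoidHom.ker_eq_bot_iff _).mpr e.injective
  rw [this]
  infer_instance

/-- the automorphism group of `G` is isomorphic to that of an isomorphic group -/
def mulAutCongr' {G H : Type} [Group G] [Group H] (e : G ≃* H) : MulAut G ≃* MulAut H :=
  MulAut.congr e

theorem adm_of_closed
    (hsub : ∀ (G H : Type) [Group G] [Group H] (f : H →* G), Function.Injective f → K G → K H)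
    (hquo : ∀ (G Q : Type) [Group G] [Group Q] (f : G →* Q), Function.Surjective f → K G → K Q)
    (hfin : ∀ (G : Type) [Group G], Finite G → K G)
    (hinf : ∀ (G : Type) [Group G], K G → Infinite G →
      FinByZ G ∨ Nonempty (G ≃* DihedralGroup 0)) : Admissible K := by
  refine ⟨⟨hsub, hquo, ?_⟩, Z2, inferInstance, inferInstanceAs (Countable (ℤ × ℤ)), ?_⟩
  · intro G _ hG
    rcases finite_or_infinite G with hf | hi
    · haveI := hf
      exact hfin _ (finite_mulAut G)
    · rcases hinf G hG hi with h | ⟨⟨e⟩⟩
      · exact hfin _ (finite_mulAut_finByZ h)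
      · obtain ⟨e'⟩ := mulAut_dih
        let e2 : MulAut G ≃* G := (mulAutCongr' e).trans (e'.symm.trans e.symm)
        exact hsub _ _ e2.toMonoidHom e2.injective hG
  · intro hZ
    apply not_almostCyclic_Z2
    rcases hinf Z2 hZ (inferInstanceAs (Infinite (ℤ × ℤ))) with h | h
    · exact finByZ_almostCyclic h
    · exact dih_almostCyclic h

theorem bigClass_sub (G H : Type) [Group G] [Group H] (f : H →* G) (hf : Function.Injective f)
    (h : BigClass G) : BigClass H := by
  rcases h with h | h | ⟨⟨e⟩⟩
  · exact Or.inl (Finite.of_injective f hf)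
  · rcases finByZ_sub f hf h with h1 | h1
    · exact Or.inl h1
    · exact Or.inr (Or.inl h1)
  · exact dih_sub (e.toMonoidHom.comp f) (e.injective.comp hf)

theorem bigClass_quo (G Q : Type) [Group G] [Group Q] (f : G →* Q) (hf : Function.Surjective f)
    (h : BigClass G) : BigClass Q := by
  rcases h with h | h | ⟨⟨e⟩⟩
  · exact Or.inl (Finite.of_surjective f hf)
  · rcases finByZ_quo f hf h with h1 | h1
    · exact Or.inl h1
    · exact Or.inr (Or.inl h1)
  · rcases dih_quo (f.comp e.symm.toMonoidHom) (hf.comp e.symm.surjective) with h1 | h1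
    · exact Or.inl h1
    · exact Or.inr (Or.inr h1)

theorem bigClass_admissible : Admissible BigClass := by
  refine adm_of_closed bigClass_sub bigClass_quo (fun G _ h => Or.inl h) ?_
  intro G _ hG hinf
  rcases hG with h | h
  · exact absurd h (not_finite_iff_infinite.mpr hinf)
  · exact h

theorem almostCyclic_admissible : Admissible (fun (G : Type) [Group G] => AlmostCyclic G) := by
  refine ⟨⟨?_, ?_, fun G _ h => almostCyclic_mulAut h⟩, Z2, inferInstance,
    inferInstanceAs (Countable (ℤ × ℤ)), not_almostCyclic_Z2⟩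
  · intro G H _ _ f hf h
    have h1 : AlmostCyclic f.range := AlmostCyclic.sub _ h
    exact h1.quo (MonoidHom.ofInjective hf).symm.toMonoidHom (MonoidHom.ofInjective hf).symm.surjective
  · intro G Q _ _ f hf h
    exact h.quo f hf

end Pool.Agent.SHAI
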