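import Mathlib
import Pool.Agent.SHAF.ListDefs

set_option autoImplicit false

/-!
The group `SL(2,3)` (module TLA).
-/

namespace Pool.Agent.SHAF

/-- the group -/
private abbrev TlG : Type := Matrix.SpecialLinearGroup (Fin 2) (ZMod 3)

/-- the entries of the matrices of the quaternion subgroup -/
private def tlE : QuaternionGroup 2 → ZMod 3 × ZMod 3 × ZMod 3 × ZMod 3
  | .a i => (![(1, 0, 0, 1), (0, 1, 2, 0), (2, 0, 0, 2), (0, 2, 1, 0)] :
      Fin 4 → ZMod 3 × ZMod 3 × ZMod 3 × ZMod 3) i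
  | .xa i => (![(1, 1, 1, 2), (2, 1, 1, 1), (2, 2, 2, 1), (1, 2, 2, 2)] :
      Fin 4 → ZMod 3 × ZMod 3 × ZMod 3 × ZMod 3) i

private lemma tlE_det : ∀ x : QuaternionGroup 2,
    (tlE x).1 * (tlE x).2.2.2 - (tlE x).2.1 * (tlE x).2.2.1 = 1 := by
  decide +kernel

private lemma tlE_one : tlE 1 = (1, 0, 0, 1) := by
  decide +kernel

private lemma tlE_mul : ∀ x y : QuaternionGroup 2, tlE (x * y) =
    ((tlE x).1 * (tlE y).1 + (tlE x).2.1 * (tlE y).2.2.1,
      (tlE x).1 * (tlE y).2.1 + (tlE x).2.1 * (tlE y).2.2.2,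
      (tlE x).2.2.1 * (tlE y).1 + (tlE x).2.2.2 * (tlE y).2.2.1,
      (tlE x).2.2.1 * (tlE y).2.1 + (tlE x).2.2.2 * (tlE y).2.2.2) := by
  decide +kernel

private lemma tlE_inj : ∀ x y : QuaternionGroup 2, tlE x = tlE y → x = y := by
  decide +kernel

private lemma tlE_conj : ∀ a b c d : ZMod 3, a * d - b * c = 1 → ∀ x : QuaternionGroup 2,
    ∃ y : QuaternionGroup 2, tlE y =
      ((a * (tlE x).1 + b * (tlE x).2.2.1) * d + (a * (tlE x).2.1 + b * (tlE x).2.2.2) * (-c),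
        (a * (tlE x).1 + b * (tlE x).2.2.1) * (-b) + (a * (tlE x).2.1 + b * (tlE x).2.2.2) * a,
        (c * (tlE x).1 + d * (tlE x).2.2.1) * d + (c * (tlE x).2.1 + d * (tlE x).2.2.2) * (-c),
        (c * (tlE x).1 + d * (tlE x).2.2.1) * (-b) + (c * (tlE x).2.1 + d * (tlE x).2.2.2) * a) := by
  decide +kernel

private lemma tlE_cent : ∀ a b c d : ZMod 3, a * d - b * c = 1 →
    (a * 0 + b * 2 = 0 * a + 1 * c ∧ a * 1 + b * 0 = 0 * b + 1 * d ∧
      c * 0 + d * 2 = 2 * a + 0 * c ∧ c * 1 + d * 0 = 2 * b + 0 * d) →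
    (a * 1 + b * 1 = 1 * a + 1 * c ∧ a * 1 + b * 2 = 1 * b + 1 * d ∧
      c * 1 + d * 1 = 1 * a + 2 * c ∧ c * 1 + d * 2 = 1 * b + 2 * d) →
    ∃ x : QuaternionGroup 2, tlE x = (a, b, c, d) := by
  decide +kernel

private lemma tlE_card : Fintype.card {v : ZMod 3 × ZMod 3 × ZMod 3 × ZMod 3 //
    v.1 * v.2.2.2 - v.2.1 * v.2.2.1 = 1} = 24 := by
  decide +kernel

private lemma tl_det (M : TlG) : M.1 0 0 * M.1 1 1 - M.1 0 1 * M.1 1 0 = 1 := by
  rw [← Matrix.det_fin_two]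
  exact M.2

/-- coordinates -/
private def tlEquiv : TlG ≃ {v : ZMod 3 × ZMod 3 × ZMod 3 × ZMod 3 //
    v.1 * v.2.2.2 - v.2.1 * v.2.2.1 = 1} where
  toFun M := ⟨(M.1 0 0, M.1 0 1, M.1 1 0, M.1 1 1), tl_det M⟩
  invFun v := ⟨!![v.1.1, v.1.2.1; v.1.2.2.1, v.1.2.2.2], by
    rw [Matrix.det_fin_two_of]
    exact v.2⟩
  left_inv M := by
    ext i j
    fin_cases i <;> fin_cases j <;> rfl
  right_inv v := by
    rfl

/-- the embedding of the quaternion group -/
private def tlHom : QuaternionGroup 2 →* TlG where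
  toFun x := tlEquiv.symm ⟨tlE x, tlE_det x⟩
  map_one' := by
    apply tlEquiv.injective
    rw [Equiv.apply_symm_apply]
    apply Subtype.ext
    change tlE 1 = _
    rw [tlE_one]
    rfl
  map_mul' x y := by
    apply tlEquiv.injective
    rw [Equiv.apply_symm_apply]
    apply Subtype.ext
    change tlE (x * y) = _
    rw [tlE_mul]
    simp [tlEquiv, Matrix.SpecialLinearGroup.coe_mul, Matrix.mul_apply, Fin.sum_univ_two]

private lemma tlHom_apply (x : QuaternionGroup 2) :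
    (tlHom x).1 = !![(tlE x).1, (tlE x).2.1; (tlE x).2.2.1, (tlE x).2.2.2] := rfl

private lemma tl_mem (M : TlG) {x : QuaternionGroup 2}
    (h : tlE x = (M.1 0 0, M.1 0 1, M.1 1 0, M.1 1 1)) : M ∈ tlHom.range := by
  refine ⟨x, ?_⟩
  apply tlEquiv.injective
  apply Subtype.ext
  change tlE x = _
  rw [h]
  rfl

theorem bintet_sl : BinTet (Matrix.SpecialLinearGroup (Fin 2) (ZMod 3)) := by
  refine ⟨?_, tlHom.range, ?_, ⟨?_⟩, ?_⟩
  · rw [Nat.card_congr tlEquiv, Nat.card_eq_fintype_card]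
    exact tlE_card
  · constructor
    rintro _ ⟨x, rfl⟩ M
    obtain ⟨y, hy⟩ := tlE_conj _ _ _ _ (tl_det M) x
    apply tl_mem _ (x := y)
    rw [hy]
    have h1 : (M * tlHom x * M⁻¹).1 = M.1 * (tlHom x).1 * M.1.adjugate := by
      rw [Matrix.SpecialLinearGroup.coe_mul, Matrix.SpecialLinearGroup.coe_mul,
        Matrix.SpecialLinearGroup.coe_inv]
    rw [h1, Matrix.adjugate_fin_two, tlHom_apply]
    simp [Matrix.mul_apply, Fin.sum_univ_two]
  · exact (MonoidHom.ofInjective (f := tlHom) (by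
      intro x y h
      apply tlE_inj
      have := congrArg (fun M => (tlEquiv M).1) h
      simpa [tlHom] using this)).symm
  · intro M hM
    rw [Subgroup.mem_centralizer_iff] at hM
    have h1 := congrArg (fun N : TlG => N.1) (hM (tlHom (.a 1)) ⟨_, rfl⟩)
    have h2 := congrArg (fun N : TlG => N.1) (hM (tlHom (.xa 0)) ⟨_, rfl⟩)
    simp only [Matrix.SpecialLinearGroup.coe_mul] at h1 h2
    have e1 : (tlHom (.a 1)).1 = !![0, 1; 2, 0] := rfl
    have e2 : (tlHom (.xa 0)).1 = !![1, 1; 1, 2] := rfl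
    rw [e1] at h1
    rw [e2] at h2
    obtain ⟨x, hx⟩ := tlE_cent (M.1 0 0) (M.1 0 1) (M.1 1 0) (M.1 1 1) (tl_det M)
      (by
        have a1 := congrFun (congrFun h1 0) 0
        have a2 := congrFun (congrFun h1 0) 1
        have a3 := congrFun (congrFun h1 1) 0
        have a4 := congrFun (congrFun h1 1) 1
        simp only [Matrix.mul_apply, Fin.sum_univ_two, Matrix.of_apply, Matrix.cons_val', Matrix.cons_val_zero, Matrix.cons_val_one, Matrix.cons_val_fin_one] at a1 a2 a3 a4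
        exact ⟨a1.symm, a2.symm, a3.symm, a4.symm⟩)
      (by
        have a1 := congrFun (congrFun h2 0) 0
        have a2 := congrFun (congrFun h2 0) 1
        have a3 := congrFun (congrFun h2 1) 0
        have a4 := congrFun (congrFun h2 1) 1
        simp only [Matrix.mul_apply, Fin.sum_univ_two, Matrix.of_apply, Matrix.cons_val', Matrix.cons_val_zero, Matrix.cons_val_one, Matrix.cons_val_fin_one] at a1 a2 a3 a4
        exact ⟨a1.symm, a2.symm, a3.symm, a4.symm⟩)
    exact tl_mem M hx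

end Pool.Agent.SHAF
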