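import Mathlib
import Pool.Agent.SHAF.ListDefs

set_option autoImplicit false

/-!
Uniqueness of the group `SL(2,3)` (module TLB).
-/

namespace Pool.Agent.SHAF

/-- the endomap of the quaternion group that maps `a 1` to `x` and `xa 0` to `y` -/
private def tlbA (x y : QuaternionGroup 2) : QuaternionGroup 2 → QuaternionGroup 2
  | QuaternionGroup.a k => x ^ (ZMod.val k)
  | QuaternionGroup.xa k => y * x ^ (ZMod.val k)

/-- the relations between three generators -/
private structure TlbRel {G : Type} [Group G] (i j s : G) : Prop where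
  hi : i ^ 4 = 1
  hj : j * j = i * i
  hji : j * i = i⁻¹ * j
  hsi : s * i = j * s
  hsj : s * j = i * j * s
  hs : s ^ 3 = 1

private lemma tlb_dec : ∀ x y : QuaternionGroup 2,
    (∀ p q, tlbA x y (p * q) = tlbA x y p * tlbA x y q) →
    (∀ p, tlbA x y (tlbA x y (tlbA x y p)) = p) → (∃ p, tlbA x y p ≠ p) →
    ∃ i : QuaternionGroup 2, i ^ 4 = 1 ∧ tlbA x y i * tlbA x y i = i * i ∧
      tlbA x y i * i = i⁻¹ * tlbA x y i ∧ tlbA x y (tlbA x y i) = i * tlbA x y i ∧
      ∀ q, ∃ a : Fin 4, ∃ b : Fin 2, q = i ^ (a : ℕ) * (tlbA x y i) ^ (b : ℕ) := by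
  decide +kernel

private lemma tlb_dec2 : ∀ k : ZMod 4, (QuaternionGroup.a k : QuaternionGroup 2) =
    (QuaternionGroup.a 1) ^ (ZMod.val k) ∧ (QuaternionGroup.xa k : QuaternionGroup 2) =
    QuaternionGroup.xa 0 * (QuaternionGroup.a 1) ^ (ZMod.val k) := by
  decide +kernel

private lemma tlbA_eq (α : QuaternionGroup 2 ≃* QuaternionGroup 2) (p : QuaternionGroup 2) :
    tlbA (α (QuaternionGroup.a 1)) (α (QuaternionGroup.xa 0)) p = α p := by
  rcases p with k | k
  · rw [(tlb_dec2 k).1, map_pow, ← (tlb_dec2 k).1]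
    rfl
  · rw [(tlb_dec2 k).2, map_mul, map_pow, ← (tlb_dec2 k).2]
    rfl

private lemma tlb_aut (α : QuaternionGroup 2 ≃* QuaternionGroup 2)
    (h3 : ∀ p, α (α (α p)) = p) (h1 : ∃ p, α p ≠ p) :
    ∃ i : QuaternionGroup 2, i ^ 4 = 1 ∧ α i * α i = i * i ∧
      α i * i = i⁻¹ * α i ∧ α (α i) = i * α i ∧
      ∀ q, ∃ a : Fin 4, ∃ b : Fin 2, q = i ^ (a : ℕ) * (α i) ^ (b : ℕ) := by
  have h := tlb_dec (α (QuaternionGroup.a 1)) (α (QuaternionGroup.xa 0))
  simp only [tlbA_eq] at h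
  exact h (fun p q => map_mul α p q) h3 h1

private lemma tlb_extract {G : Type} [Group G] (h : BinTet G) :
    ∃ i j s : G, TlbRel i j s ∧ Subgroup.closure ({i, j, s} : Set G) = ⊤ := by
  obtain ⟨hc, Q, hQn, ⟨e⟩, hcent⟩ := h
  have hfin : Finite G := Nat.finite_of_card_ne_zero (by rw [hc]; norm_num)
  have : Fact (Nat.Prime 3) := ⟨Nat.prime_three⟩
  obtain ⟨s, hs⟩ := exists_prime_orderOf_dvd_card' (G := G) 3 (by rw [hc]; norm_num)
  have hQc : Nat.card Q = 8 := by
    rw [Nat.card_congr e.toEquiv, Nat.card_eq_fintype_card, QuaternionGroup.card]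
  have hs3 : s ^ 3 = 1 := by rw [← hs]; exact pow_orderOf_eq_one s
  have hsQ : s ∉ Q := by
    intro hm
    have h1 := Subgroup.orderOf_dvd_natCard Q hm
    rw [hs, hQc] at h1
    norm_num at h1
  have hsc : ∃ q ∈ Q, q * s ≠ s * q := by
    by_contra hcon
    push Not at hcon
    exact hsQ (hcent (Subgroup.mem_centralizer_iff.2 hcon))
  -- the embedding of the quaternion group
  let φ : QuaternionGroup 2 →* G := Q.subtype.comp e.symm.toMonoidHom
  have hφ : Function.Injective φ := Subtype.val_injective.comp e.symm.injective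
  let α : QuaternionGroup 2 ≃* QuaternionGroup 2 := (e.symm.trans (MulAut.conjNormal s)).trans e
  have hα : ∀ p, φ (α p) = s * φ p * s⁻¹ := by
    intro p
    show ((e.symm (e (MulAut.conjNormal s (e.symm p))) : Q) : G) = _
    rw [e.symm_apply_apply, MulAut.conjNormal_apply]
    rfl
  have h3 : ∀ p, α (α (α p)) = p := by
    intro p
    apply hφ
    rw [hα, hα, hα]
    have : s * (s * (s * φ p * s⁻¹) * s⁻¹) * s⁻¹ = s ^ 3 * φ p * (s ^ 3)⁻¹ := by
      simp only [pow_succ, pow_zero, one_mul, mul_inv_rev, mul_assoc]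
    rw [this, hs3, one_mul, inv_one, mul_one]
  have h1 : ∃ p, α p ≠ p := by
    obtain ⟨q, hq, hne⟩ := hsc
    refine ⟨e ⟨q, hq⟩, fun heq => hne ?_⟩
    have h2 := hα (e ⟨q, hq⟩)
    rw [heq] at h2
    have h4 : φ (e ⟨q, hq⟩) = q := by
      show ((e.symm (e ⟨q, hq⟩) : Q) : G) = q
      rw [e.symm_apply_apply]
    rw [h4] at h2
    rw [eq_mul_inv_iff_mul_eq] at h2
    exact h2
  obtain ⟨i, hi, hj, hji, hαj, hgen⟩ := tlb_aut α h3 h1
  refine ⟨φ i, φ (α i), s, ⟨?_, ?_, ?_, ?_, ?_, hs3⟩, ?_⟩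
  · rw [← map_pow, hi, map_one]
  · rw [← map_mul, hj, map_mul]
  · rw [← map_mul, hji, map_mul, map_inv]
  · rw [hα, inv_mul_cancel_right]
  · have h2 := hα (α i)
    rw [hαj, map_mul, eq_mul_inv_iff_mul_eq] at h2
    exact h2.symm
  · set D := Subgroup.closure ({φ i, φ (α i), s} : Set G) with hD
    have hiD : φ i ∈ D := Subgroup.subset_closure (by simp)
    have hjD : φ (α i) ∈ D := Subgroup.subset_closure (by simp)
    have hsD : s ∈ D := Subgroup.subset_closure (by simp)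
    have hQD : Q ≤ D := by
      intro q hq
      obtain ⟨a, b, hab⟩ := hgen (e ⟨q, hq⟩)
      have h4 : φ (e ⟨q, hq⟩) = q := by
        show ((e.symm (e ⟨q, hq⟩) : Q) : G) = q
        rw [e.symm_apply_apply]
      rw [← h4, hab, map_mul, map_pow, map_pow]
      exact D.mul_mem (D.pow_mem hiD _) (D.pow_mem hjD _)
    have h8 : 8 ∣ Nat.card D := hQc ▸ Subgroup.card_dvd_of_le hQD
    have h3' : 3 ∣ Nat.card D := hs ▸ Subgroup.orderOf_dvd_natCard D hsD
    have h24 : 24 ∣ Nat.card D := (by norm_num : Nat.Coprime 8 3).mul_dvd_of_dvd_of_dvd h8 h3'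
    have h24' : Nat.card D ∣ 24 := hc ▸ Subgroup.card_subgroup_dvd_card D
    apply Subgroup.eq_top_of_card_eq
    rw [hc]
    exact Nat.dvd_antisymm h24' h24

section

variable {G : Type} [Group G] {i j s : G}

/-- the normal form -/
private def TlbNF (i j s g : G) : Prop :=
  ∃ a b c : ℕ, b < 2 ∧ g = i ^ a * j ^ b * s ^ c

private lemma tlb_nf_i {g : G} (hg : TlbNF i j s g) : TlbNF i j s (i * g) := by
  obtain ⟨a, b, c, hb, rfl⟩ := hg
  exact ⟨a + 1, b, c, hb, by rw [pow_succ']; simp only [mul_assoc]⟩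

private lemma tlb_ji (h : TlbRel i j s) (a : ℕ) : j * i ^ a = i ^ (3 * a) * j := by
  have h1 : i⁻¹ = i ^ 3 := by
    have : i ^ 3 * i = 1 := by rw [← pow_succ]; exact h.hi
    exact (eq_inv_of_mul_eq_one_left this).symm
  induction a with
  | zero => simp
  | succ a ih =>
    rw [pow_succ, ← mul_assoc, ih, mul_assoc, h.hji, h1, ← mul_assoc, ← pow_add]
    congr 2

private lemma tlb_nf_j (h : TlbRel i j s) {g : G} (hg : TlbNF i j s g) : TlbNF i j s (j * g) := by
  obtain ⟨a, b, c, hb, rfl⟩ := hg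
  have h0 : b = 0 ∨ b = 1 := by omega
  rcases h0 with rfl | rfl
  · refine ⟨3 * a, 1, c, by norm_num, ?_⟩
    rw [pow_zero, mul_one, pow_one, ← mul_assoc, tlb_ji h]
  · refine ⟨3 * a + 2, 0, c, by norm_num, ?_⟩
    rw [pow_zero, mul_one, pow_one, ← mul_assoc, ← mul_assoc, tlb_ji h, mul_assoc (i ^ (3 * a)) j j,
      h.hj, pow_add, pow_two]

private lemma tlb_nf_pow {x : G} (hx : ∀ g, TlbNF i j s g → TlbNF i j s (x * g)) (n : ℕ) (g : G)
    (hg : TlbNF i j s g) : TlbNF i j s (x ^ n * g) := by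
  induction n with
  | zero => simpa using hg
  | succ n ih =>
    rw [pow_succ', mul_assoc]
    exact hx _ ih

private lemma tlb_nf_s (h : TlbRel i j s) {g : G} (hg : TlbNF i j s g) : TlbNF i j s (s * g) := by
  obtain ⟨a, b, c, hb, rfl⟩ := hg
  have h1 : s * i ^ a = j ^ a * s := by
    have : SemiconjBy s i j := h.hsi
    exact this.pow_right a
  have h2 : s * j ^ b = (i * j) ^ b * s := by
    have : SemiconjBy s j (i * j) := h.hsj
    exact this.pow_right b
  have h3 : s * (i ^ a * j ^ b * s ^ c) = j ^ a * ((i * j) ^ b * s ^ (c + 1)) := by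
    rw [pow_succ' s c, ← mul_assoc, ← mul_assoc, h1, mul_assoc (j ^ a) s, h2]
    simp only [mul_assoc]
  rw [h3]
  apply tlb_nf_pow (fun g hg => tlb_nf_j h hg)
  apply tlb_nf_pow (x := i * j)
  · intro g hg
    rw [mul_assoc]
    exact tlb_nf_i (tlb_nf_j h hg)
  · exact ⟨0, 0, c + 1, by norm_num, by simp⟩

private lemma tlb_closure (h : TlbRel i j s) {g : G}
    (hg : g ∈ Subgroup.closure ({i, j, s} : Set G)) : TlbNF i j s g := by
  have hinv : ∀ x ∈ ({i, j, s} : Set G), ∃ n : ℕ, x⁻¹ = x ^ n := by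
    intro x hx
    have hi4 : i⁻¹ = i ^ 3 := by
      have : i ^ 3 * i = 1 := by rw [← pow_succ]; exact h.hi
      exact (eq_inv_of_mul_eq_one_left this).symm
    have hj4 : j⁻¹ = j ^ 3 := by
      have : j ^ 3 * j = 1 := by
        have h1 : j ^ 3 * j = (j * j) * (j * j) := by
          simp only [pow_succ, pow_zero, one_mul, mul_assoc]
        have h2 : (i * i) * (i * i) = i ^ 4 := by
          simp only [pow_succ, pow_zero, one_mul, mul_assoc]
        rw [h1, h.hj, h2, h.hi]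
      exact (eq_inv_of_mul_eq_one_left this).symm
    have hs3 : s⁻¹ = s ^ 2 := by
      have : s ^ 2 * s = 1 := by rw [← pow_succ]; exact h.hs
      exact (eq_inv_of_mul_eq_one_left this).symm
    simp only [Set.mem_insert_iff, Set.mem_singleton_iff] at hx
    rcases hx with rfl | rfl | rfl
    · exact ⟨_, hi4⟩
    · exact ⟨_, hj4⟩
    · exact ⟨_, hs3⟩
  have hmul : ∀ x ∈ ({i, j, s} : Set G), ∀ g, TlbNF i j s g → TlbNF i j s (x * g) := by
    intro x hx g hg
    simp only [Set.mem_insert_iff, Set.mem_singleton_iff] at hx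
    rcases hx with rfl | rfl | rfl
    · exact tlb_nf_i hg
    · exact tlb_nf_j h hg
    · exact tlb_nf_s h hg
  induction hg using Subgroup.closure_induction_left with
  | one => exact ⟨0, 0, 0, by norm_num, by simp⟩
  | mul_left x hx y hy ih => exact hmul x hx y ih
  | inv_mul_cancel x hx y hy ih =>
    obtain ⟨n, hn⟩ := hinv x hx
    rw [hn]
    exact tlb_nf_pow (hmul x hx) n y ih

private lemma tlb_card (h : TlbRel i j s) :
    Finite (Subgroup.closure ({i, j, s} : Set G)) ∧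
      Nat.card (Subgroup.closure ({i, j, s} : Set G)) ≤ 24 := by
  set D := Subgroup.closure ({i, j, s} : Set G) with hD
  have hiD : i ∈ D := Subgroup.subset_closure (by simp)
  have hjD : j ∈ D := Subgroup.subset_closure (by simp)
  have hsD : s ∈ D := Subgroup.subset_closure (by simp)
  let f : Fin 4 × Fin 2 × Fin 3 → D := fun x =>
    ⟨i ^ (x.1 : ℕ) * j ^ (x.2.1 : ℕ) * s ^ (x.2.2 : ℕ),
      D.mul_mem (D.mul_mem (D.pow_mem hiD _) (D.pow_mem hjD _)) (D.pow_mem hsD _)⟩
  have hf : Function.Surjective f := by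
    rintro ⟨g, hg⟩
    obtain ⟨a, b, c, hb, rfl⟩ := tlb_closure h hg
    refine ⟨(⟨a % 4, Nat.mod_lt _ (by norm_num)⟩, ⟨b, hb⟩, ⟨c % 3, Nat.mod_lt _ (by norm_num)⟩), ?_⟩
    apply Subtype.ext
    show i ^ (a % 4) * j ^ b * s ^ (c % 3) = i ^ a * j ^ b * s ^ c
    rw [← pow_eq_pow_mod a h.hi, ← pow_eq_pow_mod c h.hs]
  refine ⟨Finite.of_surjective f hf, ?_⟩
  have := Nat.card_le_card_of_surjective f hf
  simpa [Nat.card_eq_fintype_card] using this

end

theorem bintet_unique {G H : Type} [Group G] [Group H] (hG : BinTet G) (hH : BinTet H) :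
    Nonempty (G ≃* H) := by
  obtain ⟨i, j, s, hr, hc⟩ := tlb_extract hG
  obtain ⟨i', j', s', hr', hc'⟩ := tlb_extract hH
  have hrel : TlbRel (i, i') (j, j') (s, s') :=
    ⟨Prod.ext hr.hi hr'.hi, Prod.ext hr.hj hr'.hj, Prod.ext hr.hji hr'.hji,
      Prod.ext hr.hsi hr'.hsi, Prod.ext hr.hsj hr'.hsj, Prod.ext hr.hs hr'.hs⟩
  obtain ⟨hfin, hcard⟩ := tlb_card hrel
  set D := Subgroup.closure ({(i, i'), (j, j'), (s, s')} : Set (G × H)) with hD
  have s1 : Function.Surjective ((MonoidHom.fst G H).comp D.subtype) := by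
    rw [← MonoidHom.range_eq_top, MonoidHom.range_comp, Subgroup.range_subtype, hD,
      MonoidHom.map_closure]
    rw [← hc]
    congr 1
    simp [Set.image_insert_eq]
  have s2 : Function.Surjective ((MonoidHom.snd G H).comp D.subtype) := by
    rw [← MonoidHom.range_eq_top, MonoidHom.range_comp, Subgroup.range_subtype, hD,
      MonoidHom.map_closure]
    rw [← hc']
    congr 1
    simp [Set.image_insert_eq]
  have b1 := s1.bijective_of_nat_card_le (by rw [hG.1]; exact hcard)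
  have b2 := s2.bijective_of_nat_card_le (by rw [hH.1]; exact hcard)
  exact ⟨(MulEquiv.ofBijective _ b1).symm.trans (MulEquiv.ofBijective _ b2)⟩

end Pool.Agent.SHAF
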