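import Mathlib
import Pool.Agent.SHAI.ClassDefs
import Pool.Agent.SHAI.Main
import Pool.Agent.SHAI.EA
import Pool.Agent.SHAI.TLA
import Pool.Agent.SHAI.TLB

set_option autoImplicit false

/-!
The classification of the admissible classes of elementary amenable groups.
-/

namespace Pool.Agent.SHAI

open Pool.Agent.SHA Pool.Agent.SHAF

variable {K : (G : Type) → [Group G] → Prop}

lemma binTet_of_equiv {G H : Type} [Group G] [Group H] (e : G ≃* H) (h : BinTet G) : BinTet H := by
  obtain ⟨hc, Q, hQ, ⟨f⟩, hcen⟩ := h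
  refine ⟨(Nat.card_congr e.toEquiv.symm).trans hc, Q.map e.toMonoidHom,
    Subgroup.Normal.map hQ _ e.surjective,
    ⟨(e.subgroupMap Q).symm.trans f⟩, ?_⟩
  intro x hx
  refine ⟨e.symm x, hcen ?_, e.apply_symm_apply x⟩
  rw [Subgroup.mem_centralizer_iff]
  intro q hq
  have h1 := Subgroup.mem_centralizer_iff.mp hx (e q) (Subgroup.mem_map_of_mem _ hq)
  apply e.injective
  rw [map_mul, map_mul, e.apply_symm_apply]
  exact h1

lemma binIco_of_equiv {G H : Type} [Group G] [Group H] (e : G ≃* H) (h : BinIco G) : BinIco H := by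
  obtain ⟨π, hπ, hk, hi⟩ := h
  refine ⟨π.comp e.symm.toMonoidHom, hπ.comp e.symm.surjective, ?_, ?_⟩
  · rw [← hk]
    refine Nat.card_congr (Equiv.ofBijective (fun x => ⟨e.symm x.1, x.2⟩) ⟨?_, ?_⟩)
    · intro x y hxy
      exact Subtype.ext (e.symm.injective (congrArg Subtype.val hxy))
    · intro y
      refine ⟨⟨e y.1, ?_⟩, Subtype.ext (e.symm_apply_apply y.1)⟩
      show π (e.symm (e y.1)) = 1
      rw [e.symm_apply_apply]
      exact y.2
  · intro g hg
    have h1 := hi (e.symm g) (by rw [← map_mul, hg, map_one])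
    exact h1

theorem binTet_iff {G : Type} [Group G] :
    BinTet G ↔ Nonempty (G ≃* Matrix.SpecialLinearGroup (Fin 2) (ZMod 3)) :=
  ⟨fun h => bintet_unique h bintet_sl, fun ⟨e⟩ => binTet_of_equiv e.symm bintet_sl⟩

theorem binIco_iff {G : Type} [Group G] :
    BinIco G ↔ Nonempty (G ≃* Matrix.SpecialLinearGroup (Fin 2) (ZMod 5)) :=
  ⟨fun h => binico_unique h binico_sl, fun ⟨e⟩ => binIco_of_equiv e.symm binico_sl⟩

theorem finList_iff {G : Type} [Group G] : FinList G ↔ ListL G := by
  constructor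
  · rintro (⟨hf, h⟩ | ⟨⟨e⟩⟩ | ⟨⟨e⟩⟩ | h)
    · refine ⟨hf, ?_⟩
      rcases h with h | h | h | h | h | h | h
      · exact Or.inl h
      · exact Or.inr (Or.inl h)
      · exact Or.inr (Or.inr (Or.inl h))
      · exact Or.inr (Or.inr (Or.inr (Or.inl h)))
      · exact Or.inr (Or.inr (Or.inr (Or.inr (Or.inl h))))
      · exact Or.inr (Or.inr (Or.inr (Or.inr (Or.inr (Or.inl (binTet_iff.mp h))))))
      · exact Or.inr (Or.inr (Or.inr (Or.inr (Or.inr (Or.inr (Or.inl h))))))
    · exact ⟨Finite.of_equiv _ e.symm.toEquiv,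
        Or.inr (Or.inr (Or.inr (Or.inr (Or.inr (Or.inr (Or.inr (Or.inl ⟨e⟩)))))))⟩
    · exact ⟨Finite.of_equiv _ e.symm.toEquiv,
        Or.inr (Or.inr (Or.inr (Or.inr (Or.inr (Or.inr (Or.inr (Or.inr (Or.inl ⟨e⟩))))))))⟩
    · obtain ⟨e⟩ := binIco_iff.mp h
      exact ⟨Finite.of_equiv _ e.symm.toEquiv,
        Or.inr (Or.inr (Or.inr (Or.inr (Or.inr (Or.inr (Or.inr (Or.inr (Or.inr ⟨e⟩))))))))⟩
  · rintro ⟨hf, h | h | h | h | h | h | h | h | h | h⟩
    · exact Or.inl ⟨hf, Or.inl h⟩
    · exact Or.inl ⟨hf, Or.inr (Or.inl h)⟩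
    · exact Or.inl ⟨hf, Or.inr (Or.inr (Or.inl h))⟩
    · exact Or.inl ⟨hf, Or.inr (Or.inr (Or.inr (Or.inl h)))⟩
    · exact Or.inl ⟨hf, Or.inr (Or.inr (Or.inr (Or.inr (Or.inl h))))⟩
    · exact Or.inl ⟨hf, Or.inr (Or.inr (Or.inr (Or.inr (Or.inr (Or.inl (binTet_iff.mpr h))))))⟩
    · exact Or.inl ⟨hf, Or.inr (Or.inr (Or.inr (Or.inr (Or.inr (Or.inr h)))))⟩
    · exact Or.inr (Or.inl h)
    · exact Or.inr (Or.inr (Or.inl h))
    · exact Or.inr (Or.inr (Or.inr (binIco_iff.mpr h)))

theorem tame_almostCyclic (hK : Admissible K) {G : Type} [Group G] (hG : K G) (h : Tame G) :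
    AlmostCyclic G := by
  rcases h with h | ⟨h, ho⟩
  · exact (hK.1.shab hK.2).almostCyclic_hyper hG h
  · exact elemAmenable_almostCyclic (hK.1.shab hK.2) hG h ho

theorem tame_elemAmenable {G : Type} [Group G] (h : Tame G) : ElemAmenable G := by
  rcases h with h | ⟨h, -⟩
  · exact hyperLSF_elemAmenable h
  · exact h

theorem almostCyclic_tame {G : Type} [Group G] (h : AlmostCyclic G) : Tame G :=
  Or.inl (almostCyclic_hyperLSF h)

/-- the infinite almost cyclic members -/
theorem infinite_ac_members (hK : SHAClosed K) (hD : ¬ K D2) {G : Type} [Group G] (hG : K G)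
    (hac : AlmostCyclic G) (hinf : Infinite G) :
    FinByZ G ∨ Nonempty (G ≃* DihedralGroup 0) := by
  rcases ac_types hac hinf with h | ⟨f, hf, hker⟩
  · exact Or.inl h
  · right
    refine dih_of_ker_bot f hf ?_
    by_contra hne
    exact hD (finByD_case hK hG f hf hker hne)

theorem not_listL_e3 : ¬ ListL (E 3) := by
  intro h
  rcases finList_iff.mpr h with h | ⟨⟨e⟩⟩ | ⟨⟨e⟩⟩ | h
  · exact list_e3 h
  · have h1 := Nat.card_congr e.toEquiv
    rw [e3_card, nat_card_alternatingGroup] at h1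
    norm_num [Nat.factorial] at h1
  · have h1 := Nat.card_congr e.toEquiv
    rw [e3_card, Nat.card_perm] at h1
    norm_num [Nat.factorial] at h1
  · obtain ⟨π, hπ, -⟩ := h
    have h1 : Nat.card (alternatingGroup (Fin 5)) ≤ Nat.card (E 3) :=
      Nat.card_le_card_of_surjective π hπ
    rw [e3_card, nat_card_alternatingGroup] at h1
    norm_num [Nat.factorial] at h1

/-- closure under subgroups -/
def SubClosed (K : (G : Type) → [Group G] → Prop) : Prop :=
  ∀ (G H : Type) [Group G] [Group H] (f : H →* G), Function.Injective f → K G → K H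

/-- closure under epimorphic images -/
def QuoClosed (K : (G : Type) → [Group G] → Prop) : Prop :=
  ∀ (G Q : Type) [Group G] [Group Q] (f : G →* Q), Function.Surjective f → K G → K Q

theorem admissible_tame_iff (hT : ∀ (G : Type) [Group G], K G → Tame G) :
    Admissible K ↔
      (∀ (G H : Type) [Group G] [Group H] (f : H →* G), Function.Injective f → K G → K H) ∧
      (∀ (G Q : Type) [Group G] [Group Q] (f : G →* Q), Function.Surjective f → K G → K Q) ∧
      ((∀ (G : Type) [Group G], K G ↔ AlmostCyclic G) ∨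
        ((∀ (G : Type) [Group G], Finite G → K G) ∧
          ∀ (G : Type) [Group G], K G → Infinite G →
            FinByZ G ∨ Nonempty (G ≃* DihedralGroup 0)) ∨
        ((∀ (G : Type) [Group G], K G → ListL G) ∧
          ∀ (G : Type) [Group G], K G → K (MulAut G))) := by
  constructor
  · intro hK
    refine ⟨hK.1.sub, hK.1.quo, ?_⟩
    by_cases hE : K (E 3)
    · by_cases hD : K D2
      · left
        exact fun G _ => ⟨fun h => tame_almostCyclic hK h (hT G h), fun h => full hK.1 hD G h⟩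
      · right; left
        refine ⟨fun G _ h => ?_, fun G _ h hinf => ?_⟩
        · haveI := h
          exact all_finite hK.1 hE G
        · exact infinite_ac_members hK.1 hD h (tame_almostCyclic hK h (hT G h)) hinf
    · right; right
      exact ⟨fun G _ h => finList_iff.mp
        (elemAmenable_finList hK.1 hE h (tame_elemAmenable (hT G h))), fun G _ h => hK.1.aut G h⟩
  · rintro ⟨hsub, hquo, h | ⟨h1, h2⟩ | ⟨h1, h2⟩⟩
    · have : K = fun (G : Type) [Group G] => AlmostCyclic G := by
        funext G _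
        exact propext (h G)
      rw [this]
      exact almostCyclic_admissible
    · exact adm_of_closed hsub hquo h1 h2
    · exact adm_of_e3 ⟨hsub, hquo, h2⟩ fun hE => not_listL_e3 (h1 _ hE)

theorem admissible_iff_tame_part (hK : SHAClosed K) :
    Admissible K ↔ Admissible (fun (G : Type) [Group G] => K G ∧ Tame G) := by
  constructor
  · intro hA
    have key : ∀ (G : Type) [Group G], (K G ∧ Tame G) ↔ (K G ∧ AlmostCyclic G) := fun G _ =>
      ⟨fun h => ⟨h.1, tame_almostCyclic hA h.1 h.2⟩, fun h => ⟨h.1, almostCyclic_tame h.2⟩⟩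
    have hAC := almostCyclic_admissible.1
    refine ⟨⟨?_, ?_, ?_⟩, ?_⟩
    · intro G H _ _ f hf h
      rw [key] at h ⊢
      exact ⟨hK.sub G H f hf h.1, hAC.sub G H f hf h.2⟩
    · intro G Q _ _ f hf h
      rw [key] at h ⊢
      exact ⟨hK.quo G Q f hf h.1, hAC.quo G Q f hf h.2⟩
    · intro G _ h
      rw [key] at h ⊢
      exact ⟨hK.aut G h.1, hAC.aut G h.2⟩
    · obtain ⟨C, hC, hcount, hnot⟩ := hA.2
      exact ⟨C, hC, hcount, fun h => hnot h.1⟩
  · intro hA
    refine ⟨hK, Z2, inferInstance, inferInstanceAs (Countable (ℤ × ℤ)), fun hZ => ?_⟩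
    refine not_almostCyclic_Z2 (abelian_almostCyclic hA.1 hA.2 Z2 ⟨hZ, ?_⟩)
    exact Or.inl (hyper_of_comm Z2)

theorem listL_admissible : Admissible ListL := by
  have h : ListL = FinList := by
    funext G _
    exact propext finList_iff.symm
  rw [h]
  exact adm_of_e3 fin_closed fun hE => not_listL_e3 (finList_iff.mp hE)

end Pool.Agent.SHAI
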