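import Mathlib

set_option autoImplicit false

/-!
Locally graded groups.
-/

namespace Pool.Agent.SHAI

/-- A group is locally graded if every nontrivial finitely generated subgroup has a proper subgroup
of finite index. -/
def LocGraded (G : Type) [Group G] : Prop :=
  ∀ H : Subgroup G, H.FG → H ≠ ⊥ → ∃ L : Subgroup H, L ≠ ⊤ ∧ L.FiniteIndex

end Pool.Agent.SHAI
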