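import Mathlib
import Pool.Agent.SHAI.LGDefs
import Pool.Agent.SHAI.EA

set_option autoImplicit false

/-!
Locally graded members of classes without the elementary abelian group of order 8.
-/

namespace Pool.Agent.SHAI

open Pool.Agent.SHA Pool.Agent.SHAF

variable {K : (G : Type) → [Group G] → Prop}

lemma comm_bot_of_comm {G : Type} [Group G] (h : ∀ a b : G, a * b = b * a) :
    commutator G = ⊥ := by
  rw [eq_bot_iff, commutator_def, Subgroup.commutator_le]
  intro a _ b _
  rw [Subgroup.mem_bot, commutatorElement_eq_one_iff_mul_comm]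
  exact h a b

lemma ds_two {G : Type} [Group G] (N : Subgroup G) (hN : N.Normal)
    (hNab : ∀ a ∈ N, ∀ b ∈ N, a * b = b * a) (hc : ∀ a b : G, a * b * a⁻¹ * b⁻¹ ∈ N) :
    derivedSeries G 2 = ⊥ := by
  have h1 : derivedSeries G 1 ≤ N := by
    rw [derivedSeries_one, commutator_def, Subgroup.commutator_le]
    exact fun a _ b _ => hc a b
  rw [eq_bot_iff, derivedSeries_succ, Subgroup.commutator_le]
  intro a ha b hb
  rw [Subgroup.mem_bot, commutatorElement_eq_one_iff_mul_comm]
  exact hNab a (h1 ha) b (h1 hb)

lemma finList_ds {G : Type} [Group G] (h : FinList G) (hc : 120 < Nat.card G) :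
    derivedSeries G 2 = ⊥ := by
  have small : Nat.card G ≤ 120 → derivedSeries G 2 = ⊥ := fun h => absurd hc (by omega)
  have card_le : ∀ (X : Type) (_ : Finite X), Nat.card X ≤ 120 → (∃ f : G → X,
      Function.Injective f) → Nat.card G ≤ 120 := by
    rintro X _ hX ⟨f, hf⟩
    exact (Nat.card_le_card_of_injective f hf).trans hX
  rcases h with ⟨hfin, h⟩ | h | h | h
  · haveI := hfin
    rcases h with ⟨h1, -⟩ | ⟨⟨e⟩⟩ | ⟨⟨e⟩⟩ | ⟨f, hf⟩ | ⟨⟨e⟩⟩ | h | h
    · refine ds_two ⊤ inferInstance (fun a _ b _ => h1.commGroup.mul_comm a b)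
        (fun a b => Subgroup.mem_top _)
    · refine small (card_le _ inferInstance ?_ ⟨e, e.injective⟩)
      rw [Nat.card_eq_fintype_card]
      decide
    · refine small (card_le _ inferInstance ?_ ⟨e, e.injective⟩)
      rw [Nat.card_eq_fintype_card]
      decide
    · refine small (card_le _ inferInstance ?_ ⟨f, hf⟩)
      rw [Nat.card_perm, Nat.card_fin]
      decide
    · refine small (card_le _ inferInstance ?_ ⟨e, e.injective⟩)
      rw [Nat.card_eq_fintype_card, QuaternionGroup.card]
      norm_num
    · refine small ?_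
      rw [h.1]
      norm_num
    · obtain ⟨q, c, d, N, H, hq, hN, hNc, hcompl, hH, -⟩ := h
      haveI := hN
      haveI : Fact q.Prime := ⟨hq⟩
      have hcyc : IsCyclic N := isCyclic_of_prime_card hNc
      refine ds_two N hN (fun a ha b hb => ?_) (fun a b => ?_)
      · exact congrArg Subtype.val (hcyc.commGroup.mul_comm ⟨a, ha⟩ ⟨b, hb⟩)
      · have key : ∀ g : G, ∃ x ∈ H, (QuotientGroup.mk' N) g = (QuotientGroup.mk' N) x := by
          intro g
          obtain ⟨⟨n, x⟩, hg⟩ := hcompl.2 g
          refine ⟨x.1, x.2, ?_⟩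
          rw [← hg]
          show (QuotientGroup.mk' N) (n.1 * x.1) = _
          rw [map_mul]
          have : (QuotientGroup.mk' N) n.1 = 1 := (QuotientGroup.eq_one_iff _).mpr n.2
          rw [this, one_mul]
        obtain ⟨x, hx, h1⟩ := key a
        obtain ⟨y, hy, h2⟩ := key b
        have h3 : (QuotientGroup.mk' N) (a * b * a⁻¹ * b⁻¹) = 1 := by
          rw [map_mul, map_mul, map_mul, map_inv, map_inv, h1, h2, ← map_mul, hH x hx y hy,
            map_mul]
          group
        exact (QuotientGroup.eq_one_iff _).mp h3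
  · obtain ⟨e⟩ := h
    refine small (card_le _ inferInstance ?_ ⟨e, e.injective⟩)
    rw [nat_card_alternatingGroup, Nat.card_fin]
    norm_num [Nat.factorial]
  · obtain ⟨e⟩ := h
    refine small (card_le _ inferInstance ?_ ⟨e, e.injective⟩)
    rw [Nat.card_perm, Nat.card_fin]
    norm_num [Nat.factorial]
  · obtain ⟨π, hπ, hk, -⟩ := h
    refine small ?_
    have hA : Nat.card (alternatingGroup (Fin 5)) = 60 := by
      rw [nat_card_alternatingGroup, Nat.card_eq_fintype_card, Fintype.card_fin]
      norm_num [Nat.factorial]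
    rw [← π.ker.card_mul_index, hk, Subgroup.index_ker, MonoidHom.range_eq_top.2 hπ,
      Subgroup.card_top, hA]

/-- a finite-index normal subgroup avoiding given elements -/
lemma exists_avoid {Q : Type} [Group Q]
    (hrf : ∀ x : Q, x ≠ 1 → ∃ M : Subgroup Q, M.Normal ∧ M.FiniteIndex ∧ x ∉ M)
    (s : Finset Q) (hs : ∀ x ∈ s, x ≠ 1) :
    ∃ M : Subgroup Q, M.Normal ∧ M.FiniteIndex ∧ ∀ x ∈ s, x ∉ M := by
  classical
  induction s using Finset.induction_on with
  | empty => exact ⟨⊤, inferInstance, inferInstance, by simp⟩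
  | insert a s ha ih =>
    obtain ⟨M, h1, h2, h3⟩ := ih fun x hx => hs x (Finset.mem_insert_of_mem hx)
    obtain ⟨M', h1', h2', h3'⟩ := hrf a (hs a (Finset.mem_insert_self a s))
    haveI := h1
    haveI := h2
    haveI := h1'
    haveI := h2'
    refine ⟨M ⊓ M', inferInstance, inferInstance, ?_⟩
    intro x hx hxM
    rcases Finset.mem_insert.mp hx with rfl | hx
    · exact h3' hxM.2
    · exact h3 x hx hxM.1

/-- residually finite members are finite -/
lemma resFin_finite (hK : SHAClosed K) (hE : ¬ K (E 3)) {Q : Type} [Group Q] (hQ : K Q)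
    (hrf : ∀ x : Q, x ≠ 1 → ∃ M : Subgroup Q, M.Normal ∧ M.FiniteIndex ∧ x ∉ M) : Finite Q := by
  classical
  by_contra hnf
  have hinf : Infinite Q := not_finite_iff_infinite.1 hnf
  obtain ⟨s, hs⟩ := Infinite.exists_subset_card_eq Q 121
  have h2 : derivedSeries Q 2 = ⊥ := by
    rw [eq_bot_iff]
    intro x hx
    by_contra hx1
    rw [Subgroup.mem_bot] at hx1
    let D : Finset Q := insert x (((s ×ˢ s).image fun p => p.1⁻¹ * p.2).erase 1)
    have hD : ∀ y ∈ D, y ≠ 1 := by
      intro y hy
      rcases Finset.mem_insert.mp hy with rfl | hy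
      · exact hx1
      · exact Finset.ne_of_mem_erase hy
    obtain ⟨M, h1, h2, h3⟩ := exists_avoid hrf D hD
    haveI := h1
    haveI := h2
    have hfin : Finite (Q ⧸ M) := Subgroup.finite_quotient_of_finiteIndex
    have hcard : 120 < Nat.card (Q ⧸ M) := by
      have hinj : Function.Injective fun y : s => ((y : Q) : Q ⧸ M) := by
        intro y z hyz
        by_contra hne
        have h4 : (y : Q)⁻¹ * (z : Q) ∈ M := QuotientGroup.eq.mp hyz
        refine h3 _ (Finset.mem_insert_of_mem (Finset.mem_erase.mpr ⟨?_, ?_⟩)) h4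
        · intro h5
          exact hne (Subtype.ext (inv_mul_eq_one.mp h5))
        · exact Finset.mem_image.mpr ⟨((y : Q), (z : Q)),
            Finset.mem_product.mpr ⟨y.2, z.2⟩, rfl⟩
      have h5 := Nat.card_le_card_of_injective _ hinj
      have h6 : Nat.card s = 121 := by
        rw [Nat.card_eq_fintype_card, Fintype.card_coe, hs]
      omega
    have hKQ : K (Q ⧸ M) := hK.quo _ _ (QuotientGroup.mk' M) (QuotientGroup.mk'_surjective M) hQ
    have hds := finList_ds (finite_member hK hE _ (Q ⧸ M) hKQ rfl) hcard
    have h7 : (QuotientGroup.mk' M) x ∈ derivedSeries (Q ⧸ M) 2 :=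
      map_derivedSeries_le_derivedSeries (QuotientGroup.mk' M) 2 (Subgroup.mem_map_of_mem _ hx)
    rw [hds, Subgroup.mem_bot] at h7
    exact h3 x (Finset.mem_insert_self _ _) ((QuotientGroup.eq_one_iff x).mp h7)
  haveI : Group.IsSolvable Q := ⟨⟨2, h2⟩⟩
  have hls : LocallySoluble Q := fun H _ => inferInstance
  exact hnf (hyper_finite hK hE hQ (locSol_hyperLSF hls))

/-- the finite residual -/
def finRes (H : Type) [Group H] : Subgroup H :=
  ⨅ L : {L : Subgroup H // L.Normal ∧ L.FiniteIndex}, L.1

instance finRes_normal (H : Type) [Group H] : (finRes H).Normal :=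
  Subgroup.normal_iInf_normal fun L => L.2.1

lemma finRes_le {H : Type} [Group H] (L : Subgroup H) (hL : L.FiniteIndex) : finRes H ≤ L := by
  haveI := hL
  refine le_trans ?_ (Subgroup.normalCore_le L)
  exact iInf_le (fun L : {L : Subgroup H // L.Normal ∧ L.FiniteIndex} => L.1)
    ⟨L.normalCore, inferInstance, inferInstance⟩

theorem locGraded_finList (hK : SHAClosed K) (hE : ¬ K (E 3)) {G : Type} [Group G] (hG : K G)
    (h : LocGraded G) : FinList G := by
  have hloc : ∀ H : Subgroup G, H.FG → FinList H := by
    intro H hH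
    have hKH : K H := hK.sub _ _ H.subtype H.subtype_injective hG
    have hKQ : K (H ⧸ finRes H) := hK.quo _ _ (QuotientGroup.mk' _)
      (QuotientGroup.mk'_surjective _) hKH
    have hQ : Finite (H ⧸ finRes H) := by
      refine resFin_finite hK hE hKQ ?_
      intro x hx
      obtain ⟨g, rfl⟩ := QuotientGroup.mk_surjective x
      have h1 : g ∉ finRes H := fun hg => hx ((QuotientGroup.eq_one_iff g).mpr hg)
      have h2 : ∃ L : {L : Subgroup H // L.Normal ∧ L.FiniteIndex}, g ∉ L.1 := by
        by_contra hno
        push Not at hno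
        exact h1 (Subgroup.mem_iInf.mpr hno)
      obtain ⟨⟨L, hLn, hLi⟩, hgL⟩ := h2
      haveI := hLn
      haveI := hLi
      have hle : finRes H ≤ L := finRes_le L hLi
      refine ⟨L.map (QuotientGroup.mk' (finRes H)),
        Subgroup.Normal.map hLn _ (QuotientGroup.mk'_surjective _), ?_, ?_⟩
      · constructor
        intro h0
        have h3 := Subgroup.index_map_dvd L (QuotientGroup.mk'_surjective (finRes H))
        rw [h0] at h3
        exact hLi.index_ne_zero (Nat.eq_zero_of_zero_dvd h3)
      · rintro ⟨y, hy, hyg⟩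
        have h3 : y⁻¹ * g ∈ finRes H := QuotientGroup.eq.mp hyg
        have h4 := L.mul_mem hy (hle h3)
        rw [mul_inv_cancel_left] at h4
        exact hgL h4
    have hRi : (finRes H).FiniteIndex := Subgroup.finiteIndex_of_finite_quotient
    have hR : finRes H = ⊥ := by
      by_contra hne
      haveI : Group.FG H := (Group.fg_iff_subgroup_fg H).mpr hH
      haveI := hRi
      have hRfg : Group.FG (finRes H) := inferInstance
      let R' : Subgroup G := (finRes H).map H.subtype
      have hR'fg : R'.FG := fg_map H.subtype _ ((Group.fg_iff_subgroup_fg _).mp hRfg)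
      have hR'ne : R' ≠ ⊥ := by
        intro h0
        exact hne ((Subgroup.map_eq_bot_iff_of_injective _ H.subtype_injective).mp h0)
      obtain ⟨L, hL, hLi⟩ := h R' hR'fg hR'ne
      let e : finRes H ≃* R' := (finRes H).equivMapOfInjective H.subtype H.subtype_injective
      let L1 : Subgroup (finRes H) := L.comap e.toMonoidHom
      have hL1i : L1.index ≠ 0 := by
        rw [Subgroup.index_comap_of_surjective L e.surjective]
        exact hLi.index_ne_zero
      have hL2 : (L1.map (finRes H).subtype).FiniteIndex := by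
        constructor
        rw [Subgroup.index_map_subtype]
        exact mul_ne_zero hL1i hRi.index_ne_zero
      have hle := finRes_le _ hL2
      apply hL
      rw [eq_top_iff]
      intro y _
      obtain ⟨r, rfl⟩ := e.surjective y
      obtain ⟨r', hr', hrr⟩ := hle r.2
      have h5 : r' = r := Subtype.ext hrr
      rw [← h5]
      exact hr'
    haveI : Finite H := by
      rw [hR] at hQ
      exact Finite.of_equiv _ (QuotientGroup.quotientBot (G := H)).toEquiv
    exact finite_member hK hE _ H hKH rfl
  haveI : Finite G := by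
    rcases locally_finList hloc with h1 | h1
    · exact h1
    · exact hyper_finite hK hE hG (locSol_hyperLSF h1)
  exact finite_member hK hE _ G hG rfl

end Pool.Agent.SHAI
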